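import Mathlib

set_option autoImplicit false
set_option linter.unusedSectionVars false

open Filter Topology

namespace Pool.Agent.Lib.MP_2dbb30_al.TF

/-- Every open normal subgroup has index a power of p. -/
def ProP (p : ℕ) (G : Type*) [Group G] [TopologicalSpace G] : Prop :=
  ∀ N : Subgroup G, N.Normal → IsOpen (N : Set G) → ∃ k : ℕ, N.index = p ^ k

section top

variable {G : Type*} [Group G] [TopologicalSpace G] [IsTopologicalGroup G] [CompactSpace G]
  [TotallyDisconnectedSpace G]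

theorem exists_open_normal {U : Set G} (hU : U ∈ 𝓝 (1 : G)) :
    ∃ N : Subgroup G, N.Normal ∧ IsOpen (N : Set G) ∧ (N : Set G) ⊆ U := by
  obtain ⟨V, hVU, hVo, h1⟩ := mem_nhds_iff.mp hU
  obtain ⟨H, hH⟩ := ProfiniteGrp.exist_openNormalSubgroup_sub_open_nhds_of_one hVo h1
  exact ⟨H.toSubgroup, H.isNormal', H.isOpen', fun x hx => hVU (hH hx)⟩

theorem eq_one_of_forall_mem {x : G}
    (h : ∀ N : Subgroup G, N.Normal → IsOpen (N : Set G) → x ∈ N) : x = 1 := by
  by_contra hx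
  have hU : ({x}ᶜ : Set G) ∈ 𝓝 (1 : G) :=
    isOpen_compl_singleton.mem_nhds (fun h1 => hx (Set.mem_singleton_iff.mp h1).symm)
  obtain ⟨N, hN, hNo, hNU⟩ := exists_open_normal hU
  exact hNU (h N hN hNo) rfl

theorem eq_of_forall_mk {x y : G}
    (h : ∀ N : Subgroup G, N.Normal → IsOpen (N : Set G) → (x : G ⧸ N) = (y : G ⧸ N)) : x = y := by
  have : x⁻¹ * y = 1 := eq_one_of_forall_mem fun N hN hNo => QuotientGroup.eq.mp (h N hN hNo)
  exact inv_mul_eq_one.mp this

/-- A closed set contains every point which it meets modulo every open normal subgroup. -/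
theorem mem_of_forall_mk {W : Set G} (hW : IsClosed W) {x : G}
    (h : ∀ N : Subgroup G, N.Normal → IsOpen (N : Set G) →
      ∃ w ∈ W, (x : G ⧸ N) = (w : G ⧸ N)) : x ∈ W := by
  by_contra hx
  have hU : (fun y => x * y) ⁻¹' Wᶜ ∈ 𝓝 (1 : G) := by
    apply (hW.isOpen_compl.preimage (continuous_const.mul continuous_id)).mem_nhds
    simpa using hx
  obtain ⟨N, hN, hNo, hNU⟩ := exists_open_normal hU
  obtain ⟨w, hw, hxw⟩ := h N hN hNo
  have := hNU (QuotientGroup.eq.mp hxw)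
  simp only [Set.mem_preimage, mul_inv_cancel_left, Set.mem_compl_iff] at this
  exact this hw

theorem continuous_of_forall_mk {X : Type*} [TopologicalSpace X] {f : X → G}
    (h : ∀ (x₀ : X) (N : Subgroup G), N.Normal → IsOpen (N : Set G) →
      ∀ᶠ x in 𝓝 x₀, (f x₀ : G ⧸ N) = (f x : G ⧸ N)) : Continuous f := by
  rw [continuous_iff_continuousAt]
  intro x₀ U hU
  have hU' : (fun y => f x₀ * y) ⁻¹' U ∈ 𝓝 (1 : G) := by
    apply (continuous_const.mul continuous_id).continuousAt.preimage_mem_nhds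
    simpa using hU
  obtain ⟨N, hN, hNo, hNU⟩ := exists_open_normal hU'
  rw [Filter.mem_map]
  filter_upwards [h x₀ N hN hNo] with x hx
  have := hNU (QuotientGroup.eq.mp hx)
  simpa using this

omit [CompactSpace G] [TotallyDisconnectedSpace G] in
theorem isOpen_fiber_mk {N : Subgroup G} (hNo : IsOpen (N : Set G)) (y : G) :
    IsOpen {x : G | (y : G ⧸ N) = (x : G ⧸ N)} := by
  have : {x : G | (y : G ⧸ N) = (x : G ⧸ N)} = (fun x => y⁻¹ * x) ⁻¹' (N : Set G) := by
    ext x; simp [QuotientGroup.eq]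
  rw [this]
  exact hNo.preimage (continuous_const.mul continuous_id)

omit [CompactSpace G] [TotallyDisconnectedSpace G] in
theorem isClosed_fiber_mk {N : Subgroup G} (hNo : IsOpen (N : Set G)) (y : G) :
    IsClosed {x : G | (y : G ⧸ N) = (x : G ⧸ N)} := by
  have : {x : G | (y : G ⧸ N) = (x : G ⧸ N)} = (fun x => y⁻¹ * x) ⁻¹' (N : Set G) := by
    ext x; simp [QuotientGroup.eq]
  rw [this]
  exact (N.isClosed_of_isOpen hNo).preimage (continuous_const.mul continuous_id)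

end top

section pw

variable {p : ℕ} {G : Type*} [Group G] [TopologicalSpace G]

theorem exists_pow_mem (hG : ProP p G) (N : Subgroup G) (hN : N.Normal)
    (hNo : IsOpen (N : Set G)) : ∃ k : ℕ, ∀ g : G, g ^ p ^ k ∈ N := by
  obtain ⟨k, hk⟩ := hG N hN hNo
  exact ⟨k, fun g => hk ▸ N.pow_index_mem g⟩

omit [TopologicalSpace G] in
theorem mk_zpow_congr {N : Subgroup G} [N.Normal] {g : G} {q : ℕ} (hq : g ^ q ∈ N) {m n : ℤ}
    (h : (q : ℤ) ∣ m - n) : ((g ^ m : G) : G ⧸ N) = ((g ^ n : G) : G ⧸ N) := by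
  obtain ⟨c, hc⟩ := h
  have hm : m = n + q * c := by linarith
  have h1 : ((g : G ⧸ N)) ^ (q : ℤ) = 1 := by
    rw [zpow_natCast, ← QuotientGroup.mk_pow]
    exact (QuotientGroup.eq_one_iff _).mpr hq
  rw [QuotientGroup.mk_zpow, QuotientGroup.mk_zpow, hm, zpow_add, zpow_mul, h1, one_zpow, mul_one]

variable [hp : Fact p.Prime]

theorem int_dvd_of_padic_dvd {k : ℕ} {m : ℤ} (h : (p : ℤ_[p]) ^ k ∣ (m : ℤ_[p])) :
    ((p ^ k : ℕ) : ℤ) ∣ m := by
  have h1 : ‖(m : ℤ_[p])‖ ≤ (p : ℝ) ^ (-(k : ℤ)) :=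
    (PadicInt.norm_le_pow_iff_mem_span_pow _ _).mpr (Ideal.mem_span_singleton.mpr h)
  have := (PadicInt.norm_int_le_pow_iff_dvd (p := p) (k := m) (n := k)).mp h1
  exact_mod_cast this

theorem exists_int_approx (a : ℤ_[p]) (k : ℕ) : ∃ n : ℤ, (p : ℤ_[p]) ^ k ∣ a - n :=
  ⟨(a.appr k : ℕ), by
    have := Ideal.mem_span_singleton.mp (PadicInt.appr_spec k a)
    simpa using this⟩

variable [IsTopologicalGroup G] [CompactSpace G]

theorem exists_pw (g : G) (a : ℤ_[p]) :
    ∃ x : G, ∀ N : Subgroup G, N.Normal → IsOpen (N : Set G) → ∀ k : ℕ, g ^ p ^ k ∈ N →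
      ∀ n : ℤ, (p : ℤ_[p]) ^ k ∣ a - n → ((g ^ n : G) : G ⧸ N) = (x : G ⧸ N) := by
  obtain ⟨x, -, hx⟩ := isCompact_univ.exists_mapClusterPt (f := atTop)
    (u := fun j : ℕ => g ^ ((a.appr j : ℕ) : ℤ)) (by simp)
  refine ⟨x, fun N hN hNo k hk n hn => ?_⟩
  refine (isClosed_fiber_mk hNo (g ^ n)).mem_of_mapClusterPt hx ?_
  filter_upwards [eventually_ge_atTop k] with j hj
  apply mk_zpow_congr hk
  apply int_dvd_of_padic_dvd
  have h1 : (p : ℤ_[p]) ^ k ∣ a - (a.appr j : ℕ) :=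
    (pow_dvd_pow _ hj).trans (Ideal.mem_span_singleton.mp (PadicInt.appr_spec j a))
  have h2 := dvd_sub h1 hn
  have h3 : a - (a.appr j : ℕ) - (a - n) = ((n - ((a.appr j : ℕ) : ℤ) : ℤ) : ℤ_[p]) := by
    push_cast; ring
  rwa [h3] at h2

/-- The p-adic power of g. -/
noncomputable def pw (_hG : ProP p G) (g : G) (a : ℤ_[p]) : G := (exists_pw g a).choose

theorem pw_spec (hG : ProP p G) (g : G) (a : ℤ_[p]) {N : Subgroup G} (hN : N.Normal)
    (hNo : IsOpen (N : Set G)) {k : ℕ} (hk : g ^ p ^ k ∈ N) {n : ℤ}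
    (hn : (p : ℤ_[p]) ^ k ∣ a - n) : ((pw hG g a : G) : G ⧸ N) = ((g ^ n : G) : G ⧸ N) :=
  ((exists_pw g a).choose_spec N hN hNo k hk n hn).symm

variable [TotallyDisconnectedSpace G]

theorem pw_intCast (hG : ProP p G) (g : G) (n : ℤ) : pw hG g (n : ℤ_[p]) = g ^ n := by
  apply eq_of_forall_mk
  intro N hN hNo
  obtain ⟨k, hk⟩ := exists_pow_mem hG N hN hNo
  exact pw_spec hG g _ hN hNo (hk g) (by simp)

theorem pw_natCast (hG : ProP p G) (g : G) (n : ℕ) : pw hG g (n : ℤ_[p]) = g ^ n := by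
  have := pw_intCast hG g (n : ℤ)
  simpa using this

@[simp] theorem pw_zero (hG : ProP p G) (g : G) : pw hG g 0 = 1 := by
  simpa using pw_natCast hG g 0

@[simp] theorem pw_one (hG : ProP p G) (g : G) : pw hG g 1 = g := by
  simpa using pw_natCast hG g 1

theorem pw_add (hG : ProP p G) (g : G) (a b : ℤ_[p]) :
    pw hG g (a + b) = pw hG g a * pw hG g b := by
  apply eq_of_forall_mk
  intro N hN hNo
  obtain ⟨k, hk⟩ := exists_pow_mem hG N hN hNo
  obtain ⟨m, hm⟩ := exists_int_approx a k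
  obtain ⟨n, hn⟩ := exists_int_approx b k
  have h : (p : ℤ_[p]) ^ k ∣ a + b - ((m + n : ℤ) : ℤ_[p]) := by
    have := dvd_add hm hn
    convert this using 1
    push_cast; ring
  rw [pw_spec hG g _ hN hNo (hk g) h, QuotientGroup.mk_mul, pw_spec hG g _ hN hNo (hk g) hm,
    pw_spec hG g _ hN hNo (hk g) hn, zpow_add, QuotientGroup.mk_mul]

theorem pw_neg (hG : ProP p G) (g : G) (a : ℤ_[p]) : pw hG g (-a) = (pw hG g a)⁻¹ := by
  apply eq_inv_of_mul_eq_one_left
  rw [← pw_add, neg_add_cancel, pw_zero]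

theorem pw_sub (hG : ProP p G) (g : G) (a b : ℤ_[p]) :
    pw hG g (a - b) = pw hG g a * (pw hG g b)⁻¹ := by
  rw [sub_eq_add_neg, pw_add, pw_neg]

theorem pw_mul (hG : ProP p G) (g : G) (a b : ℤ_[p]) :
    pw hG g (a * b) = pw hG (pw hG g a) b := by
  apply eq_of_forall_mk
  intro N hN hNo
  obtain ⟨k, hk⟩ := exists_pow_mem hG N hN hNo
  obtain ⟨m, hm⟩ := exists_int_approx a k
  obtain ⟨n, hn⟩ := exists_int_approx b k
  have h : (p : ℤ_[p]) ^ k ∣ a * b - ((m * n : ℤ) : ℤ_[p]) := by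
    have := dvd_add (hm.mul_right b) (hn.mul_left (m : ℤ_[p]))
    convert this using 1
    push_cast; ring
  rw [pw_spec hG g _ hN hNo (hk g) h, pw_spec hG _ _ hN hNo (hk _) hn, QuotientGroup.mk_zpow,
    QuotientGroup.mk_zpow, pw_spec hG g _ hN hNo (hk g) hm, QuotientGroup.mk_zpow, zpow_mul]

theorem pw_pow (hG : ProP p G) (g : G) (a : ℤ_[p]) (n : ℕ) :
    pw hG g a ^ n = pw hG g (a * n) := by
  rw [pw_mul, pw_natCast]

theorem pw_zpow (hG : ProP p G) (g : G) (a : ℤ_[p]) (n : ℤ) :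
    pw hG g a ^ n = pw hG g (a * n) := by
  rw [pw_mul, pw_intCast]

theorem pow_pw (hG : ProP p G) (g : G) (n : ℕ) (a : ℤ_[p]) :
    pw hG (g ^ n) a = pw hG g (n * a) := by
  rw [pw_mul, pw_natCast]

theorem zpow_pw (hG : ProP p G) (g : G) (n : ℤ) (a : ℤ_[p]) :
    pw hG (g ^ n) a = pw hG g (n * a) := by
  rw [pw_mul, pw_intCast]

theorem continuous_pw₂ (hG : ProP p G) : Continuous fun q : G × ℤ_[p] => pw hG q.1 q.2 := by
  apply continuous_of_forall_mk
  rintro ⟨g, a⟩ N hN hNo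
  obtain ⟨k, hk⟩ := exists_pow_mem hG N hN hNo
  obtain ⟨m, hm⟩ := exists_int_approx a k
  have h1 : ∀ᶠ x : G in 𝓝 g, (g : G ⧸ N) = (x : G ⧸ N) := (isOpen_fiber_mk hNo g).mem_nhds rfl
  have h2 : ∀ᶠ b in 𝓝 a, (p : ℤ_[p]) ^ k ∣ b - a := by
    have hpos : (0 : ℝ) < (p : ℝ) ^ (-(k : ℤ)) := zpow_pos (by exact_mod_cast hp.out.pos) _
    filter_upwards [Metric.closedBall_mem_nhds a hpos] with b hb
    rw [Metric.mem_closedBall, dist_eq_norm] at hb
    exact Ideal.mem_span_singleton.mp ((PadicInt.norm_le_pow_iff_mem_span_pow _ _).mp hb)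
  rw [nhds_prod_eq]
  filter_upwards [h1.prod_mk h2] with q hq
  have h3 : (p : ℤ_[p]) ^ k ∣ q.2 - m := by
    have := dvd_add hq.2 hm
    convert this using 1
    ring
  rw [pw_spec hG g _ hN hNo (hk g) hm, pw_spec hG q.1 _ hN hNo (hk _) h3, QuotientGroup.mk_zpow,
    QuotientGroup.mk_zpow, hq.1]

theorem continuous_pw (hG : ProP p G) (g : G) : Continuous (pw hG g) :=
  (continuous_pw₂ hG).comp (continuous_const.prodMk continuous_id)

theorem continuous_pw_left (hG : ProP p G) (a : ℤ_[p]) : Continuous fun g : G => pw hG g a :=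
  (continuous_pw₂ hG).comp (continuous_id.prodMk continuous_const)

/-- Density principle: a closed condition on the exponent which holds for the integers. -/
theorem padic_ind {P : ℤ_[p] → Prop} (hP : IsClosed {a | P a}) (h : ∀ n : ℤ, P n) (a : ℤ_[p]) :
    P a :=
  (PadicInt.denseRange_intCast (p := p)).induction_on a hP h

theorem pw_mem_of_zpow (hG : ProP p G) {W : Set G} (hW : IsClosed W) {g : G}
    (hg : ∀ n : ℤ, g ^ n ∈ W) (a : ℤ_[p]) : pw hG g a ∈ W :=
  padic_ind (P := fun a => pw hG g a ∈ W) (hW.preimage (continuous_pw hG g))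
    (fun n => by rw [pw_intCast]; exact hg n) a

theorem pw_mem (hG : ProP p G) {H : Subgroup G} (hH : IsClosed (H : Set G)) {g : G} (hg : g ∈ H)
    (a : ℤ_[p]) : pw hG g a ∈ H :=
  pw_mem_of_zpow hG hH (fun n => H.zpow_mem hg n) a

theorem mem_closure_zpowers_iff (hG : ProP p G) (g x : G) :
    x ∈ (Subgroup.zpowers g).topologicalClosure ↔ ∃ a : ℤ_[p], x = pw hG g a := by
  constructor
  · intro hx
    have hc : IsClosed (Set.range (pw hG g)) := (isCompact_range (continuous_pw hG g)).isClosed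
    have hsub : (Subgroup.zpowers g : Set G) ⊆ Set.range (pw hG g) := by
      rintro _ ⟨n, rfl⟩
      exact ⟨n, pw_intCast hG g n⟩
    obtain ⟨a, ha⟩ := closure_minimal hsub hc hx
    exact ⟨a, ha.symm⟩
  · rintro ⟨a, rfl⟩
    exact pw_mem hG (Subgroup.isClosed_topologicalClosure _)
      (Subgroup.le_topologicalClosure _ (Subgroup.mem_zpowers g)) a

theorem pw_conj (hG : ProP p G) (x g : G) (a : ℤ_[p]) :
    pw hG (x * g * x⁻¹) a = x * pw hG g a * x⁻¹ :=
  padic_ind (P := fun a => pw hG (x * g * x⁻¹) a = x * pw hG g a * x⁻¹)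
    (isClosed_eq (continuous_pw hG _)
      ((continuous_const.mul (continuous_pw hG g)).mul continuous_const))
    (fun n => by rw [pw_intCast, pw_intCast, conj_zpow]) a

theorem mul_pw (hG : ProP p G) {g h : G} (hc : Commute g h) (a : ℤ_[p]) :
    pw hG (g * h) a = pw hG g a * pw hG h a :=
  padic_ind (P := fun a => pw hG (g * h) a = pw hG g a * pw hG h a)
    (isClosed_eq (continuous_pw hG _) ((continuous_pw hG g).mul (continuous_pw hG h)))
    (fun n => by rw [pw_intCast, pw_intCast, pw_intCast, hc.mul_zpow]) a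

@[simp] theorem one_pw (hG : ProP p G) (a : ℤ_[p]) : pw hG (1 : G) a = 1 :=
  padic_ind (P := fun a => pw hG (1 : G) a = 1)
    (isClosed_eq (continuous_pw hG _) continuous_const)
    (fun n => by rw [pw_intCast, one_zpow]) a

theorem inv_pw (hG : ProP p G) (g : G) (a : ℤ_[p]) : pw hG g⁻¹ a = (pw hG g a)⁻¹ :=
  padic_ind (P := fun a => pw hG g⁻¹ a = (pw hG g a)⁻¹)
    (isClosed_eq (continuous_pw hG _) (continuous_pw hG g).inv)
    (fun n => by rw [pw_intCast, pw_intCast, inv_zpow]) a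

theorem commute_pw_left (hG : ProP p G) {g h : G} (hc : Commute g h) (a : ℤ_[p]) :
    Commute (pw hG g a) h :=
  padic_ind (P := fun a => pw hG g a * h = h * pw hG g a)
    (isClosed_eq ((continuous_pw hG g).mul continuous_const)
      (continuous_const.mul (continuous_pw hG g)))
    (fun n => by rw [pw_intCast]; exact (hc.zpow_left n).eq) a

theorem commute_pw (hG : ProP p G) {g h : G} (hc : Commute g h) (a b : ℤ_[p]) :
    Commute (pw hG g a) (pw hG h b) :=
  commute_pw_left hG (commute_pw_left hG hc.symm b).symm a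

/-- A closed set which is stable under conjugation by g and by its inverse is stable under
conjugation by every p-adic power. -/
theorem conj_pw_mem (hG : ProP p G) {W : Set G} (hW : IsClosed W) {g w : G}
    (h : ∀ n : ℤ, g ^ n * w * (g ^ n)⁻¹ ∈ W) (a : ℤ_[p]) :
    pw hG g a * w * (pw hG g a)⁻¹ ∈ W :=
  padic_ind (P := fun a => pw hG g a * w * (pw hG g a)⁻¹ ∈ W)
    (hW.preimage (((continuous_pw hG g).mul continuous_const).mul (continuous_pw hG g).inv))
    (fun n => by rw [pw_intCast]; exact h n) a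

end pw

end Pool.Agent.Lib.MP_2dbb30_al.TF
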