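import Mathlib

set_option autoImplicit false

namespace Pool.Agent.Lib.MP_2dbb30_al.TF

/-- `L` is self-similar of index `d`: it has a faithful action on the words over an alphabet with
`d` letters by automorphisms of the rooted tree (the root is fixed, and a child of `w` goes to a
child of the image of `w`), which is self-similar and transitive on the words of length one. -/
def SelfSimilar (d : ℕ) (L : Type*) [Group L] : Prop :=
  ∃ ρ : L →* Equiv.Perm (List (Fin d)),
    Function.Injective ρ ∧ (∀ g, ρ g [] = []) ∧
    (∀ g w x, ∃ y, ρ g (w ++ [x]) = ρ g w ++ [y]) ∧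
    (∀ g x, ∃ y h, ∀ w, ρ g (x :: w) = y :: ρ h w) ∧
    (∀ x y : Fin d, ∃ g, ρ g [x] = [y])

end Pool.Agent.Lib.MP_2dbb30_al.TF
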