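import Mathlib

set_option autoImplicit false
set_option linter.unusedSectionVars false

open Topology Filter Polynomial

namespace Pool.Agent.Lib.MP_2dbb30_al.TF

/-- the cyclic shift of a basis, twisted by `ϖ` -/
theorem shift_basis {R F : Type*} [CommRing R] [IsDomain R] [AddCommGroup F] [Module R F] {n : ℕ}
    (e : Module.Basis (Fin (n + 1)) R F) {ϖ : R} (hϖ : ϖ ≠ 0) :
    ∃ π : Module.End R F, Function.Injective π ∧ (∀ v, v ∈ LinearMap.range π ↔ ϖ ∣ e.repr v 0) ∧
      ∀ v, (π ^ (n + 1)) v = ϖ • v := by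
  let π : Module.End R F :=
    e.constr R (Fin.snoc (α := fun _ => F) (fun j : Fin n => e j.succ) (ϖ • e 0))
  have h1 : ∀ j : Fin n, π (e j.castSucc) = e j.succ := fun j => by simp [π]
  have h2 : π (e (Fin.last n)) = ϖ • e 0 := by simp [π]
  have c0 : ∀ v, e.repr (π v) 0 = ϖ * e.repr v (Fin.last n) := by
    intro v
    have : (e.coord 0) ∘ₗ π = ϖ • e.coord (Fin.last n) := by
      apply e.ext
      intro i
      refine Fin.lastCases ?_ (fun j => ?_) i
      · simp [h2]
      · simp [h1, (Fin.castSucc_lt_last j).ne]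
    simpa using LinearMap.congr_fun this v
  have c1 : ∀ v (j : Fin n), e.repr (π v) j.succ = e.repr v j.castSucc := by
    intro v j
    have : (e.coord j.succ) ∘ₗ π = e.coord j.castSucc := by
      apply e.ext
      intro i
      refine Fin.lastCases ?_ (fun k => ?_) i
      · simp [h2]
      · simp [h1, Finsupp.single_apply]
    simpa using LinearMap.congr_fun this v
  have h3 : ∀ (k : ℕ) (hk : k < n + 1), (π ^ k) (e 0) = e ⟨k, hk⟩ := by
    intro k
    induction k with
    | zero => intro _; rfl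
    | succ k ih =>
      intro hk
      rw [pow_succ', Module.End.mul_apply, ih (by omega)]
      exact h1 ⟨k, by omega⟩
  have h4 : (π ^ (n + 1)) (e 0) = ϖ • e 0 := by
    rw [pow_succ', Module.End.mul_apply, h3 n (by omega)]
    exact h2
  refine ⟨π, ?_, fun v => ⟨?_, ?_⟩, fun v => ?_⟩
  · rw [injective_iff_map_eq_zero]
    intro v hv
    apply e.repr.injective
    ext i
    refine Fin.lastCases ?_ (fun j => ?_) i
    · have := c0 v
      rw [hv] at this
      simpa [hϖ] using this.symm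
    · have := c1 v j
      rw [hv] at this
      simpa using this.symm
  · rintro ⟨w, rfl⟩
    exact ⟨_, c0 w⟩
  · rintro ⟨c, hc⟩
    refine ⟨e.equivFun.symm (Fin.snoc (α := fun _ => R) (fun j : Fin n => e.repr v j.succ) c), ?_⟩
    apply e.repr.injective
    ext i
    refine Fin.cases ?_ (fun j => ?_) i
    · rw [c0, hc, ← e.equivFun_apply, LinearEquiv.apply_symm_apply, Fin.snoc_last]
    · rw [c1, ← e.equivFun_apply, LinearEquiv.apply_symm_apply, Fin.snoc_castSucc]
  · have : π ^ (n + 1) = ϖ • (1 : Module.End R F) := by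
      apply e.ext
      intro i
      have h5 : e i = (π ^ (i : ℕ)) (e 0) := (h3 i i.2).symm
      rw [LinearMap.smul_apply, Module.End.one_apply, h5, ← Module.End.mul_apply, ← pow_add,
        add_comm, pow_add, Module.End.mul_apply, h4, map_smul]
    rw [this]
    rfl

theorem exists_shift_gen {R F : Type*} [CommRing R] [IsDomain R] [IsPrincipalIdealRing R]
    [AddCommGroup F] [Module R F] [Module.Finite R F] [Nontrivial F]
    (htf : ∀ (a : R) (v : F), a • v = 0 → a = 0 ∨ v = 0) {ϖ : R} (hϖ : ϖ ≠ 0) :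
    ∃ π : Module.End R F, Function.Injective π ∧
      (LinearMap.range π).toAddSubgroup.index = Nat.card (R ⧸ Ideal.span {ϖ}) ∧
      ∀ v, (∀ n : ℕ, v ∈ LinearMap.range (π ^ n)) → ∀ n : ℕ, ∃ w, v = ϖ ^ n • w := by
  have : Module.IsTorsionFree R F := Module.IsTorsionFree.of_smul_eq_zero htf
  obtain ⟨n, hn⟩ := Nat.exists_eq_succ_of_ne_zero (Module.finrank_pos (R := R) (M := F)).ne'
  let e : Module.Basis (Fin (n + 1)) R F := Module.finBasisOfFinrankEq R F hn
  obtain ⟨π, h1, h2, h3⟩ := shift_basis e hϖ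
  refine ⟨π, h1, ?_, fun v hv k => ?_⟩
  · let φ : F →+ R ⧸ Ideal.span {ϖ} :=
      (Ideal.Quotient.mk (Ideal.span {ϖ})).toAddMonoidHom.comp (e.coord 0).toAddMonoidHom
    have hker : (LinearMap.range π).toAddSubgroup = φ.ker := by
      ext v
      rw [Submodule.mem_toAddSubgroup, h2, AddMonoidHom.mem_ker]
      change _ ↔ Ideal.Quotient.mk (Ideal.span {ϖ}) (e.repr v 0) = 0
      rw [Ideal.Quotient.eq_zero_iff_mem, Ideal.mem_span_singleton]
    have hsurj : Function.Surjective φ := by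
      intro x
      obtain ⟨c, rfl⟩ := Ideal.Quotient.mk_surjective x
      refine ⟨c • e 0, ?_⟩
      change Ideal.Quotient.mk (Ideal.span {ϖ}) (e.repr (c • e 0) 0) = _
      simp
    rw [hker, AddSubgroup.index_ker, AddMonoidHom.range_eq_top.mpr hsurj, AddSubgroup.card_top]
  · obtain ⟨w, hw⟩ := hv ((n + 1) * k)
    refine ⟨w, ?_⟩
    rw [← hw, pow_mul]
    clear hw
    induction k with
    | zero => simp
    | succ k ih => rw [pow_succ', Module.End.mul_apply, ih, h3, smul_smul, ← pow_succ']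

variable {p : ℕ} [Fact p.Prime] {L : Type*} [AddCommGroup L] [Module ℤ_[p] L]
  [Module.Finite ℤ_[p] L]

/-- Krull intersection -/
theorem eq_zero_of_forall_pow {v : L} (h : ∀ n : ℕ, ∃ w : L, v = (p : ℤ_[p]) ^ n • w) : v = 0 := by
  have hI : Ideal.span {(p : ℤ_[p])} ≠ ⊤ := by
    rw [← PadicInt.maximalIdeal_eq_span_p]
    exact (IsLocalRing.maximalIdeal.isMaximal _).ne_top
  have h0 := Ideal.iInf_pow_smul_eq_bot_of_isLocalRing (M := L) _ hI
  rw [← Submodule.mem_bot ℤ_[p], ← h0, Submodule.mem_iInf]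
  intro n
  obtain ⟨w, rfl⟩ := h n
  exact Submodule.smul_mem_smul (Ideal.pow_mem_pow (Ideal.mem_span_singleton_self _) n)
    Submodule.mem_top

theorem card_quot_p : Nat.card (ℤ_[p] ⧸ Ideal.span {(p : ℤ_[p])}) = p := by
  rw [← PadicInt.maximalIdeal_eq_span_p]
  exact (Nat.card_congr (PadicInt.residueField (p := p)).toEquiv).trans (Nat.card_zmod p)

theorem exists_shift_p [Nontrivial L] (htf : ∀ (a : ℤ_[p]) (v : L), a • v = 0 → a = 0 ∨ v = 0) :
    ∃ π : Module.End ℤ_[p] L, Function.Injective π ∧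
      (LinearMap.range π).toAddSubgroup.index = p ∧
      ∀ v, (∀ n : ℕ, v ∈ LinearMap.range (π ^ n)) → v = 0 := by
  obtain ⟨π, h1, h2, h3⟩ := exists_shift_gen htf
    (ϖ := (p : ℤ_[p])) (by exact_mod_cast (Fact.out : p.Prime).ne_zero)
  exact ⟨π, h1, h2.trans card_quot_p, fun v hv => eq_zero_of_forall_pow (h3 v hv)⟩

theorem exists_shift_abs [Nontrivial L] (htf : ∀ (a : ℤ_[p]) (v : L), a • v = 0 → a = 0 ∨ v = 0)
    {R : Type*} [CommRing R] [Algebra ℤ_[p] R] [Module R L] [IsScalarTower ℤ_[p] R L]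
    [Module.Finite ℤ_[p] R] (hf : ∀ x : R, (∀ v : L, x • v = 0) → x = 0) (τ ρ : R)
    (hdec : ∀ x : R, ∃ (c : ℤ_[p]) (x' : R), x = algebraMap ℤ_[p] R c + τ * x')
    (hp : algebraMap ℤ_[p] R p = τ * ρ)
    (hnil : ∃ N : ℕ, ∀ v : L, ∃ w : L, τ ^ N • v = (p : ℤ_[p]) • w) :
    ∃ π : Module.End R L, Function.Injective π ∧
      (LinearMap.range π).toAddSubgroup.index = p ∧
      ∀ v, (∀ n : ℕ, v ∈ LinearMap.range (π ^ n)) → v = 0 := by
  have hp0 : (p : ℤ_[p]) ≠ 0 := by exact_mod_cast (Fact.out : p.Prime).ne_zero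
  obtain ⟨N, hN⟩ := hnil
  have : Nontrivial R := Module.nontrivial R L
  have : Module.Finite R L := Module.Finite.of_restrictScalars_finite ℤ_[p] R L
  have : IsNoetherianRing R := IsNoetherianRing.of_finite ℤ_[p] R
  have hτ : ∀ v : L, τ • v = 0 → v = 0 := by
    intro v hv
    have h1 : (p : ℤ_[p]) • v = 0 := by
      rw [← algebraMap_smul R, hp, mul_comm, mul_smul, hv, smul_zero]
    exact (htf _ _ h1).resolve_left hp0
  have hmax : ∀ 𝔪 : Ideal R, 𝔪.IsMaximal → τ ∈ 𝔪 := by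
    intro 𝔪 h𝔪
    have h1 : algebraMap ℤ_[p] R p ∈ 𝔪 := by
      have h2 := Ideal.isMaximal_comap_of_isIntegral_of_isMaximal (R := ℤ_[p]) 𝔪
      have h3 : (p : ℤ_[p]) ∈ 𝔪.comap (algebraMap ℤ_[p] R) := by
        rw [IsLocalRing.eq_maximalIdeal h2, PadicInt.maximalIdeal_eq_span_p]
        exact Ideal.mem_span_singleton_self _
      exact h3
    by_contra hn
    obtain ⟨s, m, hm, hsm⟩ := h𝔪.exists_inv (fun h => hn (h𝔪.isPrime.mem_of_pow_mem N h))
    have hle : (⊤ : Submodule R L) ≤ 𝔪 • ⊤ := by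
      intro v _
      obtain ⟨w, hw⟩ := hN v
      have h4 : v = algebraMap ℤ_[p] R p • (s • w) + m • v := by
        rw [smul_comm, algebraMap_smul, ← hw, smul_smul, ← add_smul, hsm, one_smul]
      rw [h4]
      exact add_mem (Submodule.smul_mem_smul h1 Submodule.mem_top)
        (Submodule.smul_mem_smul hm Submodule.mem_top)
    obtain ⟨r, hr1, hr0⟩ := Submodule.exists_sub_one_mem_and_smul_eq_zero_of_fg_of_le_smul 𝔪 ⊤
      Module.Finite.fg_top hle
    have h5 : r = 0 := hf r fun v => hr0 v Submodule.mem_top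
    rw [h5, zero_sub, neg_mem_iff] at hr1
    exact h𝔪.ne_top ((Ideal.eq_top_iff_one _).mpr hr1)
  have hunit : ∀ x : R, ¬ IsUnit x → τ ∣ x := by
    intro x hx
    obtain ⟨c, x', rfl⟩ := hdec x
    by_cases hc : IsUnit c
    · obtain ⟨𝔪, h𝔪, hx𝔪⟩ := exists_max_ideal_of_mem_nonunits hx
      have h1 : algebraMap ℤ_[p] R c ∈ 𝔪 := by
        have := 𝔪.sub_mem hx𝔪 (𝔪.mul_mem_right x' (hmax 𝔪 h𝔪))
        simpa using this
      exact absurd (𝔪.eq_top_of_isUnit_mem h1 (hc.map _)) h𝔪.ne_top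
    · have h1 : c ∈ Ideal.span {(p : ℤ_[p])} := by
        rw [← PadicInt.maximalIdeal_eq_span_p]; exact hc
      obtain ⟨d, rfl⟩ := Ideal.mem_span_singleton.mp h1
      exact ⟨ρ * algebraMap ℤ_[p] R d + x', by rw [map_mul, hp]; ring⟩
  have hτu : ¬ IsUnit τ := by
    intro h
    obtain ⟨𝔪, h𝔪⟩ := Ideal.exists_maximal R
    exact h𝔪.ne_top (𝔪.eq_top_of_isUnit_mem (hmax 𝔪 h𝔪) h)
  have hpow : ∀ (k : ℕ) (v : L), ∃ w : L, τ ^ (N * k) • v = (p : ℤ_[p]) ^ k • w := by
    intro k
    induction k with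
    | zero => exact fun v => ⟨v, by simp⟩
    | succ k ih =>
      intro v
      obtain ⟨w, hw⟩ := ih v
      obtain ⟨w', hw'⟩ := hN w
      refine ⟨w', ?_⟩
      rw [mul_add, mul_one, add_comm, pow_add, mul_smul, hw, smul_comm, hw', smul_smul, ← pow_succ]
  have hkr : ∀ v : L, (∀ n : ℕ, ∃ w, v = τ ^ n • w) → v = 0 := by
    intro v hv
    refine eq_zero_of_forall_pow (p := p) fun k => ?_
    obtain ⟨w, rfl⟩ := hv (N * k)
    exact hpow k w
  have htf' : ∀ (a : R) (v : L), a • v = 0 → a = 0 ∨ v = 0 := by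
    intro a v hav
    by_cases hv : v = 0
    · exact Or.inr hv
    left
    have key : ∀ k : ℕ, ∃ b : R, a = τ ^ k * b ∧ b • v = 0 := by
      intro k
      induction k with
      | zero => exact ⟨a, by simp, hav⟩
      | succ k ih =>
        obtain ⟨b, hb, hbv⟩ := ih
        have hbu : ¬ IsUnit b := fun h => hv ((h.smul_eq_zero).mp hbv)
        obtain ⟨b', rfl⟩ := hunit b hbu
        exact ⟨b', by rw [hb]; ring, hτ _ (by rw [← mul_smul, hbv])⟩
    refine hf a fun u => hkr _ fun n => ?_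
    obtain ⟨b, rfl, -⟩ := key n
    exact ⟨b • u, mul_smul _ _ _⟩
  have : NoZeroDivisors R := ⟨fun {a b} hab => by
    by_cases hb : b = 0
    · exact Or.inr hb
    · left
      by_contra ha
      refine hb (hf b fun v => (htf' a _ ?_).resolve_left ha)
      rw [← mul_smul, hab, zero_smul]⟩
  have : IsDomain R := NoZeroDivisors.to_isDomain R
  have : IsLocalRing R := IsLocalRing.of_nonunits_add fun a b ha hb hab =>
    hτu (isUnit_of_dvd_unit (dvd_add (hunit a ha) (hunit b hb)) hab)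
  have hm : IsLocalRing.maximalIdeal R = Ideal.span {τ} := by
    apply le_antisymm
    · exact fun x hx => Ideal.mem_span_singleton.mpr (hunit x hx)
    · exact (Ideal.span_singleton_le_iff_mem _).mpr hτu
  have : IsPrincipalIdealRing R :=
    ((tfae_of_isNoetherianRing_of_isLocalRing_of_isDomain R).out 4 0).mp
      (show (IsLocalRing.maximalIdeal R).IsPrincipal from ⟨τ, hm⟩)
  have hτ0 : τ ≠ 0 := by
    rintro rfl
    obtain ⟨v, hv⟩ := exists_ne (0 : L)
    exact hv (hτ v (zero_smul _ _))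
  obtain ⟨π, h1, h2, h3⟩ := exists_shift_gen htf' hτ0
  refine ⟨π, h1, h2.trans ?_, fun v hv => hkr v (h3 v hv)⟩
  let φ : ℤ_[p] →+* R ⧸ Ideal.span {τ} := (Ideal.Quotient.mk _).comp (algebraMap ℤ_[p] R)
  have hsurj : Function.Surjective φ := by
    intro x
    obtain ⟨y, rfl⟩ := Ideal.Quotient.mk_surjective x
    obtain ⟨c, x', rfl⟩ := hdec y
    refine ⟨c, ?_⟩
    change Ideal.Quotient.mk _ _ = _
    rw [Ideal.Quotient.eq, Ideal.mem_span_singleton]
    exact ⟨-x', by ring⟩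
  have hker : RingHom.ker φ = Ideal.span {(p : ℤ_[p])} := by
    rw [← PadicInt.maximalIdeal_eq_span_p]
    symm
    apply (IsLocalRing.maximalIdeal.isMaximal ℤ_[p]).eq_of_le
    · intro h
      have h4 : φ 1 = 0 := (Ideal.eq_top_iff_one _).mp h
      rw [map_one, ← map_one (Ideal.Quotient.mk (Ideal.span {τ})), Ideal.Quotient.eq_zero_iff_mem,
        Ideal.mem_span_singleton] at h4
      exact hτu (isUnit_of_dvd_one h4)
    · rw [PadicInt.maximalIdeal_eq_span_p, Ideal.span_singleton_le_iff_mem, RingHom.mem_ker]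
      change Ideal.Quotient.mk _ _ = 0
      rw [Ideal.Quotient.eq_zero_iff_mem, Ideal.mem_span_singleton]
      exact ⟨ρ, hp⟩
  rw [← Nat.card_congr (RingHom.quotientKerEquivOfSurjective hsurj).toEquiv, hker, card_quot_p]

/-- `ℤ_[p][t]` is a discrete valuation ring with uniformizer `t`, `L` is free over it -/
theorem exists_shift_t [Nontrivial L] (htf : ∀ (a : ℤ_[p]) (v : L), a • v = 0 → a = 0 ∨ v = 0)
    (t : Module.End ℤ_[p] L) (r : ℤ_[p][X]) (hr : ∀ v, (p : ℤ_[p]) • v = t (aeval t r v))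
    (hnil : ∃ N : ℕ, ∀ v, ∃ w, (t ^ N) v = (p : ℤ_[p]) • w) :
    ∃ π : Module.End ℤ_[p] L, Function.Injective π ∧ π * t = t * π ∧
      (LinearMap.range π).toAddSubgroup.index = p ∧
      ∀ v, (∀ n : ℕ, v ∈ LinearMap.range (π ^ n)) → v = 0 := by
  have : Module.IsTorsionFree ℤ_[p] L := Module.IsTorsionFree.of_smul_eq_zero htf
  let R := Algebra.adjoin ℤ_[p] {t}
  have hmem : ∀ f : ℤ_[p][X], aeval t f ∈ R := fun f => Polynomial.aeval_mem_adjoin_singleton _ _
  let τ : R := ⟨t, Algebra.self_mem_adjoin_singleton _ _⟩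
  have : Module.Finite ℤ_[p] R :=
    Module.Finite.of_injective R.val.toLinearMap Subtype.val_injective
  obtain ⟨π, h1, h2, h3⟩ := exists_shift_abs htf (R := R)
    (fun x hx => Subtype.ext (LinearMap.ext hx)) τ ⟨aeval t r, hmem r⟩ (fun x => by
      obtain ⟨f, hf⟩ := Algebra.adjoin_mem_exists_aeval _ _ x.2
      refine ⟨f.coeff 0, ⟨aeval t f.divX, hmem _⟩, Subtype.ext ?_⟩
      rw [← hf]
      conv_lhs => rw [← X_mul_divX_add f]
      rw [map_add, map_mul, aeval_X, aeval_C, add_comm]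
      rfl)
    (Subtype.ext (LinearMap.ext fun v => by
      change algebraMap ℤ_[p] (Module.End ℤ_[p] L) p v = t (aeval t r v)
      rw [Module.algebraMap_end_apply, hr]))
    (by
      obtain ⟨N, hN⟩ := hnil
      exact ⟨N, hN⟩)
  refine ⟨π.restrictScalars ℤ_[p], h1, LinearMap.ext fun v => π.map_smul τ v, h2, fun v hv => ?_⟩
  refine h3 v fun n => ?_
  obtain ⟨w, hw⟩ := hv n
  refine ⟨w, ?_⟩
  rw [← hw, Module.End.pow_apply, Module.End.pow_apply]
  rfl

theorem eq_zero_of_aeval (htf : ∀ (a : ℤ_[p]) (v : L), a • v = 0 → a = 0 ∨ v = 0)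
    (S : Module.End ℤ_[p] L) {k : L} (hk : k ≠ 0) {Φ f : ℤ_[p][X]} (hm : Φ.Monic)
    (hi : Irreducible Φ) (hΦ : aeval S Φ k = 0) (hf : aeval S f k = 0)
    (hd : f.degree < Φ.degree) : f = 0 := by
  by_contra h0
  have : IsDomain (AdjoinRoot Φ) := AdjoinRoot.isDomain_of_prime hi.prime
  have : Module.Finite ℤ_[p] (AdjoinRoot Φ) := hm.finite_adjoinRoot
  have h1 : AdjoinRoot.mk Φ f ≠ 0 := AdjoinRoot.mk_ne_zero_of_degree_lt hm h0 hd
  have h2 := Ideal.comap_ne_bot_of_integral_mem (R := ℤ_[p]) h1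
    (Ideal.mem_span_singleton_self _) (Algebra.IsIntegral.isIntegral _)
  obtain ⟨c, hc, hc0⟩ := (Submodule.ne_bot_iff _).mp h2
  obtain ⟨b, hb⟩ := Ideal.mem_span_singleton'.mp (Ideal.mem_comap.mp hc)
  obtain ⟨g, rfl⟩ := AdjoinRoot.mk_surjective b
  rw [← map_mul, AdjoinRoot.algebraMap_eq, ← AdjoinRoot.mk_C, AdjoinRoot.mk_eq_mk] at hb
  obtain ⟨q, hq⟩ := hb
  have h3 : C c = g * f - q * Φ := by rw [mul_comm q, ← hq]; ring
  have h4 : c • k = 0 := by
    have h5 : aeval S (C c) k = 0 := by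
      rw [h3, map_sub, map_mul, map_mul, LinearMap.sub_apply, Module.End.mul_apply,
        Module.End.mul_apply, hf, hΦ, map_zero, map_zero, sub_zero]
    rwa [aeval_C, Module.algebraMap_end_apply] at h5
  rcases htf _ _ h4 with h | h
  · exact hc0 h
  · exact hk h

theorem irreducible_cyclo : Irreducible (cyclotomic p ℤ_[p]) := by
  have hp : p.Prime := Fact.out
  have hE := cyclotomic_comp_X_add_one_isEisensteinAt (p := p)
  have hmap : (cyclotomic p ℤ_[p]).comp (X + 1) =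
      ((cyclotomic p ℤ).comp (X + 1)).map (Int.castRingHom ℤ_[p]) := by
    rw [Polynomial.map_comp, map_cyclotomic_int]
    simp
  have hmon : ((cyclotomic p ℤ).comp (X + 1)).Monic := by
    have := (cyclotomic.monic p ℤ).comp_X_add_C 1
    simpa using this
  have hmon' : ((cyclotomic p ℤ_[p]).comp (X + 1)).Monic := hmap ▸ hmon.map _
  have hdeg : ((cyclotomic p ℤ_[p]).comp (X + 1)).natDegree =
      ((cyclotomic p ℤ).comp (X + 1)).natDegree := by rw [hmap, hmon.natDegree_map]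
  have hP : (Ideal.span {(p : ℤ_[p])}).IsMaximal := by
    rw [← PadicInt.maximalIdeal_eq_span_p]; exact IsLocalRing.maximalIdeal.isMaximal _
  have hE' : ((cyclotomic p ℤ_[p]).comp (X + 1)).IsEisensteinAt (Ideal.span {(p : ℤ_[p])}) := by
    refine hmon'.isEisensteinAt_of_mem_of_notMem hP.ne_top (fun {n} hn => ?_) ?_
    · rw [hdeg] at hn
      obtain ⟨c, hc⟩ := Ideal.mem_span_singleton.mp (hE.mem hn)
      rw [hmap, coeff_map, hc, Ideal.mem_span_singleton]
      simp
    · rw [coeff_zero_eq_eval_zero, eval_comp, eval_add, eval_X, eval_one, zero_add,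
        eval_one_cyclotomic_prime, Ideal.span_singleton_pow, Ideal.mem_span_singleton]
      rintro ⟨c, hc⟩
      have h0 : (p : ℤ_[p]) ≠ 0 := by exact_mod_cast hp.ne_zero
      have h1 : (1 : ℤ_[p]) = p * c := mul_left_cancel₀ h0 (by rw [mul_one, ← mul_assoc, ← sq, ← hc])
      exact PadicInt.irreducible_p.not_isUnit (isUnit_of_dvd_one ⟨c, h1⟩)
  have hirr := hE'.irreducible hP.isPrime hmon'.isPrimitive (by
    have h1 : (X + 1 : ℤ_[p][X]).natDegree = 1 := by
      have := natDegree_X_add_C (1 : ℤ_[p])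
      simpa using this
    rw [natDegree_comp, h1, mul_one, natDegree_cyclotomic]
    exact Nat.totient_pos.mpr hp.pos)
  have h2 : (cyclotomic p ℤ_[p]).comp (X + 1) = taylorEquiv (1 : ℤ_[p]) (cyclotomic p ℤ_[p]) := by
    change _ = taylor (1 : ℤ_[p]) (cyclotomic p ℤ_[p])
    rw [taylor_apply, C_1]
  rw [h2] at hirr
  exact (MulEquiv.irreducible_iff (taylorEquiv (1 : ℤ_[p]))).mp hirr

/-- the cyclotomic polynomial is irreducible over the `p`-adics -/
theorem indep_cyclo (htf : ∀ (a : ℤ_[p]) (v : L), a • v = 0 → a = 0 ∨ v = 0)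
    (S : Module.End ℤ_[p] L) {k : L} (hk : k ≠ 0) (hN : ∑ i ∈ Finset.range p, (S ^ i) k = 0) :
    LinearIndependent ℤ_[p] fun i : Fin (p - 1) => (S ^ (i : ℕ)) k := by
  have hp : p.Prime := Fact.out
  rw [Fintype.linearIndependent_iff]
  intro c hc i
  have h0 : (∑ j : Fin (p - 1), monomial (j : ℕ) (c j) : ℤ_[p][X]) = 0 := by
    refine eq_zero_of_aeval htf S hk (cyclotomic.monic p ℤ_[p]) irreducible_cyclo ?_ ?_ ?_
    · rw [cyclotomic_prime, map_sum, LinearMap.sum_apply]
      simpa using hN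
    · rw [map_sum, LinearMap.sum_apply, ← hc]
      refine Finset.sum_congr rfl fun j _ => ?_
      rw [aeval_monomial, Module.End.mul_apply, Module.algebraMap_end_apply]
    · rw [degree_cyclotomic, Nat.totient_prime hp]
      have := degree_sum_fin_lt c
      simpa only [C_mul_X_pow_eq_monomial] using this
  have h1 := congrArg (fun f : ℤ_[p][X] => f.coeff i) h0
  simp only [finsetSum_coeff, coeff_monomial, coeff_zero, Fin.val_inj] at h1
  simpa using h1

/-- a vector with the same annihilator as the whole module -/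
theorem exists_faithful (htf : ∀ (a : ℤ_[p]) (v : L), a • v = 0 → a = 0 ∨ v = 0)
    (S : Module.End ℤ_[p] L) : ∃ a : L, ∀ f : ℤ_[p][X], aeval S f a = 0 → aeval S f = 0 := by
  have : Module.IsTorsionFree ℤ_[p] L := Module.IsTorsionFree.of_smul_eq_zero htf
  let S' : Module.End ℚ_[p] (TensorProduct ℤ_[p] ℚ_[p] L) := S.baseChange ℚ_[p]
  let j : L →ₗ[ℤ_[p]] TensorProduct ℤ_[p] ℚ_[p] L := TensorProduct.mk ℤ_[p] ℚ_[p] L 1
  have hj : IsLocalizedModule (nonZeroDivisors ℤ_[p]) j :=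
    (isLocalizedModule_iff_isBaseChange _ ℚ_[p] _).mpr (TensorProduct.isBaseChange _ _ _)
  have hinj : ∀ v, j v = 0 → v = 0 := by
    intro v hv
    obtain ⟨c, hc⟩ := (IsLocalizedModule.eq_zero_iff (nonZeroDivisors ℤ_[p]) j).mp hv
    exact (htf _ _ hc).resolve_left (nonZeroDivisors.coe_ne_zero c)
  have hcomm : ∀ (f : ℤ_[p][X]) (v : L),
      aeval S' (f.map (algebraMap ℤ_[p] ℚ_[p])) (j v) = j (aeval S f v) := by
    intro f v
    rw [aeval_map_algebraMap]
    have := aeval_algHom_apply (Module.End.baseChangeHom ℤ_[p] ℚ_[p] L) S f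
    change aeval (Module.End.baseChangeHom ℤ_[p] ℚ_[p] L S) f (j v) = _
    rw [this]
    rfl
  obtain ⟨x, hx⟩ := Module.exists_ker_toSpanSingleton_eq_annihilator
    (R := ℚ_[p][X]) (M := Module.AEval' S')
  obtain ⟨⟨a, c⟩, hac⟩ := IsLocalizedModule.surj (nonZeroDivisors ℤ_[p]) j
    ((Module.AEval'.of S').symm x)
  refine ⟨a, fun f hf => LinearMap.ext fun v => hinj _ ?_⟩
  have h1 : aeval S' (f.map (algebraMap ℤ_[p] ℚ_[p])) ((Module.AEval'.of S').symm x) = 0 := by
    have h2 := hcomm f a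
    rw [hf, map_zero, ← hac] at h2
    have h3 : (c : ℤ_[p]) • aeval S' (f.map (algebraMap ℤ_[p] ℚ_[p]))
        ((Module.AEval'.of S').symm x) = 0 := by
      rw [← LinearMap.map_smul_of_tower]
      exact h2
    rw [← algebraMap_smul ℚ_[p], smul_eq_zero] at h3
    refine h3.resolve_left ?_
    exact (map_ne_zero_iff _ (IsFractionRing.injective ℤ_[p] ℚ_[p])).mpr
      (nonZeroDivisors.coe_ne_zero c)
  have h4 : f.map (algebraMap ℤ_[p] ℚ_[p]) ∈ Module.annihilator ℚ_[p][X] (Module.AEval' S') := by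
    rw [← hx, LinearMap.mem_ker, LinearMap.toSpanSingleton_apply]
    apply (Module.AEval'.of S').symm.injective
    rw [map_zero, ← h1]
    rfl
  have h5 := Module.mem_annihilator.mp h4 (Module.AEval'.of S' (j v))
  rw [← hcomm]
  exact h5

end Pool.Agent.Lib.MP_2dbb30_al.TF
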