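import Pool.Agent.Lib.MP_2dbb30_al.TF.Model
import Pool.Agent.Lib.MP_2dbb30_al.TF.CDvr

set_option autoImplicit false
set_option linter.unusedSectionVars false

open Topology Filter Polynomial

namespace Pool.Agent.Lib.MP_2dbb30_al.TF

section alg

variable {p : ℕ} [Fact p.Prime] {V : Type*} [AddCommGroup V] [Module ℤ_[p] V]
  [Module.Finite ℤ_[p] V]

theorem irreducible_cyclo_pow (e : ℕ) : Irreducible (cyclotomic (p ^ (e + 1)) ℤ_[p]) := by
  have hp : p.Prime := Fact.out
  have hE := cyclotomic_prime_pow_comp_X_add_one_isEisensteinAt p e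
  have hmap : (cyclotomic (p ^ (e + 1)) ℤ_[p]).comp (X + 1) =
      ((cyclotomic (p ^ (e + 1)) ℤ).comp (X + 1)).map (Int.castRingHom ℤ_[p]) := by
    rw [Polynomial.map_comp, map_cyclotomic_int]
    simp
  have hmon : ((cyclotomic (p ^ (e + 1)) ℤ).comp (X + 1)).Monic := by
    have := (cyclotomic.monic (p ^ (e + 1)) ℤ).comp_X_add_C 1
    simpa using this
  have hmon' : ((cyclotomic (p ^ (e + 1)) ℤ_[p]).comp (X + 1)).Monic := hmap ▸ hmon.map _
  have hdeg : ((cyclotomic (p ^ (e + 1)) ℤ_[p]).comp (X + 1)).natDegree =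
      ((cyclotomic (p ^ (e + 1)) ℤ).comp (X + 1)).natDegree := by rw [hmap, hmon.natDegree_map]
  have hP : (Ideal.span {(p : ℤ_[p])}).IsMaximal := by
    rw [← PadicInt.maximalIdeal_eq_span_p]; exact IsLocalRing.maximalIdeal.isMaximal _
  have hE' : ((cyclotomic (p ^ (e + 1)) ℤ_[p]).comp (X + 1)).IsEisensteinAt
      (Ideal.span {(p : ℤ_[p])}) := by
    refine hmon'.isEisensteinAt_of_mem_of_notMem hP.ne_top (fun {n} hn => ?_) ?_
    · rw [hdeg] at hn
      obtain ⟨c, hc⟩ := Ideal.mem_span_singleton.mp (hE.mem hn)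
      rw [hmap, coeff_map, hc, Ideal.mem_span_singleton]
      simp
    · rw [coeff_zero_eq_eval_zero, eval_comp, eval_add, eval_X, eval_one, zero_add,
        eval_one_cyclotomic_prime_pow, Ideal.span_singleton_pow, Ideal.mem_span_singleton]
      rintro ⟨c, hc⟩
      have h0 : (p : ℤ_[p]) ≠ 0 := by exact_mod_cast hp.ne_zero
      have h1 : (1 : ℤ_[p]) = p * c := mul_left_cancel₀ h0 (by rw [mul_one, ← mul_assoc, ← sq, ← hc])
      exact PadicInt.irreducible_p.not_isUnit (isUnit_of_dvd_one ⟨c, h1⟩)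
  have hirr := hE'.irreducible hP.isPrime hmon'.isPrimitive (by
    have h1 : (X + 1 : ℤ_[p][X]).natDegree = 1 := by
      have := natDegree_X_add_C (1 : ℤ_[p])
      simpa using this
    rw [natDegree_comp, h1, mul_one, natDegree_cyclotomic]
    exact Nat.totient_pos.mpr (pow_pos hp.pos _))
  have h2 : (cyclotomic (p ^ (e + 1)) ℤ_[p]).comp (X + 1) =
      taylorEquiv (1 : ℤ_[p]) (cyclotomic (p ^ (e + 1)) ℤ_[p]) := by
    change _ = taylor (1 : ℤ_[p]) (cyclotomic (p ^ (e + 1)) ℤ_[p])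
    rw [taylor_apply, C_1]
  rw [h2] at hirr
  exact (MulEquiv.irreducible_iff (taylorEquiv (1 : ℤ_[p]))).mp hirr

theorem card_le_of_indep {n : ℕ} (W : Submodule ℤ_[p] V) (f : Fin n → V)
    (hf : LinearIndependent ℤ_[p] f) (hW : ∀ i, f i ∈ W) : n ≤ Module.finrank ℤ_[p] W := by
  have h1 : LinearIndependent ℤ_[p] fun i => (⟨f i, hW i⟩ : W) :=
    LinearIndependent.of_comp W.subtype hf
  simpa using h1.fintype_card_le_finrank

theorem exists_ne_of_ne_one {T : Module.End ℤ_[p] V} (h : T ≠ 1) : ∃ v, (T - 1) v ≠ 0 := by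
  by_contra h1
  push Not at h1
  exact h (sub_eq_zero.mp (LinearMap.ext h1))

/-- no element of order `p ^ 2` -/
theorem pow_eq_one_of_rank (htf : ∀ (a : ℤ_[p]) (v : V), a • v = 0 → a = 0 ∨ v = 0)
    (S : Module.End ℤ_[p] V) (hS : S ^ p ^ 2 = 1)
    (hr : Module.finrank ℤ_[p] (LinearMap.range (S ^ p - 1 : Module.End ℤ_[p] V)) < p) :
    S ^ p = 1 := by
  have hp : p.Prime := Fact.out
  by_contra h
  obtain ⟨v, hv⟩ := exists_ne_of_ne_one h
  refine absurd (card_le_of_indep (n := p) _ (fun i => (S ^ (i : ℕ)) ((S ^ p - 1) v)) ?_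
    fun i => ?_) (not_le.mpr hr)
  · rw [Fintype.linearIndependent_iff]
    intro c hc i
    have h0 : (∑ j : Fin p, monomial (j : ℕ) (c j) : ℤ_[p][X]) = 0 := by
      refine eq_zero_of_aeval htf S hv (cyclotomic.monic _ ℤ_[p]) (irreducible_cyclo_pow 1) ?_ ?_ ?_
      · rw [cyclotomic_prime_pow_eq_geom_sum hp, map_sum, pow_one]
        simp only [map_pow, aeval_X]
        rw [← Module.End.mul_apply, geom_sum_mul, ← pow_mul, ← sq, hS, sub_self,
          LinearMap.zero_apply]
      · rw [map_sum, LinearMap.sum_apply, ← hc]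
        refine Finset.sum_congr rfl fun j _ => ?_
        rw [aeval_monomial, Module.End.mul_apply, Module.algebraMap_end_apply]
      · rw [degree_cyclotomic, Nat.totient_prime_pow_succ hp, pow_one]
        have h1 := degree_sum_fin_lt c
        simp only [C_mul_X_pow_eq_monomial] at h1
        refine h1.trans_le ?_
        have h2 : p ≤ p * (p - 1) := Nat.le_mul_of_pos_right _ (Nat.sub_pos_of_lt hp.one_lt)
        exact_mod_cast h2
    have h1 := congrArg (fun f : ℤ_[p][X] => f.coeff i) h0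
    simp only [finsetSum_coeff, coeff_monomial, coeff_zero, Fin.val_inj] at h1
    simpa using h1
  · refine ⟨(S ^ (i : ℕ)) v, ?_⟩
    have hc : (S ^ p - 1) * S ^ (i : ℕ) = S ^ (i : ℕ) * (S ^ p - 1) := by
      rw [sub_mul, mul_sub, one_mul, mul_one, ← pow_add, ← pow_add, add_comm]
    rw [← Module.End.mul_apply, hc, Module.End.mul_apply]

/-- a map which kills a cyclotomic orbit inside a module of rank below `p` kills the module -/
theorem kill_of_rank (htf : ∀ (a : ℤ_[p]) (v : V), a • v = 0 → a = 0 ∨ v = 0)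
    (T φ : Module.End ℤ_[p] V) (W : Submodule ℤ_[p] V) (hW : Module.finrank ℤ_[p] W < p)
    {k : V} (hk : k ≠ 0) (hN : ∑ i ∈ Finset.range p, (T ^ i) k = 0)
    (hmem : ∀ i : ℕ, (T ^ i) k ∈ W) (hφ : ∀ i : ℕ, φ ((T ^ i) k) = 0) {w : V} (hw : w ∈ W) :
    φ w = 0 := by
  have hp : p.Prime := Fact.out
  by_contra h
  have h1 := LinearIndependent.finCons' w _ (indep_cyclo htf T hk hN) (fun c y hy hc => by
    have hy0 : φ y = 0 := by
      have : Submodule.span ℤ_[p] (Set.range fun i : Fin (p - 1) => (T ^ (i : ℕ)) k) ≤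
          LinearMap.ker φ := Submodule.span_le.mpr (by rintro _ ⟨i, rfl⟩; exact hφ i)
      exact this hy
    have h2 := congrArg φ hc
    rw [map_add, map_smul, hy0, add_zero, map_zero] at h2
    exact (htf _ _ h2).resolve_right h)
  have h2 := card_le_of_indep W _ h1 (fun i => Fin.cases hw (fun j => hmem j) i)
  have := hp.pos
  omega

theorem sum_fix {T : Module.End ℤ_[p] V} {v : V} (h : T v = v) :
    ∑ i ∈ Finset.range p, (T ^ i) v = (p : ℤ_[p]) • v := by
  have : ∀ i : ℕ, (T ^ i) v = v := fun i => by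
    induction i with
    | zero => rfl
    | succ i ih => rw [pow_succ, Module.End.mul_apply, h, ih]
  simp [this, Nat.cast_smul_eq_nsmul]

theorem eq_zero_of_fix (htf : ∀ (a : ℤ_[p]) (v : V), a • v = 0 → a = 0 ∨ v = 0)
    {T : Module.End ℤ_[p] V} {v : V} (h : T v = v)
    (hN : ∑ i ∈ Finset.range p, (T ^ i) v = 0) : v = 0 := by
  rw [sum_fix h] at hN
  exact (htf _ _ hN).resolve_left (by exact_mod_cast (Fact.out : p.Prime).ne_zero)

theorem norm_sub {T : Module.End ℤ_[p] V} (hT : T ^ p = 1) (v : V) :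
    ∑ i ∈ Finset.range p, (T ^ i) ((T - 1) v) = 0 := by
  rw [← LinearMap.sum_apply, ← Module.End.mul_apply, geom_sum_mul, hT, sub_self,
    LinearMap.zero_apply]

theorem fix_of_pow {T : Module.End ℤ_[p] V} (hT : T ^ p = 1) {j : ℕ} (h0 : 0 < j) (hj : j < p)
    {v : V} (h : (T ^ j) v = v) : T v = v := by
  have hp : p.Prime := Fact.out
  obtain ⟨l, -, hl⟩ := Nat.exists_mul_mod_eq_one_of_coprime
    (Nat.coprime_of_lt_prime h0.ne' hj hp).symm hp.one_lt
  have h1 : ∀ i : ℕ, ((T ^ j) ^ i) v = v := fun i => by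
    induction i with
    | zero => rfl
    | succ i ih => rw [pow_succ, Module.End.mul_apply, h, ih]
  have h2 : T ^ (j * l) = T := by
    rw [← Nat.div_add_mod (j * l) p, hl, pow_add, pow_mul, hT, one_pow, one_mul, pow_one]
  have h3 := h1 l
  rwa [← pow_mul, h2] at h3

/-- a commuting element of order `p` acts as a power of `T` on the image of `T - 1` -/
theorem exists_pow_mul (htf : ∀ (a : ℤ_[p]) (v : V), a • v = 0 → a = 0 ∨ v = 0)
    (T S : Module.End ℤ_[p] V) (hc : Commute T S) (hT : T ^ p = 1) (hS : S ^ p = 1)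
    (hr : Module.finrank ℤ_[p] (LinearMap.range (T - 1 : Module.End ℤ_[p] V)) < p) :
    ∃ c : ℕ, (T ^ c * S - 1) * (T - 1) = 0 := by
  have hp : p.Prime := Fact.out
  by_cases h1 : T = 1
  · exact ⟨0, by rw [h1, sub_self, mul_zero]⟩
  obtain ⟨v, hv⟩ := exists_ne_of_ne_one h1
  have hcT : Commute T (T - 1) := (Commute.refl T).sub_right (Commute.one_right T)
  have hz : ∀ j, 0 < j → j < p → ∀ u, ∑ c ∈ Finset.range p, ((T ^ j) ^ c) ((T - 1) u) = 0 := by
    intro j h0 hj u
    have hcomm : Commute (∑ c ∈ Finset.range p, (T ^ j) ^ c) (T - 1) :=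
      Commute.sum_left _ _ _ fun c _ => (hcT.pow_left j).pow_left c
    rw [← LinearMap.sum_apply, ← Module.End.mul_apply, hcomm.eq, Module.End.mul_apply]
    refine eq_zero_of_fix htf (T := T) (fix_of_pow hT h0 hj ?_) (norm_sub hT _)
    have h2 : (T ^ j - 1) * ∑ c ∈ Finset.range p, (T ^ j) ^ c = 0 := by
      rw [mul_geom_sum, ← pow_mul, mul_comm, pow_mul, hT, one_pow, sub_self]
    have h3 : ((T ^ j - 1) * ((∑ c ∈ Finset.range p, (T ^ j) ^ c) * (T - 1))) u = 0 := by
      rw [← mul_assoc, h2, zero_mul, LinearMap.zero_apply]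
    rw [hcomm.eq, Module.End.mul_apply, Module.End.mul_apply, LinearMap.sub_apply,
      Module.End.one_apply, sub_eq_zero] at h3
    exact h3
  have hsum : ∑ c ∈ Finset.range p, ∑ j ∈ Finset.range p, ((T ^ c * S) ^ j) ((T - 1) v) =
      (p : ℤ_[p]) • (T - 1) v := by
    rw [Finset.sum_comm, Finset.sum_eq_single 0]
    · simp only [pow_zero, Module.End.one_apply, Finset.sum_const, Finset.card_range,
        Nat.cast_smul_eq_nsmul]
    · intro j hj h0
      rw [← hz j (Nat.pos_of_ne_zero h0) (Finset.mem_range.mp hj) ((S ^ j) v)]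
      refine Finset.sum_congr rfl fun c _ => ?_
      have hcS : Commute (S ^ j) (T - 1) :=
        (hc.symm.sub_right (Commute.one_right S)).pow_left j
      rw [(hc.pow_left c).mul_pow, Module.End.mul_apply, ← Module.End.mul_apply (S ^ j), hcS.eq,
        Module.End.mul_apply, ← pow_mul, ← pow_mul, mul_comm]
    · intro h
      exact absurd (Finset.mem_range.mpr hp.pos) h
  have hne : ∃ c, ∑ j ∈ Finset.range p, ((T ^ c * S) ^ j) ((T - 1) v) ≠ 0 := by
    by_contra h
    push Not at h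
    rw [Finset.sum_eq_zero fun c _ => h c] at hsum
    exact hv ((htf _ _ hsum.symm).resolve_left (by exact_mod_cast hp.ne_zero))
  obtain ⟨c, hk⟩ := hne
  refine ⟨c, LinearMap.ext fun u => ?_⟩
  have hTU : Commute T (T ^ c * S) := ((Commute.refl T).pow_right c).mul_right hc
  have hU : (T ^ c * S) ^ p = 1 := by
    rw [(hc.pow_left c).mul_pow, ← pow_mul, mul_comm, pow_mul, hT, hS, one_pow, one_mul]
  generalize T ^ c * S = U at hk hTU hU
  have hNc : Commute T (∑ j ∈ Finset.range p, U ^ j) :=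
    Commute.sum_right _ _ _ fun j _ => hTU.pow_right j
  have hk2 : ∑ j ∈ Finset.range p, (U ^ j) ((T - 1) v) =
      (T - 1) ((∑ j ∈ Finset.range p, U ^ j) v) := by
    rw [← LinearMap.sum_apply, ← Module.End.mul_apply, ← Module.End.mul_apply,
      (hNc.sub_left (Commute.one_left _)).eq]
  rw [Module.End.mul_apply, LinearMap.zero_apply]
  refine kill_of_rank htf T (U - 1) _ hr hk ?_ (fun i => ?_) (fun i => ?_) ⟨u, rfl⟩
  · rw [hk2]
    exact norm_sub hT _
  · rw [hk2, ← Module.End.mul_apply, (hcT.pow_left i).eq]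
    exact ⟨_, rfl⟩
  · have h2 : Commute (U - 1) (T ^ i) := (hTU.symm.sub_left (Commute.one_left T)).pow_right i
    rw [← LinearMap.sum_apply, ← Module.End.mul_apply, h2.eq, Module.End.mul_apply,
      ← Module.End.mul_apply (U - 1), mul_geom_sum, hU, sub_self, LinearMap.zero_apply, map_zero]

/-- two independent elements of order `p` give rank at least `p` -/
theorem eq_one_of_rank (htf : ∀ (a : ℤ_[p]) (v : V), a • v = 0 → a = 0 ∨ v = 0)
    (T U : Module.End ℤ_[p] V) (hc : Commute T U) (hT : T ^ p = 1) (hU : U ^ p = 1)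
    (h0 : (U - 1) * (T - 1) = 0) (h1 : T ≠ 1)
    (hr : Module.finrank ℤ_[p] (LinearMap.range (T * U - 1 : Module.End ℤ_[p] V)) < p) :
    U = 1 := by
  by_contra h2
  obtain ⟨v, hv⟩ := exists_ne_of_ne_one h1
  obtain ⟨w, hw⟩ := exists_ne_of_ne_one h2
  have hcT : Commute T (T - 1) := (Commute.refl T).sub_right (Commute.one_right T)
  have h0' : (T - 1) * (U - 1) = 0 := by
    rw [← h0]
    exact ((hc.sub_right (Commute.one_right T)).sub_left (Commute.one_left _)).eq
  have e1 : (T * U - 1) * (T - 1) = (T - 1) * (T - 1) := by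
    have : T * U - 1 = T * (U - 1) + (T - 1) := by rw [mul_sub, mul_one, sub_add_sub_cancel]
    rw [this, add_mul, mul_assoc, h0, mul_zero, zero_add]
  have e2 : (T * U - 1) * (U - 1) = (U - 1) * (U - 1) := by
    have : T * U - 1 = U * (T - 1) + (U - 1) := by
      rw [mul_sub, mul_one, sub_add_sub_cancel, hc.eq]
    rw [this, add_mul, mul_assoc, h0', mul_zero, zero_add]
  have hk1 : (T - 1) ((T - 1) v) ≠ 0 := fun h =>
    hv (eq_zero_of_fix htf (T := T) (sub_eq_zero.mp h) (norm_sub hT v))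
  have hk2 : (U - 1) ((U - 1) w) ≠ 0 := fun h =>
    hw (eq_zero_of_fix htf (T := U) (sub_eq_zero.mp h) (norm_sub hU w))
  have h3 := kill_of_rank htf T (∑ i ∈ Finset.range p, T ^ i) _ hr hk1 (norm_sub hT _)
    (fun i => ?_) (fun i => ?_) (w := (U - 1) ((U - 1) w)) ⟨(U - 1) w, by
      rw [← Module.End.mul_apply, e2, Module.End.mul_apply]⟩
  · rw [LinearMap.sum_apply] at h3
    refine hk2 (eq_zero_of_fix htf (T := T) (sub_eq_zero.mp ?_) h3)
    have h4 : ((T - 1) * (U - 1)) ((U - 1) w) = 0 := by rw [h0', LinearMap.zero_apply]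
    exact h4
  · refine ⟨(T - 1) ((T ^ i) v), ?_⟩
    rw [← Module.End.mul_apply, e1, ← Module.End.mul_apply, ← Module.End.mul_apply (T - 1),
      ← Module.End.mul_apply (T ^ i),
      ((hcT.pow_left i).mul_right (hcT.pow_left i)).eq]
  · rw [← Module.End.mul_apply (T ^ i), (hcT.pow_left i).eq, Module.End.mul_apply,
      LinearMap.sum_apply]
    exact norm_sub hT _

end alg

variable {p : ℕ} [Fact p.Prime] {G : Type*} [Group G] [TopologicalSpace G] [IsTopologicalGroup G]
  [CompactSpace G] [T2Space G] [TotallyDisconnectedSpace G]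
  {V : Type*} [AddCommGroup V] [Module ℤ_[p] V] [TopologicalSpace V] [IsTopologicalAddGroup V]
  {A : Subgroup G} {ι : V → G} {ρ : G →* Module.End ℤ_[p] V}

theorem caseA (m : Model A ι ρ) (hG : ProP p G) (htf : ∀ g : G, IsOfFinOrder g → g = 1)
    [Module.Finite ℤ_[p] V] (hA : ∀ g, (∀ v, ρ g v = v) → g ∈ A) (hn : A.Normal)
    (hAo : IsOpen (A : Set G))
    (hr : ∀ x : G, x ^ p ∈ A →
      Module.finrank ℤ_[p] (LinearMap.range (ρ x - 1 : Module.End ℤ_[p] V)) < p) :
    ∃ y : G, y ^ p ∈ A ∧ ∀ g, ∃ (v : V) (i : ℕ), g = ι v * y ^ i := by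
  have hp : p.Prime := Fact.out
  have tf : ∀ (a : ℤ_[p]) (v : V), a • v = 0 → a = 0 ∨ v = 0 := fun a v h => m.tf htf h
  have hker : ∀ g, g ∈ A ↔ ρ g = 1 := fun g =>
    ⟨fun hg => by
      obtain ⟨v, rfl⟩ := (m.mem g).mp hg
      exact LinearMap.ext (m.rho_iota v), fun hg => hA g fun v => by rw [hg]; rfl⟩
  have hexp : ∀ g : G, g ^ p ∈ A := by
    obtain ⟨k, hk⟩ := exists_pow_mem hG A hn hAo
    have key : ∀ (n : ℕ) (g : G), g ^ p ^ (n + 1) ∈ A → g ^ p ∈ A := by
      intro n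
      induction n with
      | zero => intro g hg; simpa using hg
      | succ n ih =>
        intro g hg
        apply ih
        have h1 : (g ^ p ^ n) ^ p ^ 2 ∈ A := by rwa [← pow_mul, ← pow_add]
        have h2 : ((g ^ p ^ n) ^ p) ^ p ∈ A := by rwa [← pow_mul _ p p, ← sq]
        have h3 := hr _ h2
        rw [map_pow] at h3
        have h4 := pow_eq_one_of_rank tf (ρ (g ^ p ^ n)) (by rw [← map_pow, ← hker]; exact h1) h3
        rw [hker, pow_succ, pow_mul, map_pow]
        exact h4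
    intro g
    apply key k
    rw [pow_succ, pow_mul]
    exact A.pow_mem (hk g) p
  have hpow : ∀ g : G, ρ g ^ p = 1 := fun g => by rw [← map_pow, ← hker]; exact hexp g
  by_cases hall : ∀ g : G, g ∈ A
  · refine ⟨1, hexp 1, fun g => ?_⟩
    obtain ⟨v, hv⟩ := (m.mem g).mp (hall g)
    exact ⟨v, 0, by rw [hv, pow_zero, mul_one]⟩
  push Not at hall
  obtain ⟨g₀, hg₀⟩ := hall
  obtain ⟨k, hk⟩ := hG A hn hAo
  have hfin : Finite (G ⧸ A) := Nat.finite_of_card_ne_zero (by
    change A.index ≠ 0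
    rw [hk]; exact pow_ne_zero _ hp.ne_zero)
  have hP : IsPGroup p (G ⧸ A) := IsPGroup.of_card hk
  have hnt : Nontrivial (G ⧸ A) :=
    ⟨⟨(g₀ : G ⧸ A), 1, fun h => hg₀ ((QuotientGroup.eq_one_iff g₀).mp h)⟩⟩
  have := hP.center_nontrivial
  obtain ⟨⟨z, hz⟩, hz1⟩ := exists_ne (1 : Subgroup.center (G ⧸ A))
  obtain ⟨x, rfl⟩ := QuotientGroup.mk_surjective z
  have hx : ρ x ≠ 1 := fun h =>
    hz1 (Subtype.ext ((QuotientGroup.eq_one_iff x).mpr ((hker x).mpr h)))
  have hcomm : ∀ g, Commute (ρ x) (ρ g) := fun g => by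
    have h1 := Subgroup.mem_center_iff.mp hz (g : G ⧸ A)
    rw [← QuotientGroup.mk_mul, ← QuotientGroup.mk_mul, QuotientGroup.eq, hker] at h1
    have h2 : x * g = g * x * ((g * x)⁻¹ * (x * g)) := by rw [mul_inv_cancel_left]
    change ρ x * ρ g = ρ g * ρ x
    rw [← map_mul, h2, map_mul, h1, mul_one, map_mul]
  refine ⟨x⁻¹, hexp _, fun g => ?_⟩
  obtain ⟨c, hc⟩ := exists_pow_mul tf (ρ x) (ρ g) (hcomm g) (hpow x) (hpow g) (hr x (hexp x))
  rw [← map_pow, ← map_mul] at hc
  have h1 := hr (x * (x ^ c * g)) (hexp _)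
  rw [map_mul] at h1
  have h2 := eq_one_of_rank tf (ρ x) (ρ (x ^ c * g)) (hcomm _) (hpow x) (hpow _) hc hx h1
  obtain ⟨v, hv⟩ := (m.mem _).mp (hn.mem_comm ((hker _).mpr h2))
  exact ⟨v, c, by rw [hv, inv_pow, mul_inv_cancel_right]⟩

end Pool.Agent.Lib.MP_2dbb30_al.TF
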