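import Pool.Agent.Lib.MP_2dbb30_al.TF.Base

set_option autoImplicit false
set_option linter.unusedSectionVars false

open Topology Filter
open scoped commutatorElement

namespace Pool.Agent.Lib.MP_2dbb30_al.TF

universe u

variable {p : ℕ} [Fact p.Prime] {G : Type u} [Group G] [TopologicalSpace G] [IsTopologicalGroup G]
  [CompactSpace G] [T2Space G] [TotallyDisconnectedSpace G]

/-- an additive model of an abelian closed normal subgroup with the conjugation action -/
structure Model {V : Type*} [AddCommGroup V] [Module ℤ_[p] V] [TopologicalSpace V]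
    (A : Subgroup G) (ι : V → G) (ρ : G →* Module.End ℤ_[p] V) : Prop where
  emb : IsClosedEmbedding ι
  add : ∀ v w, ι (v + w) = ι v * ι w
  mem : ∀ g, g ∈ A ↔ ∃ v, ι v = g
  conj : ∀ g v, ι (ρ g v) = g * ι v * g⁻¹
  smul : ∀ v : V, Continuous fun a : ℤ_[p] => a • v

theorem exists_model (hG : ProP p G) (A : Subgroup G) (hn : A.Normal) (hc : IsClosed (A : Set G))
    (hab : ∀ a ∈ A, ∀ b ∈ A, a * b = b * a) :
    ∃ (V : Type u) (_ : AddCommGroup V) (_ : Module ℤ_[p] V) (_ : TopologicalSpace V)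
      (_ : IsTopologicalAddGroup V) (ι : V → G) (ρ : G →* Module.End ℤ_[p] V), Model A ι ρ := by
  let : CommGroup A :=
    { (inferInstance : Group A) with mul_comm := fun a b => Subtype.ext (hab _ a.2 _ b.2) }
  let ι : Additive A → G := fun v => (v.toMul : A)
  have hι : Function.Injective ι := fun v w h => Additive.toMul.injective (Subtype.ext h)
  have hmem : ∀ v, ι v ∈ A := fun v => (v.toMul : A).2
  let : SMul ℤ_[p] (Additive A) :=
    ⟨fun a v => Additive.ofMul ⟨pw hG (ι v) a, pw_mem hG hc (hmem v) a⟩⟩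
  have hsm : ∀ (a : ℤ_[p]) (v : Additive A), ι (a • v) = pw hG (ι v) a := fun _ _ => rfl
  have hadd : ∀ v w, ι (v + w) = ι v * ι w := fun _ _ => rfl
  have h0 : ι 0 = 1 := rfl
  let : Module ℤ_[p] (Additive A) :=
    { one_smul := fun v => hι (by rw [hsm, pw_one])
      mul_smul := fun a b v => hι (by rw [hsm, hsm, hsm, mul_comm, pw_mul])
      smul_zero := fun a => hι (by rw [hsm, h0, one_pw])
      smul_add := fun a v w => hι (by
        rw [hsm, hadd, hadd, hsm, hsm, mul_pw hG (hab _ (hmem v) _ (hmem w))])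
      add_smul := fun a b v => hι (by rw [hsm, hadd, hsm, hsm, pw_add])
      zero_smul := fun v => hι (by rw [hsm, pw_zero, h0]) }
  let r : G → Additive A → Additive A :=
    fun g v => Additive.ofMul ⟨g * ι v * g⁻¹, hn.conj_mem _ (hmem v) g⟩
  have hr : ∀ g v, ι (r g v) = g * ι v * g⁻¹ := fun _ _ => rfl
  let r' : G → Module.End ℤ_[p] (Additive A) := fun g =>
    { toFun := r g
      map_add' := fun v w => hι (by rw [hr, hadd, hadd, hr, hr]; group)
      map_smul' := fun a v => hι (by rw [hr, hsm, RingHom.id_apply, hsm, hr, pw_conj]) }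
  let ρ : G →* Module.End ℤ_[p] (Additive A) :=
    { toFun := r'
      map_one' := LinearMap.ext fun v => hι (by
        change ι (r 1 v) = ι v
        rw [hr]; group)
      map_mul' := fun g h => LinearMap.ext fun v => hι (by
        change ι (r (g * h) v) = ι (r g (r h v))
        rw [hr, hr, hr]; group) }
  have hemb : IsClosedEmbedding ι := hc.isClosedEmbedding_subtypeVal
  refine ⟨Additive A, inferInstance, inferInstance, inferInstance, inferInstance, ι, ρ,
    ⟨hemb, hadd, fun g => ⟨fun hg => ⟨Additive.ofMul ⟨g, hg⟩, rfl⟩, ?_⟩, hr, fun v => ?_⟩⟩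
  · rintro ⟨v, rfl⟩
    exact hmem v
  · rw [hemb.isInducing.continuous_iff]
    exact continuous_pw hG (ι v)

theorem comm_iter_mem_lcs {Q : Type*} [Group Q] (g : Q) (i : ℕ) (x : Q) :
    (fun z : Q => g * z * g⁻¹ * z⁻¹)^[i] x ∈ (⊤ : Subgroup Q).lowerCentralSeries i := by
  induction i with
  | zero => exact Subgroup.mem_top _
  | succ i ih =>
    rw [Function.iterate_succ_apply']
    generalize (fun z : Q => g * z * g⁻¹ * z⁻¹)^[i] x = z at ih
    have h : g * z * g⁻¹ * z⁻¹ = ⁅z, g⁆⁻¹ := by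
      rw [commutatorElement_inv, commutatorElement_def]
    rw [h]
    exact Subgroup.inv_mem _ (Subgroup.commutator_mem_commutator ih (Subgroup.mem_top g))

theorem exists_comm_iter_mem (hG : ProP p G) (N : Subgroup G) (hN : N.Normal)
    (hNo : IsOpen (N : Set G)) :
    ∃ r : ℕ, ∀ g x : G, (fun z : G => g * z * g⁻¹ * z⁻¹)^[r] x ∈ N := by
  obtain ⟨k, hk⟩ := hG N hN hNo
  have hfin : Finite (G ⧸ N) := Nat.finite_of_card_ne_zero (by
    change N.index ≠ 0
    rw [hk]; exact pow_ne_zero _ (Fact.out : p.Prime).ne_zero)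
  have hP : IsPGroup p (G ⧸ N) := IsPGroup.of_card hk
  obtain ⟨r, hr⟩ := Subgroup.nilpotent_iff_lowerCentralSeries.mp hP.isNilpotent
  refine ⟨r, fun g x => ?_⟩
  have h1 : QuotientGroup.mk' N ((fun z : G => g * z * g⁻¹ * z⁻¹)^[r] x) ∈
      (⊤ : Subgroup (G ⧸ N)).lowerCentralSeries r := by
    have h2 := Subgroup.mem_map_of_mem (QuotientGroup.mk' N) (comm_iter_mem_lcs g r x)
    rw [Subgroup.map_lowerCentralSeries] at h2
    exact Subgroup.lowerCentralSeries_mono r le_top h2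
  rw [hr, Subgroup.mem_bot] at h1
  exact (QuotientGroup.eq_one_iff _).mp h1

namespace Model

variable {V : Type*} [AddCommGroup V] [Module ℤ_[p] V] [TopologicalSpace V] [IsTopologicalAddGroup V]
  {A : Subgroup G} {ι : V → G} {ρ : G →* Module.End ℤ_[p] V}

theorem compactSpace (m : Model A ι ρ) : CompactSpace V := m.emb.compactSpace
theorem t2Space (m : Model A ι ρ) : T2Space V := m.emb.isEmbedding.t2Space
theorem inj (m : Model A ι ρ) : Function.Injective ι := m.emb.injective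
theorem zero (m : Model A ι ρ) : ι 0 = 1 := by
  have h := m.add 0 0
  rw [add_zero] at h
  exact mul_eq_left.mp h.symm
theorem neg (m : Model A ι ρ) (v : V) : ι (-v) = (ι v)⁻¹ := by
  apply eq_inv_of_mul_eq_one_left
  rw [← m.add, neg_add_cancel, m.zero]
theorem sub (m : Model A ι ρ) (v w : V) : ι (v - w) = ι v * (ι w)⁻¹ := by
  rw [sub_eq_add_neg, m.add, m.neg]
theorem nsmul (m : Model A ι ρ) (n : ℕ) (v : V) : ι (n • v) = ι v ^ n := by
  induction n with
  | zero => rw [zero_nsmul, m.zero, pow_zero]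
  | succ n ih => rw [succ_nsmul, m.add, ih, pow_succ]
theorem zsmul (m : Model A ι ρ) (n : ℤ) (v : V) : ι (n • v) = ι v ^ n := by
  rcases n with n | n
  · rw [Int.ofNat_eq_natCast, natCast_zsmul, m.nsmul, zpow_natCast]
  · rw [negSucc_zsmul, m.neg, m.nsmul, zpow_negSucc]
theorem rho_iota (m : Model A ι ρ) (v w : V) : ρ (ι v) w = w := by
  apply m.inj
  rw [m.conj, ← m.add, add_comm, m.add, mul_inv_cancel_right]
theorem cont_rho (m : Model A ι ρ) (g : G) : Continuous (ρ g) := by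
  rw [m.emb.isInducing.continuous_iff]
  have : ι ∘ ρ g = fun v => g * ι v * g⁻¹ := funext (m.conj g)
  rw [this]
  exact (continuous_const.mul m.emb.continuous).mul continuous_const
theorem cont_rho' (m : Model A ι ρ) (v : V) : Continuous fun g : G => ρ g v := by
  rw [m.emb.isInducing.continuous_iff]
  have : (ι ∘ fun g : G => ρ g v) = fun g => g * ι v * g⁻¹ := funext fun g => m.conj g v
  rw [this]
  exact (continuous_id.mul continuous_const).mul continuous_inv
theorem smul_mem (m : Model A ι ρ) {X : AddSubgroup V} (hX : IsClosed (X : Set V)) (a : ℤ_[p])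
    {v : V} (hv : v ∈ X) : a • v ∈ X :=
  padic_ind (P := fun a => a • v ∈ X) (hX.preimage (m.smul v))
    (fun n => by rw [Int.cast_smul_eq_zsmul]; exact X.zsmul_mem hv n) a
theorem exists_N (m : Model A ι ρ) {U : Set V} (hU : U ∈ 𝓝 (0 : V)) :
    ∃ N : Subgroup G, N.Normal ∧ IsOpen (N : Set G) ∧ ∀ v, ι v ∈ N → v ∈ U := by
  rw [m.emb.isInducing.nhds_eq_comap, m.zero, Filter.mem_comap] at hU
  obtain ⟨W, hW, hWU⟩ := hU
  obtain ⟨N, hN, hNo, hNW⟩ := exists_open_normal hW
  exact ⟨N, hN, hNo, fun v hv => hWU (hNW hv)⟩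
/-- the trace of a subgroup of `G` on `V` -/
def trace (m : Model A ι ρ) (N : Subgroup G) : AddSubgroup V where
  carrier := ι ⁻¹' N
  zero_mem' := by rw [Set.mem_preimage, m.zero]; exact N.one_mem
  add_mem' := fun {v w} hv hw => by rw [Set.mem_preimage, m.add]; exact N.mul_mem hv hw
  neg_mem' := fun {v} hv => by rw [Set.mem_preimage, m.neg]; exact N.inv_mem hv
theorem mem_trace (m : Model A ι ρ) {N : Subgroup G} {v : V} : v ∈ m.trace N ↔ ι v ∈ N := Iff.rfl
theorem cont_smul (m : Model A ι ρ) (a : ℤ_[p]) : Continuous fun v : V => a • v := by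
  apply continuous_of_continuousAt_zero (DistribSMul.toAddMonoidHom V a)
  intro U hU
  rw [map_zero] at hU
  obtain ⟨N, -, hNo, hNU⟩ := m.exists_N hU
  have ho : IsOpen (m.trace N : Set V) := hNo.preimage m.emb.continuous
  rw [Filter.mem_map]
  filter_upwards [ho.mem_nhds (m.trace N).zero_mem] with v hv
  exact hNU _ (m.smul_mem ((m.trace N).isClosed_of_isOpen ho) a hv)
theorem mem_of_forall (m : Model A ι ρ) {X : Set V} (hX : IsClosed X) {v : V}
    (h : ∀ N : Subgroup G, N.Normal → IsOpen (N : Set G) → ∃ u, ι u ∈ N ∧ v - u ∈ X) :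
    v ∈ X := by
  by_contra hv
  have hU : (fun u => v - u) ⁻¹' Xᶜ ∈ 𝓝 (0 : V) := by
    apply (hX.isOpen_compl.preimage (continuous_const.sub continuous_id)).mem_nhds
    simpa using hv
  obtain ⟨N, hN, hNo, hNU⟩ := m.exists_N hU
  obtain ⟨u, hu, hx⟩ := h N hN hNo
  exact hNU u hu hx
theorem isClosed_span (m : Model A ι ρ) (F : Finset V) :
    IsClosed (Submodule.span ℤ_[p] (F : Set V) : Set V) := by
  have := m.t2Space
  have h1 : (Submodule.span ℤ_[p] (F : Set V) : Set V) =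
      Set.range fun c : F → ℤ_[p] => ∑ i : F, c i • (i : V) := by
    ext v
    rw [SetLike.mem_coe, Set.mem_range]
    have h2 : (F : Set V) = Set.range (fun i : F => (i : V)) := by simp
    rw [h2, Submodule.mem_span_range_iff_exists_fun]
  rw [h1]
  apply IsCompact.isClosed
  apply isCompact_range
  exact continuous_finsetSum _ fun i _ => (m.smul (i : V)).comp (continuous_apply i)
theorem tf (m : Model A ι ρ) (htf : ∀ g : G, IsOfFinOrder g → g = 1) {a : ℤ_[p]} {v : V}
    (h : a • v = 0) : a = 0 ∨ v = 0 := by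
  by_cases ha : a = 0
  · exact Or.inl ha
  right
  have h2 : ((p ^ a.valuation : ℕ) : ℤ_[p]) = ((PadicInt.unitCoeff ha)⁻¹ : ℤ_[p]ˣ) * a := by
    rw [Units.eq_inv_mul_iff_mul_eq]
    push_cast
    exact (PadicInt.unitCoeff_spec ha).symm
  have h3 : (p ^ a.valuation) • v = 0 := by
    rw [← Nat.cast_smul_eq_nsmul ℤ_[p], h2, mul_smul, h, smul_zero]
  have h4 : ι v ^ p ^ a.valuation = 1 := by rw [← m.nsmul, h3, m.zero]
  have h5 : ι v = 1 :=
    htf _ (isOfFinOrder_iff_pow_eq_one.mpr ⟨_, pow_pos (Fact.out : p.Prime).pos _, h4⟩)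
  exact m.inj (h5.trans m.zero.symm)
theorem iota_pow_smul (m : Model A ι ρ) (n : ℕ) (v : V) :
    ι ((p : ℤ_[p]) ^ n • v) = ι v ^ p ^ n := by
  rw [← Nat.cast_pow, Nat.cast_smul_eq_nsmul, m.nsmul]
theorem small_p (m : Model A ι ρ) (hG : ProP p G) {U : Set V} (hU : U ∈ 𝓝 (0 : V)) :
    ∃ n : ℕ, ∀ v : V, (p : ℤ_[p]) ^ n • v ∈ U := by
  obtain ⟨N, hN, hNo, hNU⟩ := m.exists_N hU
  obtain ⟨k, hk⟩ := exists_pow_mem hG N hN hNo
  exact ⟨k, fun v => hNU _ (by rw [m.iota_pow_smul]; exact hk _)⟩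
theorem small_pow (m : Model A ι ρ) (hG : ProP p G) {U : Set V} (hU : U ∈ 𝓝 (0 : V)) :
    ∃ n₀ : ℕ, ∀ n, n₀ ≤ n → ∀ (y : G) (v : V), ρ (y ^ p ^ n) v - v ∈ U := by
  obtain ⟨N, hN, hNo, hNU⟩ := m.exists_N hU
  obtain ⟨k, hk⟩ := exists_pow_mem hG N hN hNo
  refine ⟨k, fun n hn y v => hNU _ ?_⟩
  obtain ⟨j, rfl⟩ := Nat.exists_eq_add_of_le hn
  have h1 : y ^ p ^ (k + j) ∈ N := by
    rw [pow_add, pow_mul]; exact N.pow_mem (hk y) _
  rw [m.sub, m.conj, mul_assoc, mul_assoc, ← mul_assoc (ι v)]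
  exact N.mul_mem h1 (hN.conj_mem _ (N.inv_mem h1) _)
/-- Nakayama for `p` -/
theorem nak_p (m : Model A ι ρ) (hG : ProP p G) {M X : AddSubgroup V} (hX : IsClosed (X : Set V))
    (h : ∀ v ∈ M, ∃ w ∈ M, v - (p : ℤ_[p]) • w ∈ X) : M ≤ X := by
  have key : ∀ i : ℕ, ∀ v ∈ M, ∃ w ∈ M, v - (p : ℤ_[p]) ^ i • w ∈ X := by
    intro i
    induction i with
    | zero => exact fun v hv => ⟨v, hv, by simp⟩
    | succ i ih =>
      intro v hv
      obtain ⟨w, hw, h1⟩ := ih v hv
      obtain ⟨w', hw', h2⟩ := h w hw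
      refine ⟨w', hw', ?_⟩
      have h3 := X.add_mem h1 (m.smul_mem hX ((p : ℤ_[p]) ^ i) h2)
      convert h3 using 1
      rw [smul_sub, pow_succ, mul_smul]; abel
  intro v hv
  refine m.mem_of_forall hX fun N hN hNo => ?_
  obtain ⟨k, hk⟩ := exists_pow_mem hG N hN hNo
  obtain ⟨w, -, hw⟩ := key k v hv
  exact ⟨_, by rw [m.iota_pow_smul]; exact hk _, hw⟩
theorem iota_t_pow (m : Model A ι ρ) (y : G) (i : ℕ) (v : V) :
    ι (((ρ y - 1) ^ i) v) = (fun z : G => y * z * y⁻¹ * z⁻¹)^[i] (ι v) := by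
  induction i with
  | zero => rfl
  | succ i ih =>
    rw [pow_succ', Module.End.mul_apply, LinearMap.sub_apply, Module.End.one_apply, m.sub, m.conj,
      Function.iterate_succ_apply', ih]
/-- `T - 1` is topologically nilpotent -/
theorem small_t (m : Model A ι ρ) (hG : ProP p G) {U : Set V} (hU : U ∈ 𝓝 (0 : V)) :
    ∃ n : ℕ, ∀ (y : G) (v : V), ((ρ y - 1) ^ n) v ∈ U := by
  obtain ⟨N, hN, hNo, hNU⟩ := m.exists_N hU
  obtain ⟨r, hr⟩ := exists_comm_iter_mem hG N hN hNo
  exact ⟨r, fun y v => hNU _ (by rw [m.iota_t_pow]; exact hr _ _)⟩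
/-- Nakayama for `T - 1` -/
theorem nak_t' (m : Model A ι ρ) (hG : ProP p G) (y : G) {M X : AddSubgroup V}
    (hX : IsClosed (X : Set V)) (hy : ∀ v ∈ X, ρ y v ∈ X)
    (h : ∀ v ∈ M, ∃ w ∈ M, v - (ρ y w - w) ∈ X) : M ≤ X := by
  have hp : ∀ i : ℕ, ∀ v ∈ X, ((ρ y - 1) ^ i) v ∈ X := by
    intro i
    induction i with
    | zero => exact fun v hv => hv
    | succ i ih =>
      intro v hv
      rw [pow_succ', Module.End.mul_apply, LinearMap.sub_apply, Module.End.one_apply]
      exact X.sub_mem (hy _ (ih v hv)) (ih v hv)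
  have key : ∀ i : ℕ, ∀ v ∈ M, ∃ w ∈ M, v - ((ρ y - 1) ^ i) w ∈ X := by
    intro i
    induction i with
    | zero => exact fun v hv => ⟨v, hv, by simp⟩
    | succ i ih =>
      intro v hv
      obtain ⟨w, hw, h1⟩ := ih v hv
      obtain ⟨w', hw', h2⟩ := h w hw
      refine ⟨w', hw', ?_⟩
      have h3 := X.add_mem h1 (hp i _ h2)
      convert h3 using 1
      rw [map_sub ((ρ y - 1) ^ i) w, pow_succ, Module.End.mul_apply, LinearMap.sub_apply,
        Module.End.one_apply]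
      abel
  intro v hv
  refine m.mem_of_forall hX fun N hN hNo => ?_
  obtain ⟨r, hr⟩ := exists_comm_iter_mem hG N hN hNo
  obtain ⟨w, -, hw⟩ := key r v hv
  exact ⟨_, by rw [m.iota_t_pow]; exact hr _ _, hw⟩
/-- Nakayama for `T - 1` modulo `p` -/
theorem nak_t (m : Model A ι ρ) (hG : ProP p G) (y : G) {M X : AddSubgroup V}
    (hX : IsClosed (X : Set V)) (hy : ∀ v ∈ X, ρ y v ∈ X) (_hM : ∀ v ∈ M, ρ y v ∈ M)
    (_hp : ∀ v ∈ M, (p : ℤ_[p]) • v ∈ X)
    (h : ∀ v ∈ M, ∃ w ∈ M, v - (ρ y w - w) ∈ X) : M ≤ X := m.nak_t' hG y hX hy h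

end Model

end Pool.Agent.Lib.MP_2dbb30_al.TF
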