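import Pool.Agent.Lib.MP_2dbb30_al.TF.Heis
import Pool.Agent.Lib.MP_2dbb30_al.TF.Model

set_option autoImplicit false
set_option linter.unusedSectionVars false

open Topology Filter
open scoped commutatorElement

namespace Pool.Agent.Lib.MP_2dbb30_al.TF

variable {p : ℕ} [Fact p.Prime] {G : Type*} [Group G] [TopologicalSpace G] [IsTopologicalGroup G]
  [CompactSpace G] [T2Space G] [TotallyDisconnectedSpace G]
  {V : Type*} [AddCommGroup V] [Module ℤ_[p] V] [TopologicalSpace V] [IsTopologicalAddGroup V]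
  {A : Subgroup G} {ι : V → G} {ρ : G →* Module.End ℤ_[p] V}

theorem padic_nat_ind {P : ℤ_[p] → Prop} (hP : IsClosed {a | P a}) (h : ∀ n : ℕ, P n) (a : ℤ_[p]) :
    P a :=
  (PadicInt.denseRange_natCast (p := p)).induction_on a hP h

theorem inv_pw_mem (m : Model A ι ρ) (hG : ProP p G) {M : AddSubgroup V}
    (hM : IsClosed (M : Set V)) {g : G} (hg : ∀ v ∈ M, ρ g v ∈ M) (μ : ℤ_[p]) {v : V}
    (hv : v ∈ M) : ρ (pw hG g μ) v ∈ M := by
  refine padic_nat_ind (P := fun μ => ρ (pw hG g μ) v ∈ M)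
    (hM.preimage ((m.cont_rho' v).comp (continuous_pw hG g))) (fun n => ?_) μ
  rw [pw_natCast]
  induction n with
  | zero => simpa using hv
  | succ n ih => rw [pow_succ', map_mul, Module.End.mul_apply]; exact hg _ ih

/-- the image of `M` under `ρ g - 1` -/
noncomputable def tim (ρ : G →* Module.End ℤ_[p] V) (g : G) (M : AddSubgroup V) : AddSubgroup V :=
  M.map (ρ g - 1 : Module.End ℤ_[p] V).toAddMonoidHom

theorem mem_tim {g : G} {M : AddSubgroup V} {v : V} :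
    v ∈ tim ρ g M ↔ ∃ w ∈ M, ρ g w - w = v := Iff.rfl

/-- the image of `M` under `p` -/
noncomputable def pim (p : ℕ) [Fact p.Prime] {V : Type*} [AddCommGroup V] [Module ℤ_[p] V] (M : AddSubgroup V) :
    AddSubgroup V :=
  M.map (DistribSMul.toAddMonoidHom V (p : ℤ_[p]))

theorem mem_pim {M : AddSubgroup V} {v : V} :
    v ∈ pim p M ↔ ∃ w ∈ M, (p : ℤ_[p]) • w = v := Iff.rfl

theorem isClosed_tim (m : Model A ι ρ) (g : G) {M : AddSubgroup V} (hM : IsClosed (M : Set V)) :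
    IsClosed (tim ρ g M : Set V) := by
  have := m.compactSpace
  have := m.t2Space
  exact (hM.isCompact.image ((m.cont_rho g).sub continuous_id)).isClosed

theorem isClosed_pim (m : Model A ι ρ) {M : AddSubgroup V} (hM : IsClosed (M : Set V)) :
    IsClosed (pim p M : Set V) := by
  have := m.compactSpace
  have := m.t2Space
  exact (hM.isCompact.image (m.cont_smul (p : ℤ_[p]))).isClosed

theorem pw_sub_mem (m : Model A ι ρ) (hG : ProP p G) {M : AddSubgroup V}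
    (hM : IsClosed (M : Set V)) {g : G} (hg : ∀ v ∈ M, ρ g v ∈ M) (μ : ℤ_[p]) {v : V}
    (hv : v ∈ M) : ρ (pw hG g μ) v - v ∈ tim ρ g M := by
  refine padic_nat_ind (P := fun μ => ρ (pw hG g μ) v - v ∈ tim ρ g M)
    ((isClosed_tim m g hM).preimage
      (((m.cont_rho' v).comp (continuous_pw hG g)).sub continuous_const)) (fun n => ?_) μ
  induction n with
  | zero => simp
  | succ n ih =>
    have h1 := inv_pw_mem m hG hM hg n hv
    rw [pw_natCast] at ih h1 ⊢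
    have : ρ (g ^ (n + 1)) v - v = (ρ g (ρ (g ^ n) v) - ρ (g ^ n) v) + (ρ (g ^ n) v - v) := by
      rw [pow_succ', map_mul, Module.End.mul_apply]; abel
    rw [this]
    exact add_mem ⟨_, h1, rfl⟩ ih

theorem pow_sub_eq {M : AddSubgroup V} {g : G} (hg : ∀ v ∈ M, ρ g v ∈ M) (n : ℕ) {v : V}
    (hv : v ∈ M) : ∃ w ∈ M, ρ (g ^ n) v - v = ρ g (n • v + (ρ g w - w)) - (n • v + (ρ g w - w)) := by
  have key : ∀ n : ℕ, ρ (g ^ n) v ∈ M ∧ ∃ u ∈ M, ρ (g ^ n) v - v = ρ g u - u := by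
    intro n
    induction n with
    | zero => exact ⟨by simpa using hv, 0, zero_mem _, by simp⟩
    | succ n ih =>
      obtain ⟨h1, u, hu, h2⟩ := ih
      refine ⟨by rw [pow_succ', map_mul, Module.End.mul_apply]; exact hg _ h1,
        u + ρ (g ^ n) v, add_mem hu h1, ?_⟩
      rw [pow_succ', map_mul, Module.End.mul_apply, map_add]
      have : ρ g u = ρ (g ^ n) v - v + u := by rw [h2]; abel
      rw [this]; abel
  induction n with
  | zero => exact ⟨0, zero_mem _, by simp⟩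
  | succ n ih =>
    obtain ⟨w, hw, h⟩ := ih
    obtain ⟨-, u, hu, h2⟩ := key n
    refine ⟨w + u, add_mem hw hu, ?_⟩
    have h3 : (n + 1) • v + (ρ g (w + u) - (w + u)) =
        (n • v + (ρ g w - w)) + ρ (g ^ n) v := by
      have : ρ (g ^ n) v = ρ g u - u + v := by rw [← h2]; abel
      rw [this, map_add, succ_nsmul]; abel
    rw [h3, map_add, pow_succ', map_mul, Module.End.mul_apply]
    have h4 : ρ g (n • v + (ρ g w - w)) = ρ (g ^ n) v - v + (n • v + (ρ g w - w)) := by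
      rw [h]; abel
    rw [h4]; abel

/-- the closed cyclic module -/
theorem exists_cyc (ρ : G →* Module.End ℤ_[p] V) (y : G) (a : V) :
    ∃ M : AddSubgroup V, IsClosed (M : Set V) ∧ a ∈ M ∧ (∀ v ∈ M, ρ y v ∈ M) ∧
      ∀ X : AddSubgroup V, IsClosed (X : Set V) → a ∈ X → (∀ v ∈ X, ρ y v ∈ X) → M ≤ X := by
  refine ⟨sInf {X | IsClosed (X : Set V) ∧ a ∈ X ∧ ∀ v ∈ X, ρ y v ∈ X}, ?_, ?_, ?_, ?_⟩
  · rw [AddSubgroup.coe_sInf]
    exact isClosed_biInter fun X hX => hX.1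
  · exact AddSubgroup.mem_sInf.2 fun X hX => hX.2.1
  · intro v hv
    exact AddSubgroup.mem_sInf.2 fun X hX => hX.2.2 v (AddSubgroup.mem_sInf.1 hv X hX)
  · intro X h1 h2 h3
    exact sInf_le ⟨h1, h2, h3⟩

theorem gen_cyc (m : Model A ι ρ) {y : G} {a : V} {M : AddSubgroup V} (hM : IsClosed (M : Set V))
    (ha : a ∈ M) (hy : ∀ v ∈ M, ρ y v ∈ M)
    (hmin : ∀ X : AddSubgroup V, IsClosed (X : Set V) → a ∈ X → (∀ v ∈ X, ρ y v ∈ X) → M ≤ X)
    {v : V} (hv : v ∈ M) :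
    ∃ (i : ℕ) (w : V) (w' : V), w ∈ M ∧ w' ∈ M ∧ v = i • a + (p : ℤ_[p]) • w + (ρ y w' - w') := by
  have := m.compactSpace
  have := m.t2Space
  let X : AddSubgroup V :=
    { carrier := (fun q : ℤ_[p] × V => q.1 • a + (ρ y q.2 - q.2)) '' (Set.univ ×ˢ (M : Set V))
      zero_mem' := ⟨(0, 0), ⟨trivial, zero_mem M⟩, by simp⟩
      add_mem' := by
        rintro _ _ ⟨⟨c, w⟩, ⟨-, hw⟩, rfl⟩ ⟨⟨c', w'⟩, ⟨-, hw'⟩, rfl⟩
        refine ⟨(c + c', w + w'), ⟨trivial, add_mem hw hw'⟩, ?_⟩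
        simp only [add_smul, map_add]; abel
      neg_mem' := by
        rintro _ ⟨⟨c, w⟩, ⟨-, hw⟩, rfl⟩
        refine ⟨(-c, -w), ⟨trivial, neg_mem hw⟩, ?_⟩
        simp only [neg_smul, map_neg]; abel }
  have hX : IsClosed (X : Set V) :=
    ((isCompact_univ.prod hM.isCompact).image (((m.smul a).comp continuous_fst).add
      (((m.cont_rho y).comp continuous_snd).sub continuous_snd))).isClosed
  have hle : M ≤ X := hmin X hX ⟨(1, 0), ⟨trivial, zero_mem M⟩, by simp⟩ (by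
    rintro _ ⟨⟨c, w⟩, ⟨-, hw⟩, rfl⟩
    refine ⟨(c, c • a + ρ y w), ⟨trivial, add_mem (m.smul_mem hM c ha) (hy w hw)⟩, ?_⟩
    simp only [map_add, map_sub, map_smul]; abel)
  obtain ⟨⟨c, w'⟩, ⟨-, hw'⟩, rfl⟩ := hle hv
  have h1 := Ideal.mem_span_singleton.1 (PadicInt.appr_spec 1 c)
  obtain ⟨c', hc'⟩ := h1
  refine ⟨c.appr 1, c' • a, w', m.smul_mem hM c' ha, hw', ?_⟩
  have : c = (c.appr 1 : ℤ_[p]) + p * c' := by rw [pow_one] at hc'; rw [← hc']; ring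
  simp only []
  conv_lhs => rw [this]
  rw [add_smul, mul_smul, Nat.cast_smul_eq_nsmul]

theorem mem_H (m : Model A ι ρ) (hG : ProP p G) {y : G} {a : V} {M : AddSubgroup V}
    (hM : IsClosed (M : Set V)) (ha : a ∈ M) (hy : ∀ v ∈ M, ρ y v ∈ M) {h : G}
    (hh : h ∈ (Subgroup.closure ({ι a, y} : Set G)).topologicalClosure) :
    ∃ v ∈ M, ∃ μ : ℤ_[p], h = ι v * pw hG y μ := by
  have := m.compactSpace
  let K : Subgroup G :=
    { carrier := (fun q : V × ℤ_[p] => ι q.1 * pw hG y q.2) '' ((M : Set V) ×ˢ Set.univ)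
      one_mem' := ⟨(0, 0), ⟨zero_mem M, trivial⟩, by simp [m.zero]⟩
      mul_mem' := by
        rintro _ _ ⟨⟨v, μ⟩, ⟨hv, -⟩, rfl⟩ ⟨⟨w, ν⟩, ⟨hw, -⟩, rfl⟩
        refine ⟨(v + ρ (pw hG y μ) w, μ + ν),
          ⟨add_mem hv (inv_pw_mem m hG hM hy μ hw), trivial⟩, ?_⟩
        simp only [m.add, m.conj, pw_add]; group
      inv_mem' := by
        rintro _ ⟨⟨v, μ⟩, ⟨hv, -⟩, rfl⟩
        refine ⟨(-ρ (pw hG y (-μ)) v, -μ),
          ⟨neg_mem (inv_pw_mem m hG hM hy (-μ) hv), trivial⟩, ?_⟩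
        simp only [m.neg, m.conj, pw_neg]; group }
  have hK : IsClosed (K : Set G) :=
    ((hM.isCompact.prod isCompact_univ).image ((m.emb.continuous.comp continuous_fst).mul
      ((continuous_pw hG y).comp continuous_snd))).isClosed
  have hle : (Subgroup.closure ({ι a, y} : Set G)).topologicalClosure ≤ K := by
    refine Subgroup.topologicalClosure_minimal _ ?_ hK
    rw [Subgroup.closure_le]
    rintro g (rfl | rfl)
    · exact ⟨(a, 0), ⟨ha, trivial⟩, by simp⟩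
    · exact ⟨(0, 1), ⟨zero_mem M, trivial⟩, by simp [m.zero]⟩
  obtain ⟨⟨v, μ⟩, ⟨hv, -⟩, rfl⟩ := hle hh
  exact ⟨v, hv, μ, rfl⟩

theorem index_facts {H D : Subgroup G} (hn : ∀ h ∈ H, ∀ d ∈ D, h * d * h⁻¹ ∈ D)
    (hi : D.relIndex H = p) :
    (∀ h ∈ H, h ^ p ∈ D) ∧ (∀ h ∈ H, ∀ k ∈ H, h * k * h⁻¹ * k⁻¹ ∈ D) ∧
      (∀ u ∈ H, u ∉ D → ∀ h ∈ H, ∃ i : ℕ, (u ^ i)⁻¹ * h ∈ D) ∧
      (∀ u ∈ H, u ∉ D → ∀ i : ℕ, u ^ i ∈ D → p ∣ i) := by
  have hN : (D.subgroupOf H).Normal := ⟨fun n hn' g => hn g g.2 n hn'⟩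
  have hc : Nat.card (H ⧸ D.subgroupOf H) = p := hi
  have hp : p.Prime := Fact.out
  have : Finite (H ⧸ D.subgroupOf H) := Nat.finite_of_card_ne_zero (hc ▸ hp.ne_zero)
  have hcyc : IsCyclic (H ⧸ D.subgroupOf H) := isCyclic_of_prime_card hc
  have hone : ∀ x : H, (x : H ⧸ D.subgroupOf H) = 1 ↔ (x : G) ∈ D := fun x =>
    QuotientGroup.eq_one_iff x
  refine ⟨fun h hh => ?_, fun h hh k hk => ?_, fun u hu huD h hh => ?_, fun u hu huD i hi' => ?_⟩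
  · have := (D.subgroupOf H).pow_index_mem ⟨h, hh⟩
    rw [show (D.subgroupOf H).index = p from hi] at this
    exact this
  · have := (hone (⟨h, hh⟩ * ⟨k, hk⟩ * ⟨h, hh⟩⁻¹ * ⟨k, hk⟩⁻¹)).1 (by
      simp only [QuotientGroup.mk_mul, QuotientGroup.mk_inv]
      rw [hcyc.isMulCommutative.is_comm.comm ((⟨h, hh⟩ : H) : H ⧸ D.subgroupOf H)]
      group)
    exact this
  · have h1 : ((⟨u, hu⟩ : H) : H ⧸ D.subgroupOf H) ≠ 1 := fun h => huD ((hone _).1 h)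
    obtain ⟨i, hi'⟩ := mem_powers_of_prime_card hc h1 (g' := ((⟨h, hh⟩ : H) : H ⧸ D.subgroupOf H))
    refine ⟨i, ?_⟩
    simp only [← QuotientGroup.mk_pow] at hi'
    exact (QuotientGroup.eq (s := D.subgroupOf H)).1 hi'
  · have h1 : ((⟨u, hu⟩ : H) : H ⧸ D.subgroupOf H) ≠ 1 := fun h => huD ((hone _).1 h)
    have h2 : ((⟨u, hu⟩ : H) : H ⧸ D.subgroupOf H) ^ i = 1 := by
      rw [← QuotientGroup.mk_pow]; exact (hone _).2 hi'
    have h3 := orderOf_dvd_of_pow_eq_one h2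
    rwa [orderOf_eq_prime (hc ▸ pow_card_eq_one') h1] at h3

theorem rho_comm (hG : ProP p G) (y : G) (μ ν : ℤ_[p]) (v : V) :
    ρ (pw hG y μ) (ρ (pw hG y ν) v) = ρ (pw hG y ν) (ρ (pw hG y μ) v) := by
  rw [← Module.End.mul_apply, ← Module.End.mul_apply, ← map_mul, ← map_mul, ← pw_add, ← pw_add,
    add_comm]

theorem kl' (m : Model A ι ρ) (hG : ProP p G) (htf : ∀ g : G, IsOfFinOrder g → g = 1)
    (hve : HVE p G) (y : G) (a : V) :
    (∃ e : ℕ, ρ (y ^ p ^ e) a = a) ∨ (∃ c : ℤ_[p], ρ y a = c • a) ∨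
      ∀ X : AddSubgroup V, IsClosed (X : Set V) → a ∈ X → (∀ v ∈ X, ρ y v ∈ X) →
        ∃ w ∈ X, (p : ℤ_[p]) • a = ρ y w - w := by
  classical
  have hp : p.Prime := Fact.out
  have hp0 : (p : ℤ_[p]) ≠ 0 := Nat.cast_ne_zero.2 hp.ne_zero
  have htp : ∀ v : V, (p : ℤ_[p]) • v = 0 → v = 0 := fun v h => (m.tf htf h).resolve_left hp0
  by_cases ha0 : a = 0
  · exact Or.inl ⟨0, by simp [ha0]⟩
  have ha1 : ι a ≠ 1 := fun h => ha0 (m.inj (h.trans m.zero.symm))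
  obtain ⟨M, hM, ha, hy, hmin⟩ := exists_cyc ρ y a
  obtain ⟨D, f, hDH, hDn, hDi, hf, hfH, hs⟩ := hve (ι a) y ha1
  set H := (Subgroup.closure ({ι a, y} : Set G)).topologicalClosure with hH
  have hHc : IsClosed (H : Set G) := Subgroup.isClosed_topologicalClosure _
  have haH : ι a ∈ H := Subgroup.le_topologicalClosure _ (Subgroup.subset_closure (by simp))
  have hyH : y ∈ H := Subgroup.le_topologicalClosure _ (Subgroup.subset_closure (by simp))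
  have hMH : ∀ v ∈ M, ι v ∈ H := by
    let X : AddSubgroup V :=
      { carrier := ι ⁻¹' H
        zero_mem' := by simp [m.zero]
        add_mem' := fun h1 h2 => by
          simp only [Set.mem_preimage, m.add]; exact H.mul_mem h1 h2
        neg_mem' := fun h1 => by
          simp only [Set.mem_preimage, m.neg]; exact H.inv_mem h1 }
    exact hmin X (hHc.preimage m.emb.continuous) haH fun v hv => by
      change ι (ρ y v) ∈ H
      rw [m.conj]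
      exact H.mul_mem (H.mul_mem hyH hv) (H.inv_mem hyH)
  have hdec : ∀ h ∈ H, ∃ v ∈ M, ∃ μ : ℤ_[p], h = ι v * pw hG y μ :=
    fun h hh => mem_H m hG hM ha hy hh
  have hact : ∀ (v : V) (g : G) (w : V), ρ (ι v * g) w = ρ g w := fun v g w => by
    rw [map_mul, Module.End.mul_apply, m.rho_iota]
  obtain ⟨hpow, hcom, hgen, hdvd⟩ := index_facts hDn hDi
  have hf1 : f 1 = 1 := by
    have := hf 1 D.one_mem 1 D.one_mem
    rw [mul_one] at this
    exact (mul_eq_left.1 this.symm)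
  have hfi : ∀ d ∈ D, f d⁻¹ = (f d)⁻¹ := fun d hd => by
    apply eq_inv_of_mul_eq_one_left
    rw [← hf _ (D.inv_mem hd) _ hd, inv_mul_cancel, hf1]
  have hfp : ∀ d ∈ D, ∀ n : ℕ, f (d ^ n) = f d ^ n := fun d hd n => by
    induction n with
    | zero => simpa using hf1
    | succ n ih => rw [pow_succ, hf _ (D.pow_mem hd n) _ hd, ih, pow_succ]
  have hfc : ∀ d ∈ D, ∀ k ∈ D, f (d * k * d⁻¹) = f d * f k * (f d)⁻¹ := fun d hd k hk => by
    rw [hf _ (D.mul_mem hd hk) _ (D.inv_mem hd), hf _ hd _ hk, hfi d hd]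
  have hpD : ∀ v ∈ M, ι ((p : ℤ_[p]) • v) ∈ D := fun v hv => by
    rw [Nat.cast_smul_eq_nsmul, m.nsmul]; exact hpow _ (hMH v hv)
  have htD : ∀ h ∈ H, ∀ v ∈ M, ι (ρ h v - v) ∈ D := fun h hh v hv => by
    rw [m.sub, m.conj]; exact hcom _ hh _ (hMH v hv)
  have hpM : ∀ v ∈ M, (p : ℤ_[p]) • v ∈ M := fun v hv => m.smul_mem hM _ hv
  have hHM : ∀ h ∈ H, ∀ v ∈ M, ρ h v ∈ M := fun h hh v hv => by
    obtain ⟨w, -, μ, rfl⟩ := hdec h hh
    rw [hact]; exact inv_pw_mem m hG hM hy μ hv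
  have hHH : ∀ h ∈ H, ∀ k ∈ H, ∀ v, ρ h (ρ k v) = ρ k (ρ h v) := fun h hh k hk v => by
    obtain ⟨w, -, μ, rfl⟩ := hdec h hh
    obtain ⟨w', -, ν, rfl⟩ := hdec k hk
    simp only [hact]; exact rho_comm hG y μ ν v
  have core : ∀ X : AddSubgroup V, (∀ x ∈ X, ι x ∈ D) → (∀ h ∈ H, ∀ x ∈ X, ρ h x ∈ X) →
      (∀ x ∈ X, ∃ x' ∈ X, f (ι x) = ι x') → ∀ x ∈ X, x = 0 := by
    intro X h1 h2 h3 x hx
    let N : Subgroup G :=
      { carrier := ι '' X
        one_mem' := ⟨0, X.zero_mem, m.zero⟩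
        mul_mem' := by
          rintro _ _ ⟨u, hu, rfl⟩ ⟨w, hw, rfl⟩
          exact ⟨u + w, X.add_mem hu hw, m.add u w⟩
        inv_mem' := by
          rintro _ ⟨u, hu, rfl⟩
          exact ⟨-u, X.neg_mem hu, m.neg u⟩ }
    have hN := hs N (by rintro _ ⟨u, hu, rfl⟩; exact h1 u hu)
      (by rintro h hh _ ⟨u, hu, rfl⟩; exact ⟨_, h2 h hh u hu, m.conj h u⟩)
      (by
        rintro _ ⟨u, hu, rfl⟩
        obtain ⟨u', hu', h⟩ := h3 u hu
        exact ⟨u', hu', h.symm⟩)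
    have : ι x ∈ N := ⟨x, hx, rfl⟩
    rw [hN, Subgroup.mem_bot] at this
    exact m.inj (this.trans m.zero.symm)
  by_cases hI : ∀ v ∈ M, ι v ∈ D → ∃ w ∈ M, f (ι v) = ι w
  swap
  · -- the image leaves `M`
    push Not at hI
    obtain ⟨v, hv, hvD, hI⟩ := hI
    obtain ⟨w, hw, μ, hμ⟩ := hdec _ (hfH _ hvD)
    have hμ0 : μ ≠ 0 := by
      rintro rfl
      exact hI w hw (by simpa using hμ)
    obtain ⟨e, u, hu⟩ : ∃ (e : ℕ) (u : ℤ_[p]ˣ), μ = u * (p : ℤ_[p]) ^ e :=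
      ⟨_, _, PadicInt.unitCoeff_spec hμ0⟩
    set d := y ^ p ^ (e + 1) with hd
    have hd' : d = (y ^ p) ^ p ^ e := by rw [hd, ← pow_mul, pow_succ']
    have hdD : d ∈ D := hd' ▸ D.pow_mem (hpow y hyH) _
    have hdH : d ∈ H := hDH hdD
    obtain ⟨w', -, ν, hν⟩ := hdec _ (hfH _ (hpow y hyH))
    have hfd : ∀ c, ρ (f d) c = ρ (pw hG y (ν * (p : ℤ_[p]) ^ e)) c := fun c => by
      have : ρ (f (y ^ p)) = ρ (pw hG y ν) := LinearMap.ext fun c => by rw [hν, hact]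
      rw [hd', hfp _ (hpow y hyH), map_pow, this, ← map_pow, pw_pow, Nat.cast_pow]
    have hkill : ∀ b ∈ M, f (ι (ρ d (ρ d ((p : ℤ_[p]) • b) - (p : ℤ_[p]) • b) -
        (ρ d ((p : ℤ_[p]) • b) - (p : ℤ_[p]) • b))) = 1 := by
      intro b hb
      set c := ρ d ((p : ℤ_[p]) • b) - (p : ℤ_[p]) • b with hc
      have hcD : ι c ∈ D := htD d hdH _ (hpM b hb)
      obtain ⟨c', hc'⟩ : ∃ c', f (ι c) = ι c' := by
        obtain ⟨w1, -, μ1, h1⟩ := hdec _ (hfH _ hdD)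
        obtain ⟨w2, -, μ2, h2⟩ := hdec _ (hfH _ (hpD b hb))
        refine ⟨w1 + ρ (pw hG y μ1) w2 - ρ (pw hG y μ2) w1 - w2, ?_⟩
        rw [hc, m.sub, m.conj, hf _ (hDn _ hdH _ (hpD b hb)) _ (D.inv_mem (hpD b hb)),
          hfc _ hdD _ (hpD b hb), hfi _ (hpD b hb), h1, h2, m.sub, m.sub, m.add, m.conj, m.conj]
        have h3 := (commute_pw hG (Commute.refl y) μ1 μ2).eq
        calc _ = ι w1 * pw hG y μ1 * ι w2 * (pw hG y μ2 * (pw hG y μ1)⁻¹) * (ι w1)⁻¹ *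
              (pw hG y μ2)⁻¹ * (ι w2)⁻¹ := by group
          _ = ι w1 * pw hG y μ1 * ι w2 * ((pw hG y μ1)⁻¹ * pw hG y μ2) * (ι w1)⁻¹ *
              (pw hG y μ2)⁻¹ * (ι w2)⁻¹ := by
            rw [(commute_pw hG (Commute.refl y) μ2 μ1).inv_right.eq]
          _ = _ := by group
      have hfix : ρ (pw hG y μ) c' = c' := by
        apply m.inj
        rw [← hact w, ← hμ, m.conj, ← hc', ← hfc _ hvD _ hcD, ← m.conj, m.rho_iota]
      have hfix' : ρ (f d) c' = c' := by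
        rw [hfd]
        have h4 : ν * (p : ℤ_[p]) ^ e = μ * (((u⁻¹ : ℤ_[p]ˣ) : ℤ_[p]) * ν) := by
          rw [hu]
          have := u.mul_inv
          linear_combination (-(ν * (p : ℤ_[p]) ^ e)) * this
        rw [h4, pw_mul]
        apply m.inj
        have h5 : Commute (pw hG y μ) (ι c') := by
          have := m.conj (pw hG y μ) c'
          rw [hfix] at this
          exact (mul_inv_eq_iff_eq_mul.1 this.symm)
        rw [m.conj, (commute_pw_left hG h5 _).eq, mul_inv_cancel_right]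
      rw [m.sub, m.conj, hf _ (hDn _ hdH _ hcD) _ (D.inv_mem hcD), hfc _ hdD _ hcD, hfi _ hcD, hc',
        ← m.conj, hfix', mul_inv_cancel]
    have h0 := core (tim ρ d (tim ρ d (pim p M)))
      (by
        rintro _ ⟨_, ⟨_, ⟨b, hb, rfl⟩, rfl⟩, rfl⟩
        exact htD d hdH _ (M.sub_mem (hHM d hdH _ (hpM b hb)) (hpM b hb)))
      (by
        rintro h hh _ ⟨_, ⟨_, ⟨b, hb, rfl⟩, rfl⟩, rfl⟩
        refine mem_tim.2 ⟨_, mem_tim.2 ⟨_, mem_pim.2 ⟨ρ h b, hHM h hh b hb, rfl⟩, rfl⟩, ?_⟩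
        change _ = ρ h (ρ d (ρ d ((p : ℤ_[p]) • b) - (p : ℤ_[p]) • b) -
          (ρ d ((p : ℤ_[p]) • b) - (p : ℤ_[p]) • b))
        simp only [map_sub, map_smul, hHH h hh d hdH])
      (by
        rintro _ ⟨_, ⟨_, ⟨b, hb, rfl⟩, rfl⟩, rfl⟩
        exact ⟨0, zero_mem _, (hkill b hb).trans m.zero.symm⟩)
      _ (mem_tim.2 ⟨_, mem_tim.2 ⟨_, mem_pim.2 ⟨a, ha, rfl⟩, rfl⟩, rfl⟩)
    have h1 : ρ d (ρ d a - a) = ρ d a - a := by
      rw [← sub_eq_zero]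
      apply htp
      rw [← h0]
      simp only [map_sub, map_smul, smul_sub]
    have h2 : ⁅d, ι a⁆ = ι (ρ d a - a) := by rw [m.sub, m.conj, commutatorElement_def]
    have h3 := comm_eq_one htf hve d (ι a)
      (by
        rw [h2]
        have := m.conj d (ρ d a - a)
        rw [h1] at this
        exact (mul_inv_eq_iff_eq_mul.1 this.symm).symm)
      (by rw [h2]; change _ * _ = _ * _; rw [← m.add, ← m.add, add_comm])
    refine Or.inl ⟨e + 1, ?_⟩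
    rw [← sub_eq_zero]
    exact m.inj (by rw [← h2, h3, m.zero])
  -- the image stays in `M`
  choose! φ hφM hφ using hI
  have haD : ι a ∉ D := by
    intro haD
    have hall : ∀ v ∈ M, ι v ∈ D := fun v hv => by
      obtain ⟨i, w, w', hw, hw', rfl⟩ := gen_cyc m hM ha hy hmin hv
      rw [m.add, m.add, m.nsmul]
      exact D.mul_mem (D.mul_mem (D.pow_mem haD i) (hpD w hw)) (htD y hyH w' hw')
    exact ha0 (core M hall hHM (fun v hv => ⟨φ v, hφM v hv (hall v hv), hφ v hv (hall v hv)⟩) a ha)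
  have hM1 : ∀ v ∈ M, ι v ∈ D → ∃ w ∈ M, ∃ w' ∈ M, v = (p : ℤ_[p]) • w + (ρ y w' - w') := by
    intro v hv hvD
    obtain ⟨i, w, w', hw, hw', rfl⟩ := gen_cyc m hM ha hy hmin hv
    rw [m.add, m.add, m.nsmul] at hvD
    have h1 := (D.mul_mem_cancel_right (hpD w hw)).1
      ((D.mul_mem_cancel_right (htD y hyH w' hw')).1 hvD)
    obtain ⟨j, rfl⟩ := hdvd _ haH haD i h1
    refine ⟨j • a + w, M.add_mem (M.nsmul_mem ha j) hw, w', hw', ?_⟩
    rw [smul_add, mul_smul, Nat.cast_smul_eq_nsmul ℤ_[p] p (j • a)]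
  have hM1D : ∀ w ∈ M, ∀ w' ∈ M, ι ((p : ℤ_[p]) • w + (ρ y w' - w')) ∈ D := fun w hw w' hw' => by
    rw [m.add]; exact D.mul_mem (hpD w hw) (htD y hyH w' hw')
  have htM : ∀ v ∈ M, ρ y v - v ∈ M := fun v hv => M.sub_mem (hy v hv) hv
  have hφadd : ∀ v ∈ M, ι v ∈ D → ∀ w ∈ M, ι w ∈ D → φ (v + w) = φ v + φ w := by
    intro v hv hvD w hw hwD
    apply m.inj
    rw [m.add, ← hφ v hv hvD, ← hφ w hw hwD, ← hf _ hvD _ hwD, ← m.add,
      hφ _ (M.add_mem hv hw) (by rw [m.add]; exact D.mul_mem hvD hwD)]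
  have hφn : ∀ v ∈ M, ι v ∈ D → ∀ n : ℕ, φ (n • v) = n • φ v := by
    intro v hv hvD n
    apply m.inj
    rw [m.nsmul, ← hφ v hv hvD, ← hfp _ hvD, ← m.nsmul,
      hφ _ (M.nsmul_mem hv n) (by rw [m.nsmul]; exact D.pow_mem hvD n)]
  have hφp : ∀ v ∈ M, ι v ∈ D → φ ((p : ℤ_[p]) • v) = (p : ℤ_[p]) • φ v := fun v hv hvD => by
    rw [Nat.cast_smul_eq_nsmul, Nat.cast_smul_eq_nsmul, hφn v hv hvD]
  obtain ⟨y', hy'D, hy'⟩ : ∃ y' ∈ D, ∀ v, ρ y' v = ρ y v := by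
    obtain ⟨i, hi⟩ := hgen _ haH haD y hyH
    exact ⟨_, hi, fun v => by rw [← m.nsmul, ← m.neg, hact]⟩
  obtain ⟨w0, -, k, hk⟩ := hdec _ (hfH _ hy'D)
  set z := pw hG y k with hz
  have hφt : ∀ v ∈ M, ι v ∈ D → φ (ρ y v - v) = ρ z (φ v) - φ v := by
    intro v hv hvD
    apply m.inj
    rw [← hφ _ (htM v hv) (htD y hyH v hv), ← hact w0 z, ← hk, m.sub, m.sub, ← hy', m.conj, m.conj,
      hf _ (hDn _ (hDH hy'D) _ hvD) _ (D.inv_mem hvD), hfc _ hy'D _ hvD, hfi _ hvD, hφ v hv hvD]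
  let M0 : AddSubgroup V :=
    { carrier := {v | v ∈ M ∧ ι v ∈ D}
      zero_mem' := ⟨M.zero_mem, by rw [m.zero]; exact D.one_mem⟩
      add_mem' := fun h1 h2 => ⟨M.add_mem h1.1 h2.1, by rw [m.add]; exact D.mul_mem h1.2 h2.2⟩
      neg_mem' := fun h1 => ⟨M.neg_mem h1.1, by rw [m.neg]; exact D.inv_mem h1.2⟩ }
  have hM0H : ∀ h ∈ H, ∀ v ∈ M0, ρ h v ∈ M0 := fun h hh v hv =>
    ⟨hHM h hh v hv.1, by rw [m.conj]; exact hDn h hh _ hv.2⟩
  by_cases hku : IsUnit k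
  swap
  · -- the exponent is divisible by `p`
    obtain ⟨k', hk'⟩ : (p : ℤ_[p]) ∣ k := by
      rw [← PadicInt.norm_lt_one_iff_dvd]
      exact PadicInt.not_isUnit_iff.1 hku
    have hyp : ∀ v ∈ M, ρ (y ^ p) v ∈ M := hHM _ (H.pow_mem hyH p)
    have h0 := core (tim ρ y M0)
      (by rintro _ ⟨v, hv, rfl⟩; exact htD y hyH v hv.1)
      (by
        rintro h hh _ ⟨v, hv, rfl⟩
        refine mem_tim.2 ⟨_, hM0H h hh v hv, ?_⟩
        change _ = ρ h (ρ y v - v)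
        rw [map_sub, hHH h hh y hyH])
      (by
        rintro _ ⟨v, hv, rfl⟩
        refine ⟨φ (ρ y v - v), ?_, hφ _ (htM v hv.1) (htD y hyH v hv.1)⟩
        rw [hφt v hv.1 hv.2, hz, hk', ← pow_pw]
        obtain ⟨w, hw, h1⟩ := mem_tim.1 (pw_sub_mem m hG hM hyp k' (hφM v hv.1 hv.2))
        obtain ⟨w', hw', h2⟩ := pow_sub_eq hy p hw
        rw [← h1, h2]
        refine mem_tim.2 ⟨_, ⟨M.add_mem (M.nsmul_mem hw p) (htM w' hw'), ?_⟩, rfl⟩
        rw [← Nat.cast_smul_eq_nsmul ℤ_[p]]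
        exact hM1D w hw w' hw')
      _ (mem_tim.2 ⟨_, ⟨hpM a ha, hpD a ha⟩, rfl⟩)
    refine Or.inl ⟨0, ?_⟩
    rw [pow_zero, pow_one, ← sub_eq_zero]
    apply htp
    rw [← h0, map_smul, smul_sub]
  have hzM : ∀ v ∈ M, ρ z v ∈ M := fun v hv => inv_pw_mem m hG hM hy k hv
  have hzt : ∀ v ∈ M, ρ z v - v ∈ tim ρ y M := fun v hv => pw_sub_mem m hG hM hy k hv
  set u := φ ((p : ℤ_[p]) • a) with hu
  set v := φ (ρ y a - a) with hv
  have huM : u ∈ M := hφM _ (hpM a ha) (hpD a ha)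
  have hvM : v ∈ M := hφM _ (htM a ha) (htD y hyH a ha)
  have hrel : ρ z u - u = (p : ℤ_[p]) • v := by
    rw [hu, hv, ← hφt _ (hpM a ha) (hpD a ha), ← hφp _ (htM a ha) (htD y hyH a ha), map_smul,
      smul_sub]
  have hgen' : ∀ b ∈ M, ι b ∉ D → ∀ w ∈ M, ∃ (i : ℕ), ∃ w1 ∈ M, ∃ w2 ∈ M,
      w = i • b + ((p : ℤ_[p]) • w1 + (ρ y w2 - w2)) := by
    intro b hb hbD w hw
    obtain ⟨i, hi⟩ := hgen _ (hMH b hb) hbD _ (hMH w hw)
    rw [← m.nsmul, ← m.neg, ← m.add] at hi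
    obtain ⟨w1, h1, w2, h2, h3⟩ := hM1 _ (M.add_mem (M.neg_mem (M.nsmul_mem hb i)) hw) hi
    exact ⟨i, w1, h1, w2, h2, by rw [← h3]; abel⟩
  by_cases huD : ι u ∈ D
  swap
  · let X : AddSubgroup V :=
      (pim p M).comap (ρ z - 1 : Module.End ℤ_[p] V).toAddMonoidHom
    have hX : ∀ w, w ∈ X ↔ ρ z w - w ∈ pim p M := fun w => Iff.rfl
    have hle : M ≤ X := by
      refine m.nak_t hG y ((isClosed_pim m hM).preimage ((m.cont_rho z).sub continuous_id))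
        (fun w hw => ?_) hy (fun w hw => ?_) fun w hw => ?_
      · obtain ⟨b, hb, h⟩ := mem_pim.1 ((hX w).1 hw)
        refine (hX _).2 (mem_pim.2 ⟨_, hy b hb, ?_⟩)
        rw [← map_smul, h, map_sub, hHH y hyH z (pw_mem hG hHc hyH k)]
      · exact (hX _).2 (mem_pim.2 ⟨_, M.sub_mem (hzM w hw) hw, by rw [map_smul, smul_sub]⟩)
      · obtain ⟨i, w1, h1, w2, h2, rfl⟩ := hgen' u huM huD w hw
        refine ⟨w2, h2, ?_⟩
        have : i • u + ((p : ℤ_[p]) • w1 + (ρ y w2 - w2)) - (ρ y w2 - w2) =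
            i • u + (p : ℤ_[p]) • w1 := by abel
        rw [this]
        exact X.add_mem (X.nsmul_mem ((hX u).2 (mem_pim.2 ⟨v, hvM, hrel.symm⟩)) i)
          ((hX _).2 (mem_pim.2 ⟨_, M.sub_mem (hzM w1 h1) h1, by rw [map_smul, smul_sub]⟩))
    have htp' : ∀ w ∈ M, ρ y w - w ∈ pim p M := by
      intro w hw
      obtain ⟨k', hk'⟩ := hku.exists_right_inv
      have h1 := pw_sub_mem m hG hM hzM k' hw
      rw [hz, ← pw_mul, hk', pw_one] at h1
      obtain ⟨b, hb, h2⟩ := mem_tim.1 h1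
      rw [← h2]
      exact (hX b).1 (hle hb)
    have hsp : M ≤ (Submodule.span ℤ_[p] (({a} : Finset V) : Set V)).toAddSubgroup := by
      refine m.nak_p hG (m.isClosed_span {a}) fun w hw => ?_
      obtain ⟨i, w1, w2, h1, h2, rfl⟩ := gen_cyc m hM ha hy hmin hw
      obtain ⟨b, hb, h3⟩ := mem_pim.1 (htp' w2 h2)
      refine ⟨w1 + b, M.add_mem h1 hb, ?_⟩
      have : i • a + (p : ℤ_[p]) • w1 + (ρ y w2 - w2) - (p : ℤ_[p]) • (w1 + b) = i • a := by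
        rw [← h3, smul_add]; abel
      rw [this]
      exact AddSubgroup.nsmul_mem _ (Submodule.subset_span (by simp)) i
    have h4 : ρ y a ∈ Submodule.span ℤ_[p] (({a} : Finset V) : Set V) := hsp (hy a ha)
    rw [Finset.coe_singleton, Submodule.mem_span_singleton] at h4
    obtain ⟨c, hc⟩ := h4
    exact Or.inr (Or.inl ⟨c, hc.symm⟩)
  by_cases hvD : ι v ∈ D
  swap
  · let Y : AddSubgroup V := (tim ρ y M).comap (DistribSMul.toAddMonoidHom V (p : ℤ_[p]))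
    have hY : ∀ w, w ∈ Y ↔ (p : ℤ_[p]) • w ∈ tim ρ y M := fun w => Iff.rfl
    have hle : M ≤ Y := by
      refine m.nak_p hG ((isClosed_tim m y hM).preimage (m.cont_smul _)) fun w hw => ?_
      obtain ⟨i, w1, h1, w2, h2, rfl⟩ := hgen' v hvM hvD w hw
      refine ⟨w1, h1, ?_⟩
      have : i • v + ((p : ℤ_[p]) • w1 + (ρ y w2 - w2)) - (p : ℤ_[p]) • w1 =
          i • v + (ρ y w2 - w2) := by abel
      rw [this]
      exact Y.add_mem (Y.nsmul_mem ((hY v).2 (hrel ▸ hzt u huM)) i)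
        ((hY _).2 (mem_tim.2 ⟨_, hpM w2 h2, by rw [map_smul, smul_sub]⟩))
    obtain ⟨w, hwM, hw⟩ := mem_tim.1 ((hY a).1 (hle ha))
    exact Or.inr (Or.inr fun X h1 h2 h3 => ⟨w, hmin X h1 h2 h3 hwM, hw.symm⟩)
  exfalso
  have hstep : ∀ w ∈ M, ι (φ ((p : ℤ_[p]) • w)) ∈ D ∧ ι (φ (ρ y w - w)) ∈ D := by
    intro w hw
    obtain ⟨i, w1, w2, h1, h2, h3⟩ := gen_cyc m hM ha hy hmin hw
    set b := (p : ℤ_[p]) • w1 + (ρ y w2 - w2) with hb
    have hbM : b ∈ M := M.add_mem (hpM w1 h1) (htM w2 h2)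
    have hbD : ι b ∈ D := hM1D w1 h1 w2 h2
    have h4 : w = i • a + b := by rw [h3, hb, add_assoc]
    constructor
    · have : (p : ℤ_[p]) • w = i • ((p : ℤ_[p]) • a) + (p : ℤ_[p]) • b := by
        rw [h4, smul_add, smul_comm]
      rw [this, hφadd _ (M.nsmul_mem (hpM a ha) i)
        (by rw [m.nsmul]; exact D.pow_mem (hpD a ha) i) _ (hpM b hbM) (hpD b hbM),
        hφn _ (hpM a ha) (hpD a ha), hφp b hbM hbD, m.add, m.nsmul]
      exact D.mul_mem (D.pow_mem huD i) (hpD _ (hφM b hbM hbD))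
    · have : ρ y w - w = i • (ρ y a - a) + (ρ y b - b) := by
        rw [h4, map_add, map_nsmul, smul_sub]; abel
      rw [this, hφadd _ (M.nsmul_mem (htM a ha) i)
        (by rw [m.nsmul]; exact D.pow_mem (htD y hyH a ha) i) _ (htM b hbM) (htD y hyH b hbM),
        hφn _ (htM a ha) (htD y hyH a ha), hφt b hbM hbD, m.add, m.nsmul]
      exact D.mul_mem (D.pow_mem hvD i) (htD z (pw_mem hG hHc hyH k) _ (hφM b hbM hbD))
  refine ha0 (htp a (core M0 (fun w hw => hw.2) hM0H (fun w hw => ?_) _ ⟨hpM a ha, hpD a ha⟩))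
  refine ⟨φ w, ⟨hφM w hw.1 hw.2, ?_⟩, hφ w hw.1 hw.2⟩
  obtain ⟨w1, h1, w2, h2, rfl⟩ := hM1 w hw.1 hw.2
  rw [hφadd _ (hpM w1 h1) (hpD w1 h1) _ (htM w2 h2) (htD y hyH w2 h2), m.add]
  exact D.mul_mem (hstep w1 h1).1 (hstep w2 h2).2

theorem kl (m : Model A ι ρ) (hG : ProP p G) (htf : ∀ g : G, IsOfFinOrder g → g = 1)
    (hve : HVE p G) (y : G) (a : V) :
    (∃ (e : ℕ) (c : ℤ_[p]), ρ (y ^ p ^ e) a = c • a) ∨ ∃ w, (p : ℤ_[p]) • a = ρ y w - w := by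
  rcases kl' m hG htf hve y a with ⟨e, h⟩ | ⟨c, h⟩ | h
  · exact Or.inl ⟨e, 1, by rw [one_smul, h]⟩
  · exact Or.inl ⟨0, c, by rw [pow_zero, pow_one, h]⟩
  · obtain ⟨w, -, hw⟩ := h ⊤ isClosed_univ trivial fun _ _ => trivial
    exact Or.inr ⟨w, hw⟩

theorem line_pow (m : Model A ι ρ) (hG : ProP p G) (htf : ∀ g : G, IsOfFinOrder g → g = 1)
    (hve : HVE p G) (x : G) (v : V) :
    ∃ (n : ℕ) (c : ℤ_[p]), ρ (x ^ p ^ n) v = c • v := by
  by_contra hcon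
  have := m.t2Space
  have h1 : ∀ n : ℕ, ∃ w, (p : ℤ_[p]) • v = ρ (x ^ p ^ n) w - w := fun n =>
    (kl m hG htf hve (x ^ p ^ n) v).resolve_left fun ⟨e, c, h⟩ =>
      hcon ⟨n + e, c, by rw [pow_add, pow_mul, h]⟩
  have h2 : (p : ℤ_[p]) • v = 0 := by
    by_contra h0
    obtain ⟨n, hn⟩ := m.small_pow hG
      (isOpen_compl_singleton.mem_nhds (Set.mem_compl_singleton_iff.2 (Ne.symm h0)))
    obtain ⟨w, hw⟩ := h1 n
    exact hn n le_rfl x w hw.symm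
  have h3 := (m.tf htf h2).resolve_left (Nat.cast_ne_zero.2 (Fact.out : p.Prime).ne_zero)
  exact hcon ⟨0, 0, by simp [h3]⟩

end Pool.Agent.Lib.MP_2dbb30_al.TF
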