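import Pool.Agent.Lib.MP_2dbb30_al.TF.CAct
import Pool.Agent.Lib.MP_2dbb30_al.TF.KL

set_option autoImplicit false
set_option linter.unusedSectionVars false

open Topology Filter Polynomial

namespace Pool.Agent.Lib.MP_2dbb30_al.TF

section alg

variable {p : ℕ} [Fact p.Prime] {L : Type*} [AddCommGroup L] [Module ℤ_[p] L]
  [Module.Finite ℤ_[p] L]

theorem ifA_functional (htf : ∀ (a : ℤ_[p]) (v : L), a • v = 0 → a = 0 ∨ v = 0) {z : L}
    (hz : ∀ w : L, z ≠ (p : ℤ_[p]) • w) : ∃ lam : L →ₗ[ℤ_[p]] ℤ_[p], lam z = 1 := by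
  classical
  have : Module.IsTorsionFree ℤ_[p] L := Module.IsTorsionFree.of_smul_eq_zero htf
  have : Module.Free ℤ_[p] L := Module.free_of_finite_type_torsion_free'
  let b := Module.finBasis ℤ_[p] L
  by_cases h : ∀ i, (p : ℤ_[p]) ∣ b.repr z i
  · exfalso
    choose c hc using h
    apply hz (∑ i, c i • b i)
    conv_lhs => rw [← b.sum_repr z]
    rw [Finset.smul_sum]
    exact Finset.sum_congr rfl fun i _ => by rw [hc i, mul_smul]
  · push Not at h
    obtain ⟨i, hi⟩ := h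
    have hu : IsUnit (b.repr z i) := by
      by_contra hu
      apply hi
      have h1 : b.repr z i ∈ IsLocalRing.maximalIdeal ℤ_[p] := hu
      rwa [PadicInt.maximalIdeal_eq_span_p, Ideal.mem_span_singleton] at h1
    obtain ⟨u, hu⟩ := hu.exists_left_inv
    exact ⟨u • b.coord i, by simpa using hu⟩

theorem ifA_shift (htf : ∀ (a : ℤ_[p]) (v : L), a • v = 0 → a = 0 ∨ v = 0) {z : L}
    (lam : L →ₗ[ℤ_[p]] ℤ_[p]) (hz : lam z = 1) :
    ∃ φ : Module.End ℤ_[p] L, ∀ M : Set L,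
      (∀ m ∈ M, ∃ v ∈ M, φ m = v + ((p : ℤ_[p]) - 1) • lam v • z) → ∀ m ∈ M, m = 0 := by
  classical
  have hp0 : (p : ℤ_[p]) ≠ 0 := by exact_mod_cast (Fact.out : p.Prime).ne_zero
  have : Module.IsTorsionFree ℤ_[p] L := Module.IsTorsionFree.of_smul_eq_zero htf
  have : Module.Free ℤ_[p] (LinearMap.ker lam) := Module.free_of_finite_type_torsion_free'
  let b := Module.finBasis ℤ_[p] (LinearMap.ker lam)
  have hli : ∀ (c : ℤ_[p]), ∀ x ∈ LinearMap.ker lam, c • z + x = 0 → c = 0 := by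
    intro c x hx h
    have := congrArg lam h
    rw [map_add, map_smul, hz, LinearMap.mem_ker.1 hx, map_zero] at this
    simpa using this
  have hsp : ∀ w : L, ∃ c : ℤ_[p], w + c • z ∈ LinearMap.ker lam := fun w =>
    ⟨-lam w, by simp [LinearMap.mem_ker, hz]⟩
  let e := Module.Basis.mkFinCons z b hli hsp
  have he : e.coord 0 = lam := by
    apply e.ext
    intro i
    refine Fin.cases ?_ (fun i => ?_) i
    · have h1 : e 0 = z := by simp [e]
      rw [Module.Basis.coord_apply, e.repr_self, h1, hz]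
      simp
    · have h1 : e i.succ = (b i : L) := by simp [e]
      rw [Module.Basis.coord_apply, e.repr_self, h1, LinearMap.mem_ker.1 (b i).2]
      simp
  have he' : ∀ v, e.repr v 0 = lam v := fun v => LinearMap.congr_fun he v
  obtain ⟨π, hinj, hrange, hpow⟩ := shift_basis e hp0
  let J : Module.End ℤ_[p] L := 1 + ((p : ℤ_[p]) - 1) • lam.smulRight z
  have hJ : ∀ v, J v = v + ((p : ℤ_[p]) - 1) • lam v • z := fun v => rfl
  have hlJ : ∀ v, lam (J v) = p * lam v := fun v => by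
    rw [hJ, map_add, map_smul, map_smul, hz]
    simp only [smul_eq_mul]
    ring
  have hJr : ∀ v, J v ∈ LinearMap.range π := fun v => by
    rw [hrange, he', hlJ]
    exact dvd_mul_right _ _
  let φ : Module.End ℤ_[p] L :=
    (LinearEquiv.ofInjective π hinj).symm.toLinearMap ∘ₗ J.codRestrict _ hJr
  have hφ : ∀ v, π (φ v) = J v := fun v => by
    have := (LinearEquiv.ofInjective π hinj).apply_symm_apply (J.codRestrict _ hJr v)
    exact congrArg Subtype.val this
  refine ⟨φ, fun M hM => ?_⟩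
  have key : ∀ k : ℕ, ∀ m ∈ M, ∃ v ∈ M, J m = (π ^ k) (J v) := by
    intro k
    induction k with
    | zero => exact fun m hm => ⟨m, hm, rfl⟩
    | succ k ih =>
      intro m hm
      obtain ⟨v, hv, h1⟩ := ih m hm
      obtain ⟨w, hw, h2⟩ := hM v hv
      refine ⟨w, hw, ?_⟩
      rw [h1, ← hφ v, h2, ← hJ, pow_succ, Module.End.mul_apply]
  intro m hm
  have hpk : ∀ (k : ℕ) (v : L), (π ^ ((Module.finrank ℤ_[p] (LinearMap.ker lam) + 1) * k)) v =
      (p : ℤ_[p]) ^ k • v := by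
    intro k
    induction k with
    | zero => intro v; simp
    | succ k ih =>
      intro v
      rw [Nat.mul_succ, pow_add, Module.End.mul_apply, hpow, ih, pow_succ, mul_smul]
  have h0 : J m = 0 := eq_zero_of_forall_pow (p := p) fun k => by
    obtain ⟨v, -, hv⟩ := key ((Module.finrank ℤ_[p] (LinearMap.ker lam) + 1) * k) m hm
    exact ⟨J v, by rw [hv, hpk]⟩
  have h1 : lam m = 0 := by
    have := hlJ m
    rw [h0, map_zero] at this
    exact (mul_eq_zero.1 this.symm).resolve_left hp0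
  rw [hJ, h1] at h0
  simpa using h0

theorem ifA_sq (htf : ∀ (a : ℤ_[p]) (v : L), a • v = 0 → a = 0 ∨ v = 0)
    (S : Module.End ℤ_[p] L) (hS : S ^ p = 1) (hS1 : S ≠ 1) :
    ∃ l, (S - 1) ((S - 1) l) ≠ 0 := by
  have hp0 : (p : ℤ_[p]) ≠ 0 := by exact_mod_cast (Fact.out : p.Prime).ne_zero
  by_contra h
  push Not at h
  apply hS1
  ext l
  have key : ∀ k : ℕ, (S ^ k) l = l + (k : ℤ_[p]) • (S - 1) l := by
    intro k
    induction k with
    | zero => simp
    | succ k ih =>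
      have h1 : S ((S - 1) l) = (S - 1) l := by
        have := h l
        rw [LinearMap.sub_apply, Module.End.one_apply, sub_eq_zero] at this
        exact this
      rw [pow_succ', Module.End.mul_apply, ih, map_add, map_smul, h1, Nat.cast_succ, add_smul,
        one_smul, LinearMap.sub_apply, Module.End.one_apply]
      abel
  have h2 := key p
  rw [hS, Module.End.one_apply, left_eq_add] at h2
  have h3 := (htf _ _ h2).resolve_left hp0
  rw [LinearMap.sub_apply, sub_eq_zero] at h3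
  exact h3

theorem ifA_alg (htf : ∀ (a : ℤ_[p]) (v : L), a • v = 0 → a = 0 ∨ v = 0)
    (S : Module.End ℤ_[p] L) (hS : S ^ p = 1) (hS1 : S ≠ 1)
    (hr : Module.finrank ℤ_[p] (LinearMap.range (S - 1)) < p) {z : L} (hz : S z = z)
    (hprim : ∀ w, S w = w → z ≠ (p : ℤ_[p]) • w) :
    ∃ (a : L →ₗ[ℤ_[p]] ℤ_[p]) (b : L →ₗ[ℤ_[p]] L), (∀ l, S (b l) = b l) ∧
      ∀ M : AddSubgroup L, (∀ m ∈ M, S m ∈ M) →
        (∀ m ∈ M, ∃ c, a m = p * c ∧ c • z + b m ∈ M) → M = ⊥ := by
  classical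
  have hpp : p.Prime := Fact.out
  have hp0 : (p : ℤ_[p]) ≠ 0 := by exact_mod_cast hpp.ne_zero
  have : Module.IsTorsionFree ℤ_[p] L := Module.IsTorsionFree.of_smul_eq_zero htf
  have : Module.Free ℤ_[p] L := Module.free_of_finite_type_torsion_free'
  set t : Module.End ℤ_[p] L := S - 1 with ht
  have htv : ∀ v, t v = S v - v := fun v => rfl
  let Z := LinearMap.ker t
  have hZ : ∀ v, v ∈ Z ↔ S v = v := fun v => by
    rw [LinearMap.mem_ker, htv, sub_eq_zero]
  have htfZ : ∀ (a : ℤ_[p]) (v : Z), a • v = 0 → a = 0 ∨ v = 0 := fun a v h =>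
    (htf a v (congrArg Subtype.val h)).imp_right fun h => Subtype.ext h
  let z' : Z := ⟨z, (hZ z).2 hz⟩
  have hz' : ∀ w : Z, z' ≠ (p : ℤ_[p]) • w := fun w h =>
    hprim w ((hZ w).1 w.2) (congrArg Subtype.val h)
  obtain ⟨lam, hlam⟩ := ifA_functional htfZ hz'
  obtain ⟨φ0, hφ0⟩ := ifA_shift htfZ lam hlam
  -- the retraction
  have : Module.Free ℤ_[p] (LinearMap.range t) := Module.free_of_finite_type_torsion_free'
  obtain ⟨s, hs⟩ := Module.projective_lifting_property t.rangeRestrict LinearMap.id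
    t.surjective_rangeRestrict
  have hs' : ∀ w, t (s w) = w := fun w => congrArg Subtype.val (LinearMap.congr_fun hs w)
  have hq0 : ∀ l, (LinearMap.id - s ∘ₗ t.rangeRestrict : L →ₗ[ℤ_[p]] L) l ∈ Z := fun l => by
    change t (l - s (t.rangeRestrict l)) = 0
    rw [map_sub, hs']
    exact sub_self _
  let q : L →ₗ[ℤ_[p]] Z := LinearMap.codRestrict Z _ hq0
  have hq : ∀ w : Z, q w = w := fun w => by
    apply Subtype.ext
    have h1 : t.rangeRestrict w = 0 := Subtype.ext w.2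
    change (w : L) - s (t.rangeRestrict w) = w
    rw [h1, map_zero, sub_zero]
  -- the correction
  obtain ⟨φ, hφZ, l0, hl0⟩ : ∃ φ : L →ₗ[ℤ_[p]] Z, (∀ w : Z, φ w = φ0 w) ∧ ∃ l, φ (t l) ≠ 0 := by
    by_cases h : ∃ l, φ0 (q (t l)) ≠ 0
    · exact ⟨φ0 ∘ₗ q, fun w => by rw [LinearMap.comp_apply, hq], h⟩
    · push Not at h
      obtain ⟨l, hl⟩ := ifA_sq htf S hS hS1
      obtain ⟨θ, hθ⟩ : ∃ θ : L →ₗ[ℤ_[p]] ℤ_[p], θ (t (t l)) ≠ 0 := by
        by_contra h2
        push Not at h2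
        exact hl ((Module.forall_dual_apply_eq_zero_iff ℤ_[p] _).1 h2)
      refine ⟨φ0 ∘ₗ q + (θ ∘ₗ t).smulRight z', fun w => ?_, l, ?_⟩
      · have h1 : t w = 0 := w.2
        simp [hq, h1]
      · rw [LinearMap.add_apply, LinearMap.comp_apply, h, zero_add, LinearMap.smulRight_apply,
          LinearMap.comp_apply]
        intro h3
        rcases htfZ _ _ h3 with h4 | h4
        · exact hθ h4
        · exact hz' 0 (by rw [h4, smul_zero])
  refine ⟨lam ∘ₗ φ, Z.subtype ∘ₗ (φ - (lam ∘ₗ φ).smulRight z'), fun l => (hZ _).1 ((φ - (lam ∘ₗ φ).smulRight z') l).2,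
    fun M hMS hM => ?_⟩
  have hM' : ∀ m ∈ M, ∃ v : Z, (v : L) ∈ M ∧ φ m = v + ((p : ℤ_[p]) - 1) • lam v • z' := by
    intro m hm
    obtain ⟨c, hc, h1⟩ := hM m hm
    rw [LinearMap.comp_apply] at hc
    refine ⟨c • z' + (φ m - lam (φ m) • z'), h1, ?_⟩
    rw [map_add, map_sub, map_smul, map_smul, hlam, hc]
    simp only [smul_eq_mul, mul_one, sub_self, add_zero]
    module
  have hMZ : ∀ v : Z, (v : L) ∈ M → v = 0 :=
    hφ0 {v : Z | (v : L) ∈ M} fun m hm => by
      obtain ⟨v, hv, h1⟩ := hM' m hm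
      exact ⟨v, hv, by rw [← hφZ, h1]⟩
  have hker : ∀ m ∈ M, φ m = 0 := fun m hm => by
    obtain ⟨v, hv, h1⟩ := hM' m hm
    rw [h1, hMZ v hv]
    simp
  have hSi : ∀ (i : ℕ), ∀ m ∈ M, (S ^ i) m ∈ M := by
    intro i
    induction i with
    | zero => exact fun m hm => hm
    | succ i ih => exact fun m hm => by rw [pow_succ', Module.End.mul_apply]; exact hMS _ (ih m hm)
  rw [eq_bot_iff]
  intro k hk
  rw [AddSubgroup.mem_bot]
  by_contra hk0
  have hN : ∑ i ∈ Finset.range p, (S ^ i) k = 0 := by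
    have h1 : ∑ i ∈ Finset.range p, (S ^ i) k ∈ Z := by
      rw [LinearMap.mem_ker, ← LinearMap.sum_apply, ← Module.End.mul_apply, ht, mul_geom_sum, hS,
        sub_self, LinearMap.zero_apply]
    have h2 : ∑ i ∈ Finset.range p, (S ^ i) k ∈ M := M.sum_mem fun i _ => hSi i k hk
    exact congrArg Subtype.val (hMZ ⟨_, h1⟩ h2)
  have hind := indep_cyclo htf S hk0 hN
  have hsub : ∀ (i : ℕ) (v : L), (S ^ i) v - v ∈ LinearMap.range t := fun i v =>
    ⟨(∑ j ∈ Finset.range i, S ^ j) v, by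
      rw [← Module.End.mul_apply, ht, mul_geom_sum]; rfl⟩
  have hpk : (p : ℤ_[p]) • k ∈ LinearMap.range t := by
    have h1 : (p : ℤ_[p]) • k = -∑ i ∈ Finset.range p, ((S ^ i) k - k) := by
      rw [Finset.sum_sub_distrib, hN, Finset.sum_const, Finset.card_range, zero_sub, neg_neg,
        Nat.cast_smul_eq_nsmul]
    rw [h1]
    exact neg_mem (Submodule.sum_mem _ fun i _ => hsub i k)
  have hpk' : ∀ i : ℕ, (p : ℤ_[p]) • (S ^ i) k ∈ LinearMap.range t := fun i => by
    have h1 := add_mem (hsub i ((p : ℤ_[p]) • k)) hpk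
    rwa [sub_add_cancel, map_smul] at h1
  have hind2 : LinearIndependent ℤ_[p] fun i : Fin (p - 1) => (p : ℤ_[p]) • (S ^ (i : ℕ)) k := by
    rw [Fintype.linearIndependent_iff] at hind ⊢
    intro g hg i
    have h1 := hind (fun i => g i * p) (by simpa only [mul_smul] using hg) i
    exact (mul_eq_zero.1 h1).resolve_right hp0
  have hind3 := LinearIndependent.finCons' (t l0) _ hind2 (by
    intro c x hx2 hx
    apply (htfZ c (φ (t l0)) ?_).resolve_right hl0
    have h1 : φ x = 0 := by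
      have h2 : Submodule.span ℤ_[p] (Set.range fun i : Fin (p - 1) =>
          (p : ℤ_[p]) • (S ^ (i : ℕ)) k) ≤ LinearMap.ker φ := by
        rw [Submodule.span_le]
        rintro _ ⟨i, rfl⟩
        rw [SetLike.mem_coe, LinearMap.mem_ker, map_smul, hker _ (hSi _ k hk), smul_zero]
      exact h2 hx2
    have h3 := congrArg φ hx
    rwa [map_add, h1, add_zero, map_smul, map_zero] at h3)
  have hmem : ∀ i, (Fin.cons (t l0) (fun i : Fin (p - 1) => (p : ℤ_[p]) • (S ^ (i : ℕ)) k) :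
      Fin (p - 1 + 1) → L) i ∈ LinearMap.range t := fun i =>
    Fin.cases ⟨l0, rfl⟩ (fun i => hpk' i) i
  have hind4 : LinearIndependent ℤ_[p] fun i => (⟨_, hmem i⟩ : LinearMap.range t) :=
    LinearIndependent.of_comp (LinearMap.range t).subtype hind3
  have h5 := hind4.fintype_card_le_finrank
  rw [Fintype.card_fin] at h5
  have := hpp.pos
  omega

end alg

variable {p : ℕ} [Fact p.Prime] {G : Type*} [Group G] [TopologicalSpace G] [IsTopologicalGroup G]
  [CompactSpace G] [T2Space G] [TotallyDisconnectedSpace G]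
  {V : Type*} [AddCommGroup V] [Module ℤ_[p] V] [TopologicalSpace V] [IsTopologicalAddGroup V]
  {A : Subgroup G} {ι : V → G} {ρ : G →* Module.End ℤ_[p] V}

theorem ifA_pw_iota (m : Model A ι ρ) (hG : ProP p G) (v : V) (c : ℤ_[p]) :
    pw hG (ι v) c = ι (c • v) :=
  padic_ind (P := fun c => pw hG (ι v) c = ι (c • v))
    (isClosed_eq (continuous_pw hG _) (m.emb.continuous.comp (m.smul v)))
    (fun n => by rw [pw_intCast, Int.cast_smul_eq_zsmul, m.zsmul]) c

theorem ifA_pw_split (m : Model A ι ρ) (hG : ProP p G) {y : G} (hy : y ^ p ∈ A) (μ : ℤ_[p]) :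
    ∃ (v : V) (n : ℤ), (p : ℤ_[p]) ∣ μ - n ∧ pw hG y μ = ι v * y ^ n := by
  obtain ⟨n, c, hc⟩ := exists_int_approx μ 1
  obtain ⟨z, hz⟩ := (m.mem _).1 hy
  rw [pow_one] at hc
  refine ⟨c • z, n, ⟨c, hc⟩, ?_⟩
  rw [← ifA_pw_iota m hG, hz, pow_pw, ← hc, ← pw_intCast hG, ← pw_add, sub_add_cancel]

theorem ve_caseA (m : Model A ι ρ) (hG : ProP p G) (htf : ∀ g : G, IsOfFinOrder g → g = 1)
    [Module.Finite ℤ_[p] V] (y : G) (hgen : ∀ g, ∃ v μ, g = ι v * pw hG y μ) (hy : y ^ p ∈ A)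
    (hr : Module.finrank ℤ_[p] (LinearMap.range (ρ y - 1 : Module.End ℤ_[p] V)) < p)
    (H : Subgroup G) (hne : H ≠ ⊥)
    (hfg : ∃ F : Finset G, (Subgroup.closure (F : Set G)).topologicalClosure = H) : VE p H := by
  classical
  have hpp : p.Prime := Fact.out
  by_cases hab : ∀ a ∈ H, ∀ b ∈ H, a * b = b * a
  · exact ve_abelian hG htf H hne hfg hab
  have hH : IsClosed (H : Set G) := by
    obtain ⟨F, rfl⟩ := hfg
    exact Subgroup.isClosed_topologicalClosure _
  have hιA : ∀ v, ι v ∈ A := fun v => (m.mem _).2 ⟨v, rfl⟩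
  have hιc : ∀ v w, ι v * ι w = ι w * ι v := fun v w => by rw [← m.add, ← m.add, add_comm]
  have hAn : A.Normal := ⟨fun a ha g => by
    obtain ⟨v, rfl⟩ := (m.mem _).1 ha
    rw [← m.conj]
    exact hιA _⟩
  have hgen' : ∀ g, ∃ (v : V) (n : ℤ), g = ι v * y ^ n := fun g => by
    obtain ⟨v, μ, rfl⟩ := hgen g
    obtain ⟨w, n, -, h⟩ := ifA_pw_split m hG hy μ
    exact ⟨v + w, n, by rw [h, m.add, mul_assoc]⟩
  obtain ⟨h0, hh0, hh0A⟩ : ∃ h0 ∈ H, h0 ∉ A := by
    by_contra h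
    push Not at h
    apply hab
    intro a ha b hb
    obtain ⟨v, rfl⟩ := (m.mem _).1 (h a ha)
    obtain ⟨w, rfl⟩ := (m.mem _).1 (h b hb)
    exact hιc v w
  -- the quotient is cyclic of order `p`
  let π := QuotientGroup.mk' A
  have hπ1 : ∀ g, π g = 1 ↔ g ∈ A := fun g => QuotientGroup.eq_one_iff g
  have hπy : ∀ g, π g ∈ Subgroup.zpowers (π y) := fun g => by
    obtain ⟨v, n, rfl⟩ := hgen' g
    rw [map_mul, (hπ1 _).2 (hιA v), one_mul, map_zpow]
    exact Subgroup.zpow_mem_zpowers _ _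
  have hyp : π y ^ p = 1 := by rw [← map_pow]; exact (hπ1 _).2 hy
  have hh0p : π h0 ^ p = 1 := by
    obtain ⟨n, hn⟩ := Subgroup.mem_zpowers_iff.1 (hπy h0)
    rw [← hn, ← zpow_natCast, ← zpow_mul, mul_comm, zpow_mul, zpow_natCast, hyp, one_zpow]
  have hh01 : π h0 ≠ 1 := fun h => hh0A ((hπ1 _).1 h)
  have hy1 : π y ≠ 1 := fun h => hh01 (by
    have := hπy h0
    rwa [h, Subgroup.zpowers_one_eq_bot, Subgroup.mem_bot] at this)
  have hoy : orderOf (π y) = p := orderOf_eq_prime hyp hy1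
  have hoh : orderOf (π h0) = p := orderOf_eq_prime hh0p hh01
  have hzz : Subgroup.zpowers (π h0) = Subgroup.zpowers (π y) := by
    have : Finite (Subgroup.zpowers (π y)) := Nat.finite_of_card_ne_zero (by
      rw [Nat.card_zpowers, hoy]; exact hpp.ne_zero)
    apply Subgroup.eq_of_le_of_card_ge ((Subgroup.zpowers_le).2 (hπy h0))
    rw [Nat.card_zpowers, Nat.card_zpowers, hoy, hoh]
  have hπh : ∀ g, π g ∈ Subgroup.zpowers (π h0) := fun g => hzz ▸ hπy g
  have hcl : IsClosed (m.trace H : Set V) := hH.preimage m.emb.continuous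
  let L : Submodule ℤ_[p] V :=
    { m.trace H with smul_mem' := fun a v hv => m.smul_mem hcl a hv }
  have hL : ∀ v, v ∈ L ↔ ι v ∈ H := fun v => Iff.rfl
  have hLS : ∀ v ∈ L, ρ h0 v ∈ L := fun v hv => by
    rw [hL, m.conj]
    exact H.mul_mem (H.mul_mem hh0 hv) (H.inv_mem hh0)
  let S : Module.End ℤ_[p] L := (ρ h0).restrict hLS
  have hSv : ∀ l : L, (S l : V) = ρ h0 l := fun l => rfl
  have hSi : ∀ (i : ℕ) (l : L), ((S ^ i) l : V) = ρ (h0 ^ i) l := by
    intro i
    induction i with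
    | zero => intro l; simp
    | succ i ih =>
      intro l
      rw [pow_succ', Module.End.mul_apply, hSv, ih, pow_succ', map_mul, Module.End.mul_apply]
  obtain ⟨z, hz⟩ := (m.mem _).1 ((hπ1 (h0 ^ p)).1 (by rw [map_pow, hh0p]))
  have hzL : z ∈ L := by rw [hL, hz]; exact H.pow_mem hh0 _
  have hHf : ∀ h ∈ H, ∃ (l : L) (n : ℤ), h = ι l * h0 ^ n := fun h hh => by
    obtain ⟨n, hn⟩ := Subgroup.mem_zpowers_iff.1 (hπh h)
    obtain ⟨v, hv⟩ := (m.mem _).1 ((hπ1 (h * (h0 ^ n)⁻¹)).1 (by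
      rw [map_mul, map_inv, map_zpow, hn, mul_inv_cancel]))
    refine ⟨⟨v, ?_⟩, n, by rw [hv, inv_mul_cancel_right]⟩
    rw [hL, hv]
    exact H.mul_mem hh (H.inv_mem (H.zpow_mem hh0 n))
  have hcomm : ∀ l : L, S l = l → Commute h0 (ι l) := fun l hl => by
    have h1 := m.conj h0 l
    rw [← hSv, hl] at h1
    exact (mul_inv_eq_iff_eq_mul.1 h1.symm)
  have htfL : ∀ (a : ℤ_[p]) (v : L), a • v = 0 → a = 0 ∨ v = 0 := fun a v h =>
    (m.tf htf (congrArg Subtype.val h)).imp_right fun h => Subtype.ext h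
  have hS : S ^ p = 1 := by
    ext l
    rw [hSi, ← hz, m.rho_iota]
    rfl
  have hS1 : S ≠ 1 := by
    intro h
    apply hab
    intro a ha b hb
    obtain ⟨l, n, rfl⟩ := hHf a ha
    obtain ⟨l', n', rfl⟩ := hHf b hb
    have h1 := hcomm l (by rw [h]; rfl)
    have h2 := hcomm l' (by rw [h]; rfl)
    have h3 : Commute (ι l) (ι l') := hιc _ _
    exact ((h3.mul_right (h1.symm.zpow_right n')).mul_left
      ((h2.zpow_left n).mul_right (Commute.zpow_zpow_self h0 n n'))).eq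
  have hrS : Module.finrank ℤ_[p] (LinearMap.range (S - 1)) < p := by
    let W := LinearMap.range (ρ y - 1 : Module.End ℤ_[p] V)
    let K : Subgroup G :=
      { carrier := {g | ∀ v, ρ g v - v ∈ W}
        one_mem' := fun v => by simp
        mul_mem' := fun {g h} hg hh v => by
          have h1 := W.add_mem (hg (ρ h v)) (hh v)
          rwa [sub_add_sub_cancel, ← Module.End.mul_apply, ← map_mul] at h1
        inv_mem' := fun {g} hg v => by
          have h1 := W.neg_mem (hg (ρ g⁻¹ v))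
          rwa [← Module.End.mul_apply, ← map_mul, mul_inv_cancel, map_one, Module.End.one_apply,
            neg_sub] at h1 }
    have hK : h0 ∈ K := by
      obtain ⟨v, n, rfl⟩ := hgen' h0
      refine K.mul_mem (fun w => ?_) (K.zpow_mem (fun w => ⟨w, rfl⟩) n)
      rw [m.rho_iota, sub_self]
      exact W.zero_mem
    have hle : (LinearMap.range (S - 1)).map L.subtype ≤ W := by
      rintro _ ⟨_, ⟨l, rfl⟩, rfl⟩
      exact hK l
    have h1 := Submodule.finrank_mono hle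
    rw [Submodule.finrank_map_subtype_eq] at h1
    exact h1.trans_lt hr
  have hSz : S ⟨z, hzL⟩ = ⟨z, hzL⟩ := by
    apply Subtype.ext
    apply m.inj
    rw [hSv, m.conj]
    change h0 * ι z * h0⁻¹ = ι z
    rw [hz]
    group
  have hprim : ∀ w : L, S w = w → (⟨z, hzL⟩ : L) ≠ (p : ℤ_[p]) • w := by
    intro w hw h
    have h1 : z = (p : ℤ_[p]) • (w : V) := congrArg Subtype.val h
    have h2 : (h0 * (ι w)⁻¹) ^ p = 1 := by
      rw [(hcomm w hw).inv_right.mul_pow, ← hz, h1, Nat.cast_smul_eq_nsmul, m.nsmul, inv_pow,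
        mul_inv_cancel]
    have h3 := htf _ (isOfFinOrder_iff_pow_eq_one.2 ⟨p, hpp.pos, h2⟩)
    rw [mul_inv_eq_one] at h3
    exact hh0A (h3 ▸ hιA _)
  obtain ⟨a, b, hb, hsimple⟩ := ifA_alg htfL S hS hS1 hrS hSz hprim
  have hinj : Function.Injective fun l : L => ι l := fun l l' h => Subtype.ext (m.inj h)
  let f : G → G := Function.extend (fun l : L => ι l) (fun l => pw hG h0 (a l) * ι (b l)) fun _ => 1
  have hf : ∀ l : L, f (ι l) = pw hG h0 (a l) * ι (b l) := fun l => hinj.extend_apply _ _ l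
  have hD : ∀ d ∈ A ⊓ H, ∃ l : L, ι l = d := fun d hd => by
    obtain ⟨v, rfl⟩ := (m.mem _).1 hd.1
    exact ⟨⟨v, hd.2⟩, rfl⟩
  refine ⟨A ⊓ H, f, inf_le_right, fun h hh d hd => ⟨hAn.conj_mem d hd.1 h,
    H.mul_mem (H.mul_mem hh hd.2) (H.inv_mem hh)⟩, ?_, ?_, ?_, ?_⟩
  · rw [Subgroup.inf_relIndex_right, ← QuotientGroup.ker_mk' A, Subgroup.relIndex_ker]
    have h1 : H.map π = Subgroup.zpowers (π h0) := by
      apply le_antisymm
      · rintro _ ⟨g, -, rfl⟩
        exact hπh g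
      · exact Subgroup.zpowers_le.2 ⟨h0, hh0, rfl⟩
    rw [h1, Nat.card_zpowers, hoh]
  · intro d hd d' hd'
    obtain ⟨l, rfl⟩ := hD d hd
    obtain ⟨l', rfl⟩ := hD d' hd'
    have h1 := (commute_pw_left hG (hcomm _ (hb l)) (a l')).eq
    rw [← m.add, ← Submodule.coe_add, hf, hf, hf, map_add, map_add, pw_add, Submodule.coe_add,
      m.add, mul_assoc, mul_assoc, ← mul_assoc (pw hG h0 (a l')), h1, mul_assoc]
  · intro d hd
    obtain ⟨l, rfl⟩ := hD d hd
    rw [hf]
    exact H.mul_mem (pw_mem hG hH hh0 _) (b l).2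
  · intro N hN hNn hNf
    have h1 := hsimple ((m.trace N).comap L.subtype.toAddMonoidHom) (fun l hl => ?_) (fun l hl => ?_)
    · rw [eq_bot_iff]
      intro n hn
      obtain ⟨l, rfl⟩ := hD n (hN hn)
      have h2 : l ∈ (m.trace N).comap L.subtype.toAddMonoidHom := hn
      rw [h1, AddSubgroup.mem_bot] at h2
      rw [h2, Subgroup.mem_bot]
      exact m.zero
    · change ι (S l) ∈ N
      rw [hSv, m.conj]
      exact hNn h0 hh0 _ hl
    · have h2 : f (ι l) ∈ N := hNf _ hl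
      rw [hf] at h2
      have h3 : pw hG h0 (a l) ∈ A := (A.mul_mem_cancel_right (hιA _)).1 (hN h2).1
      obtain ⟨v, n, hn, h4⟩ := ifA_pw_split m hG (hz ▸ hιA z) (a l)
      rw [h4, A.mul_mem_cancel_left (hιA _), ← hπ1, map_zpow, ← orderOf_dvd_iff_zpow_eq_one,
        hoh] at h3
      have h5 : (p : ℤ_[p]) ∣ a l := by
        have h6 : (p : ℤ_[p]) ∣ (n : ℤ_[p]) := by exact_mod_cast (Int.cast_dvd_cast (α := ℤ_[p]) _ _ h3)
        simpa using dvd_add hn h6
      obtain ⟨c, hc⟩ := h5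
      refine ⟨c, hc, ?_⟩
      change ι (c • z + b l) ∈ N
      rwa [m.add, ← ifA_pw_iota m hG, hz, pow_pw, ← hc]

end Pool.Agent.Lib.MP_2dbb30_al.TF
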