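import Mathlib

set_option autoImplicit false
set_option linter.unusedSectionVars false

open Topology Filter
open scoped Manifold ContDiff

namespace Pool.Agent.Lib.MP_2dbb30_al.TF

theorem lie_of_local {𝕜 : Type*} [NontriviallyNormedField 𝕜] {E : Type*} [NormedAddCommGroup E]
    [NormedSpace 𝕜 E] {G : Type*} [Group G] [TopologicalSpace G] [IsTopologicalGroup G]
    (e : G → E) (he : IsLocalHomeomorph e)
    (hmul : ∀ g h : G, ∃ P : E × E → E, ContDiffAt 𝕜 ω P (e g, e h) ∧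
      ∀ᶠ x : G × G in 𝓝 (g, h), e (x.1 * x.2) = P (e x.1, e x.2))
    (hinv : ∀ g : G, ∃ P : E → E, ContDiffAt 𝕜 ω P (e g) ∧ ∀ᶠ x in 𝓝 g, e x⁻¹ = P (e x)) :
    ∃ _ : ChartedSpace E G, LieGroup 𝓘(𝕜, E) ω G := by
  choose c hc hce using he
  let cs : ChartedSpace E G :=
    { atlas := {d | e = d}
      chartAt := c
      mem_chart_source := hc
      chart_mem_atlas := hce }
  have hman : IsManifold 𝓘(𝕜, E) ω G := by
    apply isManifold_of_contDiffOn
    intro d d' hd hd'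
    have hd1 : e = d := hd
    have hd2 : e = d' := hd'
    refine contDiffOn_id.congr fun y hy => ?_
    have hy' : y ∈ d.target := hy.1.1
    change d' (d.symm y) = y
    rw [← hd2, hd1]
    exact d.right_inv hy'
  have hext : ∀ g : G, ⇑(extChartAt 𝓘(𝕜, E) g) = e := fun g => by
    funext x
    change c g x = e x
    rw [← hce g]
  have he' : ∀ g : G, ContMDiffAt 𝓘(𝕜, E) 𝓘(𝕜, E) ω e g := fun g => by
    have := contMDiffAt_extChartAt (I := 𝓘(𝕜, E)) (n := ω) (x := g)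
    rwa [hext] at this
  refine ⟨cs, { toIsManifold := hman, contMDiff_mul := ?_, contMDiff_inv := ?_ }⟩
  · rintro ⟨g, h⟩
    rw [contMDiffAt_iff_target]
    refine ⟨continuous_mul.continuousAt, ?_⟩
    rw [hext]
    obtain ⟨P, hP, hPe⟩ := hmul g h
    have h1 : ContMDiffAt (𝓘(𝕜, E).prod 𝓘(𝕜, E)) 𝓘(𝕜, E × E) ω
        (fun x : G × G => (e x.1, e x.2)) (g, h) :=
      ((he' g).comp (g, h) contMDiffAt_fst).prodMk_space ((he' h).comp (g, h) contMDiffAt_snd)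
    exact (ContMDiffAt.comp (g, h) (f := fun x : G × G => (e x.1, e x.2)) hP.contMDiffAt
      h1).congr_of_eventuallyEq hPe
  · intro g
    rw [contMDiffAt_iff_target]
    refine ⟨continuous_inv.continuousAt, ?_⟩
    rw [hext]
    obtain ⟨P, hP, hPe⟩ := hinv g
    exact (ContMDiffAt.comp g (f := e) hP.contMDiffAt (he' g)).congr_of_eventuallyEq hPe

/-- the same with the model space moved to coordinates -/
theorem lie_of_local' {p : ℕ} [Fact p.Prime] {E : Type*} [NormedAddCommGroup E]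
    [NormedSpace ℚ_[p] E] [FiniteDimensional ℚ_[p] E] {G : Type*} [Group G] [TopologicalSpace G]
    [IsTopologicalGroup G] (e : G → E) (he : IsLocalHomeomorph e)
    (hmul : ∀ g h : G, ∃ P : E × E → E, ContDiffAt ℚ_[p] ω P (e g, e h) ∧
      ∀ᶠ x : G × G in 𝓝 (g, h), e (x.1 * x.2) = P (e x.1, e x.2))
    (hinv : ∀ g : G, ∃ P : E → E, ContDiffAt ℚ_[p] ω P (e g) ∧ ∀ᶠ x in 𝓝 g, e x⁻¹ = P (e x)) :
    ∃ (n : ℕ) (_ : ChartedSpace (Fin n → ℚ_[p]) G),
      LieGroup 𝓘(ℚ_[p], Fin n → ℚ_[p]) ω G := by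
  let L : E ≃L[ℚ_[p]] (Fin (Module.finrank ℚ_[p] E) → ℚ_[p]) :=
    ContinuousLinearEquiv.ofFinrankEq (by simp)
  refine ⟨Module.finrank ℚ_[p] E, lie_of_local (fun g => L (e g))
    (L.toHomeomorph.isLocalHomeomorph.comp he) (fun g h => ?_) (fun g => ?_)⟩
  · obtain ⟨P, hP, hPe⟩ := hmul g h
    refine ⟨fun z => L (P (L.symm z.1, L.symm z.2)), ?_, ?_⟩
    · refine L.contDiff.contDiffAt.comp _ (ContDiffAt.comp _ (by simpa using hP) ?_)
      exact ((L.symm.contDiff.comp contDiff_fst).prodMk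
        (L.symm.contDiff.comp contDiff_snd)).contDiffAt
    · filter_upwards [hPe] with x hx
      simp [hx]
  · obtain ⟨P, hP, hPe⟩ := hinv g
    refine ⟨fun z => L (P (L.symm z)), ?_, ?_⟩
    · exact L.contDiff.contDiffAt.comp _
        (ContDiffAt.comp _ (by simpa using hP) L.symm.contDiff.contDiffAt)
    · filter_upwards [hPe] with x hx
      simp [hx]

theorem one_add_pow_eq {R : Type*} [CommRing R] (y : R) (m : ℕ) :
    ∃ r : R, (1 + y) ^ m = 1 + m * y + y ^ 2 * r := by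
  induction m with
  | zero => exact ⟨0, by simp⟩
  | succ m ih =>
    obtain ⟨r, hr⟩ := ih
    exact ⟨r + m + y * r, by rw [pow_succ, hr]; push_cast; ring⟩

theorem isUnit_add_p_mul {p : ℕ} [Fact p.Prime] {u : ℤ_[p]} (hu : IsUnit u) (c : ℤ_[p]) :
    IsUnit (u + p * c) := by
  have h : IsUnit (u + p * c + -(p * c)) := by simpa using hu
  rcases IsLocalRing.isUnit_or_isUnit_of_isUnit_add h with h | h
  · exact h
  · exact absurd (isUnit_of_mul_isUnit_left ((IsUnit.neg_iff _).mp h))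
      PadicInt.irreducible_p.not_isUnit

theorem pow_prime_pow_eq {p : ℕ} [Fact p.Prime] {β u : ℤ_[p]} {v : ℕ} (hu : IsUnit u)
    (hβ : β = 1 + (p : ℤ_[p]) ^ (v + 2) * u) (j : ℕ) :
    ∃ w : ℤ_[p], IsUnit w ∧ β ^ p ^ j = 1 + (p : ℤ_[p]) ^ (v + 2 + j) * w := by
  induction j with
  | zero => exact ⟨u, hu, by simpa using hβ⟩
  | succ j ih =>
    obtain ⟨w, hw, h⟩ := ih
    obtain ⟨r, hr⟩ := one_add_pow_eq ((p : ℤ_[p]) ^ (v + 2 + j) * w) p
    refine ⟨w + p * ((p : ℤ_[p]) ^ (v + j) * w ^ 2 * r), isUnit_add_p_mul hw _, ?_⟩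
    rw [pow_succ, pow_mul, h, hr]
    ring

theorem exists_pow_approx {p : ℕ} [Fact p.Prime] {β u : ℤ_[p]} {v : ℕ} (hu : IsUnit u)
    (hβ : β = 1 + (p : ℤ_[p]) ^ (v + 2) * u) {x : ℤ_[p]} (hx : (p : ℤ_[p]) ^ (v + 2) ∣ x - 1)
    (k : ℕ) : ∃ n : ℕ, (p : ℤ_[p]) ^ (v + 2 + k) ∣ x - β ^ n := by
  induction k with
  | zero => exact ⟨0, by simpa using hx⟩
  | succ k ih =>
    obtain ⟨n, c, hc⟩ := ih
    obtain ⟨w, hw, h⟩ := pow_prime_pow_eq hu hβ k
    have hβu : IsUnit β := by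
      rw [hβ, pow_succ', mul_assoc]
      exact isUnit_add_p_mul isUnit_one _
    obtain ⟨t, ht⟩ := ((hβu.pow n).mul hw).exists_right_inv
    obtain ⟨d, hd⟩ := Ideal.mem_span_singleton.mp (PadicInt.appr_spec 1 (c * t))
    obtain ⟨r, hr⟩ := one_add_pow_eq ((p : ℤ_[p]) ^ (v + 2 + k) * w) ((c * t).appr 1)
    refine ⟨n + p ^ k * (c * t).appr 1,
      β ^ n * w * d - β ^ n * (p : ℤ_[p]) ^ (v + 1 + k) * w ^ 2 * r, ?_⟩
    rw [pow_add, pow_mul, h, hr]
    have h2 : (((c * t).appr 1 : ℕ) : ℤ_[p]) = c * t - (p : ℤ_[p]) ^ 1 * d := by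
      rw [← hd]; ring
    rw [h2]
    linear_combination hc - (p : ℤ_[p]) ^ (v + 2 + k) * c * ht

/-- a closed set of `p`-adic integers containing all powers of a `β ≡ 1 mod p ^ 2`, `β ≠ 1`,
is a neighbourhood of `1` -/
theorem nhds_one_of_pow {p : ℕ} [Fact p.Prime] {β : ℤ_[p]} (h1 : (p : ℤ_[p]) ^ 2 ∣ β - 1)
    (h2 : β ≠ 1) {Q : Set ℤ_[p]} (hQ : IsClosed Q) (hβ : ∀ n : ℕ, β ^ n ∈ Q) :
    Q ∈ 𝓝 (1 : ℤ_[p]) := by
  have hp : p.Prime := Fact.out
  have h0 : β - 1 ≠ 0 := sub_ne_zero.mpr h2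
  obtain ⟨c, hc⟩ := h1
  have hc0 : c ≠ 0 := by
    rintro rfl
    exact h0 (by simpa using hc)
  have hβ' : β = 1 + (p : ℤ_[p]) ^ (c.valuation + 2) * (PadicInt.unitCoeff hc0 : ℤ_[p]) := by
    have := PadicInt.unitCoeff_spec hc0
    linear_combination hc + (p : ℤ_[p]) ^ 2 * this
  have hpos : ∀ k : ℕ, (0 : ℝ) < (p : ℝ) ^ (-(k : ℤ)) :=
    fun k => zpow_pos (by exact_mod_cast hp.pos) _
  filter_upwards [Metric.closedBall_mem_nhds (1 : ℤ_[p]) (hpos (c.valuation + 2))] with x hx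
  rw [Metric.mem_closedBall, dist_eq_norm] at hx
  have hx' := Ideal.mem_span_singleton.mp ((PadicInt.norm_le_pow_iff_mem_span_pow _ _).mp hx)
  rw [← hQ.closure_eq, Metric.mem_closure_iff]
  intro ε hε
  obtain ⟨k, hk⟩ := PadicInt.exists_pow_neg_lt p hε
  obtain ⟨n, hn⟩ := exists_pow_approx (PadicInt.unitCoeff hc0).isUnit hβ' hx' k
  refine ⟨β ^ n, hβ n, lt_of_le_of_lt ?_ hk⟩
  rw [dist_eq_norm]
  exact (PadicInt.norm_le_pow_iff_mem_span_pow _ _).mpr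
    (Ideal.mem_span_singleton.mpr ((pow_dvd_pow _ (Nat.le_add_left _ _)).trans hn))

end Pool.Agent.Lib.MP_2dbb30_al.TF
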