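import Pool.Agent.Lib.MP_2dbb30_al.TF.Model

set_option autoImplicit false
set_option linter.unusedSectionVars false

open Topology Filter
open scoped commutatorElement

namespace Pool.Agent.Lib.MP_2dbb30_al.TF

universe u

/-- A finitely generated torsion group whose derived series stops at `⊥` is finite. -/
theorem finite_of_fg_torsion_derived (k : ℕ) :
    ∀ (Q : Type u) [Group Q] [Group.FG Q], IsMulTorsion Q → derivedSeries Q k = ⊥ → Finite Q := by
  induction k with
  | zero =>
    intro Q _ _ _ h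
    have : Subsingleton Q := by
      rw [derivedSeries_zero] at h
      exact Subgroup.subsingleton_iff.mp (subsingleton_of_bot_eq_top h.symm)
    infer_instance
  | succ k ih =>
    intro Q _ _ ht h
    have hab : Finite (Abelianization Q) := by
      have hs : Function.Surjective (Abelianization.of : Q →* Abelianization Q) :=
        QuotientGroup.mk_surjective
      have : Group.FG (Abelianization Q) := Group.fg_of_surjective hs
      exact CommGroup.finite_of_fg_isMulTorsion _ (ht.of_surjective hs)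
    have hq : Finite (Q ⧸ commutator Q) := hab
    have hfi : (commutator Q).FiniteIndex := Subgroup.finiteIndex_of_finite_quotient
    have hfg : Group.FG (commutator Q) := Subgroup.fg_of_index_ne_zero _
    have hd : derivedSeries (commutator Q) k = ⊥ := by
      have key : ∀ j, (derivedSeries (commutator Q) j).map (commutator Q).subtype
          ≤ derivedSeries Q (j + 1) := by
        intro j
        induction j with
        | zero =>
          rw [derivedSeries_zero, ← MonoidHom.range_eq_map, Subgroup.range_subtype, derivedSeries_one]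
        | succ j ihj =>
          rw [derivedSeries_succ, Subgroup.map_commutator, derivedSeries_succ Q (j + 1)]
          exact Subgroup.commutator_mono ihj ihj
      have := key k
      rw [h, le_bot_iff, Subgroup.map_eq_bot_iff_of_injective _ Subtype.val_injective] at this
      exact this
    have hfin : Finite (commutator Q) := ih _ (ht.subgroup _) hd
    exact Finite.of_equiv _ (Subgroup.groupEquivQuotientProdSubgroup (s := commutator Q)).symm

theorem finite_of_solvable_torsion (Γ : Type*) [Group Γ] [Group.IsSolvable Γ] [Group.FG Γ]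
    (h : ∀ g : Γ, IsOfFinOrder g) : Finite Γ := by
  obtain ⟨k, hk⟩ := Group.IsSolvable.solvable (G := Γ)
  exact finite_of_fg_torsion_derived k Γ h hk

section fin
variable {G : Type*} [Group G] [TopologicalSpace G] [IsTopologicalGroup G]

/-- A closed normal subgroup of a topologically finitely generated solvable group into which
every element has a power has finite index. -/
theorem finiteIndex_of_pow_mem [Group.IsSolvable G] (S : Subgroup G) [S.Normal]
    (hS : IsClosed (S : Set G))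
    (hfg : ∃ F : Finset G, (Subgroup.closure (F : Set G)).topologicalClosure = ⊤)
    (hpow : ∀ x : G, ∃ n : ℕ, 0 < n ∧ x ^ n ∈ S) : S.FiniteIndex := by
  classical
  obtain ⟨F, hF⟩ := hfg
  set Γ : Subgroup (G ⧸ S) := (Subgroup.closure (F : Set G)).map (QuotientGroup.mk' S) with hΓ
  have hΓfg : Group.FG Γ := by
    rw [Group.fg_iff_subgroup_fg]
    refine ⟨F.image (QuotientGroup.mk' S), ?_⟩
    rw [hΓ, MonoidHom.map_closure, Finset.coe_image]
  have htor : IsMulTorsion (G ⧸ S) := by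
    intro q
    obtain ⟨x, rfl⟩ := QuotientGroup.mk_surjective q
    obtain ⟨n, hn, hx⟩ := hpow x
    rw [isOfFinOrder_iff_pow_eq_one]
    exact ⟨n, hn, by rw [← QuotientGroup.mk_pow, QuotientGroup.eq_one_iff]; exact hx⟩
  have hfin : Finite Γ := finite_of_solvable_torsion Γ (htor.subgroup _)
  have hcl : IsClosed (Γ : Set (G ⧸ S)) := (Set.toFinite (Γ : Set (G ⧸ S))).isClosed
  have hpre : IsClosed ((Γ.comap (QuotientGroup.mk' S) : Subgroup G) : Set G) :=
    hcl.preimage QuotientGroup.continuous_mk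
  have htop : (⊤ : Subgroup G) ≤ Γ.comap (QuotientGroup.mk' S) := by
    rw [← hF]
    exact Subgroup.topologicalClosure_minimal _ (Subgroup.le_comap_map _ _) hpre
  have : Finite (G ⧸ S) := by
    have hu : (Γ : Set (G ⧸ S)) = Set.univ := by
      ext q
      obtain ⟨x, rfl⟩ := QuotientGroup.mk_surjective q
      exact ⟨fun _ => trivial, fun _ => htop (Subgroup.mem_top x)⟩
    exact Set.finite_univ_iff.mp (hu ▸ Set.toFinite _)
  exact Subgroup.finiteIndex_of_finite_quotient

/-- Schreier: an open finite-index subgroup of a topologically finitely generated group is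
topologically finitely generated. -/
theorem fg_of_open (S : Subgroup G) [S.FiniteIndex] (hS : IsOpen (S : Set G))
    (hfg : ∃ F : Finset G, (Subgroup.closure (F : Set G)).topologicalClosure = ⊤) :
    ∃ F : Finset G, (Subgroup.closure (F : Set G)).topologicalClosure = S := by
  classical
  obtain ⟨F, hF⟩ := hfg
  set Γ : Subgroup G := Subgroup.closure (F : Set G) with hΓ
  have hΓfg : Group.FG Γ := by
    rw [Group.fg_iff_subgroup_fg]; exact ⟨F, rfl⟩
  have hfi : (S.subgroupOf Γ).FiniteIndex := inferInstance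
  have h1 : Group.FG (S.subgroupOf Γ) := Subgroup.fg_of_index_ne_zero _
  rw [Group.fg_iff_subgroup_fg] at h1
  obtain ⟨E, hE⟩ := h1
  refine ⟨E.image Γ.subtype, ?_⟩
  rw [Finset.coe_image, ← MonoidHom.map_closure, hE, Subgroup.subgroupOf_map_subtype]
  apply le_antisymm
  · exact Subgroup.topologicalClosure_minimal _ inf_le_left (Subgroup.isClosed_of_isOpen S hS)
  · intro s hs
    have hd : Dense (Γ : Set G) := by
      intro x
      have : x ∈ Γ.topologicalClosure := hF ▸ Subgroup.mem_top x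
      exact this
    have := hd.open_subset_closure_inter hS hs
    exact this

end fin

variable {p : ℕ} [Fact p.Prime] {G : Type*} [Group G] [TopologicalSpace G] [IsTopologicalGroup G]
  [CompactSpace G] [T2Space G] [TotallyDisconnectedSpace G]
  {V : Type*} [AddCommGroup V] [Module ℤ_[p] V] [TopologicalSpace V] [IsTopologicalAddGroup V]
  {A : Subgroup G} {ι : V → G} {ρ : G →* Module.End ℤ_[p] V}

theorem cont_smul₂ (m : Model A ι ρ) (hG : ProP p G) :
    Continuous fun t : ℤ_[p] × V => t.1 • t.2 := by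
  rw [continuous_iff_continuousAt]
  rintro ⟨a, v⟩
  have h1 : Tendsto (fun t : ℤ_[p] × V => (t.1 - a) • t.2) (𝓝 (a, v)) (𝓝 0) := by
    intro U hU
    obtain ⟨n, hn⟩ := m.small_p hG hU
    have hb : {c : ℤ_[p] | ‖c - a‖ ≤ (p : ℝ) ^ (-n : ℤ)} ∈ 𝓝 a := by
      have hp : (0 : ℝ) < (p : ℝ) ^ (-n : ℤ) :=
        zpow_pos (by exact_mod_cast (Fact.out : p.Prime).pos) _
      simpa [Metric.closedBall, dist_eq_norm] using Metric.closedBall_mem_nhds a hp
    rw [mem_map]
    filter_upwards [continuous_fst.continuousAt.preimage_mem_nhds (x := (a, v)) hb] with t ht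
    have ht' : ‖t.1 - a‖ ≤ (p : ℝ) ^ (-n : ℤ) := ht
    rw [PadicInt.norm_le_pow_iff_mem_span_pow, Ideal.mem_span_singleton] at ht'
    obtain ⟨b, hb⟩ := ht'
    show (t.1 - a) • t.2 ∈ U
    rw [hb, mul_smul]
    exact hn _
  have h2 : Tendsto (fun t : ℤ_[p] × V => a • t.2) (𝓝 (a, v)) (𝓝 (a • v)) :=
    ((m.cont_smul a).comp continuous_snd).tendsto (a, v)
  have h3 := h1.add h2
  rw [zero_add] at h3
  refine h3.congr fun t => ?_
  rw [← add_smul, sub_add_cancel]

/-- Baire on `V` and two-line linear algebra -/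
theorem scalar_pow (m : Model A ι ρ) (hG : ProP p G) (htf : ∀ g : G, IsOfFinOrder g → g = 1)
    (x : G) (h : ∀ v : V, ∃ (n : ℕ) (c : ℤ_[p]), ρ (x ^ p ^ n) v = c • v) :
    ∃ (n : ℕ) (c : ℤ_[p]ˣ), ∀ v : V, ρ (x ^ p ^ n) v = (c : ℤ_[p]) • v := by
  have := m.compactSpace
  have := m.t2Space
  let E : ℕ → Set V := fun n => Prod.snd '' {t : ℤ_[p] × V | ρ (x ^ p ^ n) t.2 = t.1 • t.2}
  have hEc : ∀ n, IsClosed (E n) := fun n =>
    ((isClosed_eq ((m.cont_rho _).comp continuous_snd) (cont_smul₂ m hG)).isCompact.image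
      continuous_snd).isClosed
  have hEu : ⋃ n, E n = Set.univ := by
    rw [Set.eq_univ_iff_forall]
    intro v
    obtain ⟨n, c, hc⟩ := h v
    exact Set.mem_iUnion.mpr ⟨n, (c, v), hc, rfl⟩
  obtain ⟨n, v₀, hv₀⟩ := nonempty_interior_of_iUnion_of_closed hEc hEu
  have hU : (fun u : V => v₀ + u) ⁻¹' E n ∈ 𝓝 (0 : V) := by
    refine (continuous_const.add continuous_id).continuousAt.preimage_mem_nhds ?_
    simpa using mem_interior_iff_mem_nhds.mp hv₀
  obtain ⟨k, hk⟩ := m.small_p hG hU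
  set T := ρ (x ^ p ^ n) with hT
  set q : ℤ_[p] := (p : ℤ_[p]) ^ k with hq
  have hq0 : q ≠ 0 := pow_ne_zero _ (by exact_mod_cast (Fact.out : p.Prime).ne_zero)
  have hev : ∀ v : V, ∃ c : ℤ_[p], T (v₀ + q • v) = c • (v₀ + q • v) := by
    intro v
    obtain ⟨⟨c, w⟩, hc, hw⟩ := hk v
    have hw' : w = v₀ + q • v := hw
    exact ⟨c, hw' ▸ hc⟩
  have hsame : ∀ v v' : V, ∀ c c' : ℤ_[p], T (v₀ + q • v) = c • (v₀ + q • v) →
      T (v₀ + q • v') = c' • (v₀ + q • v') → v₀ + q • v ≠ 0 → v₀ + q • v' ≠ 0 → c = c' := by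
    intro v v' c c' hc hc' h0 h0'
    obtain ⟨d, hd⟩ := hev (v' + v' - v)
    have e : v₀ + q • (v' + v' - v) = (v₀ + q • v') + (v₀ + q • v') - (v₀ + q • v) := by
      rw [smul_sub, smul_add]; abel
    rw [e, map_sub, map_add, hc, hc'] at hd
    generalize v₀ + q • v = s at *
    generalize v₀ + q • v' = s' at *
    have e1 : (2 * (d - c')) • s' = (d - c) • s := by
      have : (2 * (d - c')) • s' - (d - c) • s = d • (s' + s' - s) - (c' • s' + c' • s' - c • s) := by
        module
      rw [← sub_eq_zero, this, hd, sub_self]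
    have e2 := congrArg T e1
    rw [map_smul, map_smul, hc, hc', smul_comm _ c' s', e1] at e2
    have e3 : ((d - c) * (c - c')) • s = 0 := by
      have : ((d - c) * (c - c')) • s = (d - c) • c • s - c' • (d - c) • s := by module
      rw [this, e2, sub_self]
    rcases m.tf htf e3 with h1 | h1
    · rcases mul_eq_zero.mp h1 with h2 | h2
      · rw [h2, zero_smul] at e1
        rcases m.tf htf e1 with h3 | h3
        · have h4 : d - c' = 0 := (mul_eq_zero.mp h3).resolve_left two_ne_zero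
          linear_combination h4 - h2
        · exact absurd h3 h0'
      · exact sub_eq_zero.mp h2
    · exact absurd h1 h0
  obtain ⟨c, hc⟩ : ∃ c : ℤ_[p], ∀ v : V, T (v₀ + q • v) = c • (v₀ + q • v) := by
    by_cases hz : ∀ v : V, v₀ + q • v = 0
    · exact ⟨1, fun v => by rw [hz v, map_zero, smul_zero]⟩
    · push Not at hz
      obtain ⟨w, hw⟩ := hz
      obtain ⟨c, hc⟩ := hev w
      refine ⟨c, fun v => ?_⟩
      by_cases h0 : v₀ + q • v = 0
      · rw [h0, map_zero, smul_zero]
      · obtain ⟨c', hc'⟩ := hev v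
        rw [hc', hsame w v c c' hc hc' hw h0]
  have hall : ∀ v : V, T v = c • v := by
    intro v
    have h0 := hc 0
    have h1 := hc v
    rw [smul_zero, add_zero] at h0
    rw [map_add, h0, map_smul, smul_add, add_right_inj] at h1
    have h2 : q • (T v - c • v) = 0 := by rw [smul_sub, h1, smul_comm, sub_self]
    exact sub_eq_zero.mp ((m.tf htf h2).resolve_left hq0)
  by_cases hu : IsUnit c
  · obtain ⟨c, rfl⟩ := hu
    exact ⟨n, c, hall⟩
  · have hdiv : (p : ℤ_[p]) ∣ c := by
      rw [← PadicInt.norm_lt_one_iff_dvd]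
      exact PadicInt.mem_nonunits.mp hu
    obtain ⟨b, rfl⟩ := hdiv
    have hbot : (⊤ : AddSubgroup V) ≤ ⊥ := by
      refine m.nak_p hG (by simp) fun v _ => ⟨b • ρ (x ^ p ^ n)⁻¹ v, trivial, ?_⟩
      rw [← mul_smul, ← hall, hT, ← Module.End.mul_apply, ← map_mul, mul_inv_cancel, map_one,
        Module.End.one_apply, sub_self]
      exact zero_mem _
    refine ⟨n, 1, fun v => ?_⟩
    have hv : v = 0 := hbot (AddSubgroup.mem_top v)
    rw [hv, map_zero, smul_zero]

/-- the elements acting as scalars -/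
def scal (ρ : G →* Module.End ℤ_[p] V) : Subgroup G where
  carrier := {g | ∃ c : ℤ_[p]ˣ, ∀ v : V, ρ g v = (c : ℤ_[p]) • v}
  one_mem' := ⟨1, fun v => by simp⟩
  mul_mem' := by
    rintro a b ⟨c, hc⟩ ⟨d, hd⟩
    exact ⟨c * d, fun v => by rw [map_mul, Module.End.mul_apply, hd, hc, Units.val_mul, mul_smul]⟩
  inv_mem' := by
    rintro a ⟨c, hc⟩
    refine ⟨c⁻¹, fun v => ?_⟩
    have h1 : ρ a⁻¹ (ρ a v) = v := by
      rw [← Module.End.mul_apply, ← map_mul, inv_mul_cancel, map_one, Module.End.one_apply]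
    rw [hc, map_smul] at h1
    conv_rhs => rw [← h1]
    rw [← mul_smul, Units.inv_mul, one_smul]

theorem scal_normal (ρ : G →* Module.End ℤ_[p] V) : (scal ρ).Normal := by
  refine ⟨?_⟩
  rintro s ⟨c, hc⟩ g
  refine ⟨c, fun v => ?_⟩
  rw [map_mul, map_mul, Module.End.mul_apply, Module.End.mul_apply, hc, map_smul,
    ← Module.End.mul_apply, ← map_mul, mul_inv_cancel, map_one, Module.End.one_apply]

theorem scal_closed (m : Model A ι ρ) : IsClosed (scal ρ : Set G) := by
  have := m.t2Space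
  have hK : IsClosed {t : ℤ_[p] × G | ‖t.1‖ = 1 ∧ ∀ v : V, ρ t.2 v = t.1 • v} := by
    refine (isClosed_eq (by fun_prop) continuous_const).inter ?_
    have : {t : ℤ_[p] × G | ∀ v : V, ρ t.2 v = t.1 • v}
        = ⋂ v : V, {t : ℤ_[p] × G | ρ t.2 v = t.1 • v} := by
      ext t; simp
    show IsClosed {t : ℤ_[p] × G | ∀ v : V, ρ t.2 v = t.1 • v}
    rw [this]
    exact isClosed_iInter fun v =>
      isClosed_eq ((m.cont_rho' v).comp continuous_snd) ((m.smul v).comp continuous_fst)
  have he : (scal ρ : Set G)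
      = Prod.snd '' {t : ℤ_[p] × G | ‖t.1‖ = 1 ∧ ∀ v : V, ρ t.2 v = t.1 • v} := by
    ext g
    constructor
    · rintro ⟨c, hc⟩
      exact ⟨(c, g), ⟨PadicInt.norm_units c, hc⟩, rfl⟩
    · rintro ⟨⟨c, g⟩, ⟨h1, h2⟩, rfl⟩
      obtain ⟨c, rfl⟩ := PadicInt.isUnit_iff.mpr h1
      exact ⟨c, h2⟩
  rw [he]
  exact (hK.isCompact.image continuous_snd).isClosed

theorem scal_open [Group.IsSolvable G] (m : Model A ι ρ) (hG : ProP p G)
    (hfg : ∃ T : Finset G, (Subgroup.closure (T : Set G)).topologicalClosure = ⊤)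
    (h : ∀ x : G, ∃ n : ℕ, x ^ p ^ n ∈ scal ρ) : IsOpen (scal ρ : Set G) := by
  have := scal_normal ρ
  have := finiteIndex_of_pow_mem (scal ρ) (scal_closed m) hfg fun x =>
    let ⟨n, hn⟩ := h x; ⟨p ^ n, pow_pos (Fact.out : p.Prime).pos n, hn⟩
  exact Subgroup.isOpen_of_isClosed_of_finiteIndex _ (scal_closed m)

/-- the image in `G` of a submodule of the model -/
def Model.img (m : Model A ι ρ) (W : Submodule ℤ_[p] V) : Subgroup G where
  carrier := ι '' (W : Set V)
  one_mem' := ⟨0, W.zero_mem, m.zero⟩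
  mul_mem' := by
    rintro _ _ ⟨v, hv, rfl⟩ ⟨w, hw, rfl⟩
    exact ⟨v + w, W.add_mem hv hw, m.add v w⟩
  inv_mem' := by
    rintro _ ⟨v, hv, rfl⟩
    exact ⟨-v, W.neg_mem hv, m.neg v⟩

theorem comm_mem_of_scal (hA : ∀ g, (∀ v, ρ g v = v) → g ∈ A) {g h : G} (hg : g ∈ scal ρ)
    (hh : h ∈ scal ρ) : ⁅g, h⁆ ∈ A := by
  obtain ⟨c, hc⟩ := hg
  obtain ⟨d, hd⟩ := hh
  refine hA _ fun v => ?_
  have e : ρ g * ρ h = ρ h * ρ g := by
    ext w
    rw [Module.End.mul_apply, Module.End.mul_apply, hc, hd, hd, hc, smul_comm]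
  have e2 : ρ ⁅g, h⁆ = ρ g * ρ h * (ρ g⁻¹ * ρ h⁻¹) := by
    rw [commutatorElement_def, map_mul, map_mul, map_mul, mul_assoc]
  rw [e2, e, ← map_mul, ← map_mul, ← map_mul]
  have : h * g * (g⁻¹ * h⁻¹) = 1 := by group
  rw [this, map_one, Module.End.one_apply]

theorem finite_V (m : Model A ι ρ) (hG : ProP p G) (htf : ∀ g : G, IsOfFinOrder g → g = 1)
    (hfg : ∃ T : Finset G, (Subgroup.closure (T : Set G)).topologicalClosure = ⊤)
    (hA : ∀ g, (∀ v, ρ g v = v) → g ∈ A) (h : IsOpen (scal ρ : Set G)) :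
    Module.Finite ℤ_[p] V := by
  classical
  have hfi : (scal ρ).FiniteIndex := by
    have : Finite (G ⧸ scal ρ) := Subgroup.quotient_finite_of_isOpen _ h
    exact Subgroup.finiteIndex_of_finite_quotient
  obtain ⟨F, hF⟩ := fg_of_open (scal ρ) h hfg
  have hFs : ∀ f ∈ F, f ∈ scal ρ := fun f hf =>
    hF ▸ Subgroup.le_topologicalClosure _ (Subgroup.subset_closure hf)
  have hind : ∀ S : Subgroup G, IsClosed (S : Set G) → (∀ f ∈ F, f ∈ S) → scal ρ ≤ S := by
    intro S hS h1
    rw [← hF]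
    exact Subgroup.topologicalClosure_minimal _ ((Subgroup.closure_le _).mpr h1) hS
  have hιs : ∀ v : V, ι v ∈ scal ρ := fun v => ⟨1, fun w => by rw [m.rho_iota]; simp⟩
  have hpre : ∀ B : Finset G, (∀ b ∈ B, b ∈ A) → ∃ W : Submodule ℤ_[p] V, W.FG ∧
      IsClosed (m.img W : Set G) ∧ ∀ b ∈ B, b ∈ m.img W := by
    intro B hB
    refine ⟨Submodule.span ℤ_[p] (B.preimage ι m.inj.injOn : Finset V), ⟨_, rfl⟩,
      m.emb.isClosedMap _ (m.isClosed_span _), fun b hb => ?_⟩
    obtain ⟨v, rfl⟩ := (m.mem b).mp (hB b hb)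
    exact ⟨v, Submodule.subset_span (by simpa using hb), rfl⟩
  by_cases hsA : scal ρ ≤ A
  · obtain ⟨W, hW, hWc, hWF⟩ := hpre F fun f hf => hsA (hFs f hf)
    have htop : W = ⊤ := by
      rw [eq_top_iff]
      intro v _
      obtain ⟨w, hw, e⟩ := hind _ hWc hWF (hιs v)
      exact m.inj e ▸ hw
    exact ⟨htop ▸ hW⟩
  · obtain ⟨s, hs, hsA⟩ := SetLike.not_le_iff_exists.mp hsA
    obtain ⟨W, hW, hWc, hWF⟩ := hpre ((F ×ˢ F).image fun t : G × G => ⁅t.1, t.2⁆) (by
      intro b hb
      obtain ⟨t, ht, rfl⟩ := Finset.mem_image.mp hb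
      rw [Finset.mem_product] at ht
      exact comm_mem_of_scal hA (hFs _ ht.1) (hFs _ ht.2))
    have hnorm : ∀ g ∈ scal ρ, ∀ n ∈ m.img W, g * n * g⁻¹ ∈ m.img W := by
      rintro g ⟨c, hc⟩ _ ⟨w, hw, rfl⟩
      exact ⟨ρ g w, by rw [hc]; exact W.smul_mem _ hw, m.conj g w⟩
    have hstep : ∀ y : G, (∀ f ∈ F, ⁅f, y⁆ ∈ m.img W) → ∀ g ∈ scal ρ, ⁅g, y⁆ ∈ m.img W := by
      intro y hy g hg
      let S : Subgroup G :=
        { carrier := {g | g ∈ scal ρ ∧ ⁅g, y⁆ ∈ m.img W}
          one_mem' := ⟨one_mem _, by simp⟩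
          mul_mem' := by
            rintro a b ⟨ha, ha'⟩ ⟨hb, hb'⟩
            refine ⟨mul_mem ha hb, ?_⟩
            have : ⁅a * b, y⁆ = a * ⁅b, y⁆ * a⁻¹ * ⁅a, y⁆ := by
              simp only [commutatorElement_def]; group
            rw [this]
            exact mul_mem (hnorm a ha _ hb') ha'
          inv_mem' := by
            rintro a ⟨ha, ha'⟩
            refine ⟨inv_mem ha, ?_⟩
            have : ⁅a⁻¹, y⁆ = a⁻¹ * ⁅a, y⁆⁻¹ * a⁻¹⁻¹ := by
              simp only [commutatorElement_def]; group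
            rw [this]
            exact hnorm _ (inv_mem ha) _ (inv_mem ha') }
      have hS : IsClosed (S : Set G) :=
        (scal_closed m).inter (hWc.preimage (f := fun g : G => g * y * g⁻¹ * y⁻¹) (by fun_prop))
      exact (hind S hS (fun f hf => ⟨hFs f hf, hy f hf⟩) hg).2
    have hcomm : ∀ g ∈ scal ρ, ∀ y ∈ scal ρ, ⁅g, y⁆ ∈ m.img W := by
      intro g hg y hy
      refine hstep y (fun f hf => ?_) g hg
      rw [← commutatorElement_inv]
      refine inv_mem (hstep f (fun f' hf' => hWF _ ?_) y hy)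
      exact Finset.mem_image.mpr ⟨(f', f), Finset.mem_product.mpr ⟨hf', hf⟩, rfl⟩
    obtain ⟨β, hβ⟩ := id hs
    have hβ1 : (β : ℤ_[p]) - 1 ≠ 0 := by
      intro h1
      exact hsA (hA s fun v => by rw [hβ, sub_eq_zero.mp h1, one_smul])
    have hmem : ∀ v : V, ((β : ℤ_[p]) - 1) • v ∈ W := by
      intro v
      obtain ⟨w, hw, e⟩ := hcomm s hs _ (hιs v)
      have e2 : ι (((β : ℤ_[p]) - 1) • v) = ⁅s, ι v⁆ := by
        rw [sub_smul, one_smul, m.sub, ← hβ, m.conj, commutatorElement_def]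
      exact m.inj (e.trans e2.symm) ▸ hw
    have : Module.Finite ℤ_[p] W := Module.Finite.iff_fg.mpr hW
    refine Module.Finite.of_injective
      (LinearMap.codRestrict W (((β : ℤ_[p]) - 1) • LinearMap.id : V →ₗ[ℤ_[p]] V) hmem) ?_
    rw [injective_iff_map_eq_zero]
    intro v hv
    exact (m.tf htf (congrArg Subtype.val hv)).resolve_left hβ1

end Pool.Agent.Lib.MP_2dbb30_al.TF
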