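import Pool.Agent.Lib.MP_2dbb30_al.TF.KL
import Pool.Agent.Lib.MP_2dbb30_al.TF.Scal
import Pool.Agent.Lib.MP_2dbb30_al.TF.Lie
import Pool.Agent.Lib.MP_2dbb30_al.TF.CDvr

set_option autoImplicit false
set_option linter.unusedSectionVars false

open Topology Filter Polynomial

namespace Pool.Agent.Lib.MP_2dbb30_al.TF

variable {p : ℕ} [Fact p.Prime] {G : Type*} [Group G] [TopologicalSpace G] [IsTopologicalGroup G]
  [CompactSpace G] [T2Space G] [TotallyDisconnectedSpace G]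
  {V : Type*} [AddCommGroup V] [Module ℤ_[p] V] [TopologicalSpace V] [IsTopologicalAddGroup V]
  {A : Subgroup G} {ι : V → G} {ρ : G →* Module.End ℤ_[p] V}

theorem exists_unit_form {β : ℤ_[p]} (h1 : (p : ℤ_[p]) ^ 2 ∣ β - 1) (h2 : β ≠ 1) :
    ∃ (k : ℕ) (u : ℤ_[p]), IsUnit u ∧ β = 1 + (p : ℤ_[p]) ^ (k + 2) * u := by
  obtain ⟨b, hb⟩ := h1
  have hb0 : b ≠ 0 := by
    rintro rfl
    exact h2 (sub_eq_zero.mp (by simpa using hb))
  refine ⟨b.valuation, PadicInt.unitCoeff hb0, Units.isUnit _, ?_⟩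
  have := PadicInt.unitCoeff_spec hb0
  rw [← sub_eq_iff_eq_add', hb]
  conv_lhs => rw [this]
  ring

theorem Model.isClosed_A (m : Model A ι ρ) : IsClosed (A : Set G) := by
  have : (A : Set G) = Set.range ι := by
    ext g; exact m.mem g
  rw [this]; exact m.emb.isClosed_range

theorem Model.isClosed_sub (m : Model A ι ρ) [Module.Finite ℤ_[p] V] (W : Submodule ℤ_[p] V) :
    IsClosed (W : Set V) := by
  obtain ⟨F, rfl⟩ := IsNoetherian.noetherian W
  exact m.isClosed_span F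

/-- the norm of `g` -/
noncomputable def nrm (p : ℕ) [Fact p.Prime] {V : Type*} [AddCommGroup V] [Module ℤ_[p] V]
    (T : Module.End ℤ_[p] V) : Module.End ℤ_[p] V := ∑ i ∈ Finset.range p, T ^ i

theorem nrm_sub (T : Module.End ℤ_[p] V) (v : V) : nrm p T (T v - v) = (T ^ p) v - v := by
  have := congrArg (fun S : Module.End ℤ_[p] V => S v) (geom_sum_mul T p)
  simpa [nrm] using this

theorem nrm_fix {T : Module.End ℤ_[p] V} {v : V} (h : T v = v) : nrm p T v = (p : ℤ_[p]) • v := by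
  have : ∀ i : ℕ, (T ^ i) v = v := fun i => by
    induction i with
    | zero => rfl
    | succ i ih => rw [pow_succ, Module.End.mul_apply, h, ih]
  simp [nrm, this, Nat.cast_smul_eq_nsmul]

theorem Model.cont_nrm (m : Model A ι ρ) (g : G) : Continuous (nrm p (ρ g)) := by
  have : (nrm p (ρ g) : V → V) = fun v => ∑ i ∈ Finset.range p, ρ (g ^ i) v := by
    ext v; simp [nrm]
  rw [this]
  exact continuous_finsetSum _ fun i _ => m.cont_rho _

theorem quot_tf_p (m : Model A ι ρ) (hG : ProP p G) (htf : ∀ g : G, IsOfFinOrder g → g = 1)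
    (hve : HVE p G) (hA : ∀ g, (∀ v, ρ g v = v) → g ∈ A) (s : G) (β : ℤ_[p])
    (h1 : (p : ℤ_[p]) ^ 2 ∣ β - 1) (h2 : β ≠ 1) (hs : ∀ v, ρ s v = β • v) (g : G)
    (hg : g ^ p ∈ A) : g ∈ A := by
  have := m.t2Space
  have hp : p.Prime := Fact.out
  have hp0 : (p : ℤ_[p]) ≠ 0 := Nat.cast_ne_zero.2 hp.ne_zero
  by_contra hgA
  obtain ⟨z, hz⟩ := (m.mem _).mp hg
  have hz0 : z ≠ 0 := by
    rintro rfl
    rw [m.zero] at hz
    exact hgA (htf g (isOfFinOrder_iff_pow_eq_one.mpr ⟨p, hp.pos, hz.symm⟩) ▸ A.one_mem)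
  have hpz : (p : ℤ_[p]) • z ≠ 0 := fun h => hz0 ((m.tf htf h).resolve_left hp0)
  have hcan : ∀ a b : ℤ_[p], a • (p : ℤ_[p]) • z = b • (p : ℤ_[p]) • z → a = b := by
    intro a b h
    have : (a - b) • (p : ℤ_[p]) • z = 0 := by rw [sub_smul, h, sub_self]
    exact sub_eq_zero.mp ((m.tf htf this).resolve_right hpz)
  have hTz : ρ g z = z := by
    apply m.inj
    rw [m.conj, hz]; group
  have hTp : ∀ v, (ρ g ^ p) v = v := fun v => by rw [← map_pow, ← hz, m.rho_iota]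
  obtain ⟨v, hv⟩ : ∃ v, ρ g v ≠ v := by
    by_contra h
    push Not at h
    exact hgA (hA g h)
  have hNT : ∀ u, nrm p (ρ g) (ρ g u) = nrm p (ρ g) u := fun u => by
    rw [← sub_eq_zero, ← map_sub, nrm_sub, hTp, sub_self]
  set w := ρ g v - v with hw
  have hNw : nrm p (ρ g) w = 0 := by rw [hw, map_sub, hNT, sub_self]
  have hNa : nrm p (ρ g) (z + w) = (p : ℤ_[p]) • z := by rw [map_add, hNw, add_zero, nrm_fix hTz]
  have hy : ∀ u, ρ (g * s) u = β • ρ g u := fun u => by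
    rw [map_mul, Module.End.mul_apply, hs, map_smul]
  have hNy : ∀ u, nrm p (ρ g) (ρ (g * s) u) = β • nrm p (ρ g) u := fun u => by
    rw [hy, map_smul, hNT]
  obtain ⟨k, u, hu, hk⟩ := exists_unit_form h1 h2
  rcases kl' m hG htf hve (g * s) (z + w) with ⟨e, he⟩ | ⟨c, hc⟩ | h3
  · have hn : ∀ (n : ℕ) (x : V), nrm p (ρ g) (ρ ((g * s) ^ n) x) = β ^ n • nrm p (ρ g) x := by
      intro n
      induction n with
      | zero => intro x; simp
      | succ n ih =>
        intro x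
        rw [pow_succ', map_mul, Module.End.mul_apply, hNy, ih, pow_succ', mul_smul]
    have h4 := hn (p ^ e) (z + w)
    rw [he, hNa] at h4
    have h5 : β ^ p ^ e = 1 := hcan _ _ (by rw [← h4, one_smul])
    obtain ⟨u', hu', h6⟩ := pow_prime_pow_eq hu hk e
    rw [h5, left_eq_add] at h6
    exact mul_ne_zero (pow_ne_zero _ hp0) hu'.ne_zero h6
  · have h4 := hNy (z + w)
    rw [hc, map_smul, hNa] at h4
    have h5 : c = β := hcan _ _ h4
    have hβ0 : β ≠ 0 := by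
      rintro rfl
      obtain ⟨b, hb⟩ := h1
      have : IsUnit (p : ℤ_[p]) := IsUnit.of_mul_eq_one (-(p * b)) (by linear_combination hb)
      exact PadicInt.irreducible_p.not_isUnit this
    rw [h5, hy, ← sub_eq_zero, ← smul_sub] at hc
    have h6 : ρ g (z + w) - (z + w) = 0 := (m.tf htf hc).resolve_left hβ0
    rw [map_add, hTz, add_sub_add_left_eq_sub, sub_eq_zero] at h6
    rw [nrm_fix h6] at hNw
    exact hv (sub_eq_zero.mp ((m.tf htf hNw).resolve_left hp0))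
  · let X : AddSubgroup V :=
      ((Submodule.span ℤ_[p] {(p : ℤ_[p]) • z}).comap (nrm p (ρ g))).toAddSubgroup
    have hX : IsClosed (X : Set V) := by
      have := (m.isClosed_span {(p : ℤ_[p]) • z}).preimage (m.cont_nrm g)
      rwa [Finset.coe_singleton] at this
    obtain ⟨x, hx, h4⟩ := h3 X hX
      (by
        show nrm p (ρ g) (z + w) ∈ Submodule.span ℤ_[p] {(p : ℤ_[p]) • z}
        rw [hNa]; exact Submodule.mem_span_singleton_self _)
      (fun x hx => by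
        show nrm p (ρ g) (ρ (g * s) x) ∈ Submodule.span ℤ_[p] {(p : ℤ_[p]) • z}
        rw [hNy]; exact Submodule.smul_mem _ _ hx)
    obtain ⟨c, hc⟩ := Submodule.mem_span_singleton.mp
      (show nrm p (ρ g) x ∈ Submodule.span ℤ_[p] {(p : ℤ_[p]) • z} from hx)
    have h5 := congrArg (nrm p (ρ g)) h4
    rw [map_smul, hNa, map_sub, hNy, ← hc, smul_smul β c, ← sub_smul] at h5
    have h6 := hcan _ _ h5
    obtain ⟨b, hb⟩ := h1
    have h7 : (p : ℤ_[p]) * (1 - p * (b * c)) = 0 := by linear_combination h6 + c * hb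
    have h8 : IsUnit (p : ℤ_[p]) := IsUnit.of_mul_eq_one (b * c)
      (sub_eq_zero.mp ((mul_eq_zero.mp h7).resolve_left hp0)).symm
    exact PadicInt.irreducible_p.not_isUnit h8

/-- with a scalar of infinite order the quotient by `A` is torsion-free -/
theorem quot_tf (m : Model A ι ρ) (hG : ProP p G) (htf : ∀ g : G, IsOfFinOrder g → g = 1)
    (hve : HVE p G) (hA : ∀ g, (∀ v, ρ g v = v) → g ∈ A) (s : G) (β : ℤ_[p])
    (h1 : (p : ℤ_[p]) ^ 2 ∣ β - 1) (h2 : β ≠ 1) (hs : ∀ v, ρ s v = β • v) (g : G) (n : ℕ)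
    (hn : n ≠ 0) (hg : g ^ n ∈ A) : g ∈ A := by
  have hp : p.Prime := Fact.out
  obtain ⟨k, l, hl, rfl⟩ := Nat.exists_eq_pow_mul_and_not_dvd hn p hp.ne_one
  have h3 : ∀ (j : ℕ) (x : G), x ^ p ^ j ∈ A → x ∈ A := by
    intro j
    induction j with
    | zero => intro x hx; simpa using hx
    | succ j ih =>
      intro x hx
      rw [pow_succ, pow_mul] at hx
      exact ih x (quot_tf_p m hG htf hve hA s β h1 h2 hs _ hx)
  rw [mul_comm, pow_mul] at hg
  have h4 := h3 k _ hg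
  have hu : IsUnit (l : ℤ_[p]) := by
    rw [PadicInt.isUnit_iff, PadicInt.norm_natCast_eq_one_iff]
    exact (Nat.Prime.coprime_iff_not_dvd hp).mpr hl
  obtain ⟨u, hu⟩ := hu.exists_right_inv
  have h5 := pw_mem hG m.isClosed_A h4 u
  rwa [pow_pw, hu, ← Nat.cast_one, pw_natCast, pow_one] at h5

theorem Model.cont_linear (m : Model A ι ρ) (htf : ∀ g : G, IsOfFinOrder g → g = 1)
    [Module.Finite ℤ_[p] V] (φ : V →ₗ[ℤ_[p]] ℤ_[p]) : Continuous φ := by
  classical
  have := m.t2Space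
  have : Module.IsTorsionFree ℤ_[p] V :=
    Module.IsTorsionFree.of_smul_eq_zero fun a v h => m.tf htf h
  have : Module.Free ℤ_[p] V := Module.free_of_finite_type_torsion_free'
  let b := Module.finBasis ℤ_[p] V
  have he : (b.equivFun.symm : (Fin (Module.finrank ℤ_[p] V) → ℤ_[p]) → V)
      = fun c => ∑ i, c i • b i := by
    ext c; exact b.equivFun_symm_apply c
  have hc : Continuous (b.equivFun.symm : (Fin (Module.finrank ℤ_[p] V) → ℤ_[p]) → V) := by
    rw [he]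
    exact continuous_finsetSum _ fun i _ => (m.smul (b i)).comp (continuous_apply i)
  let H : (Fin (Module.finrank ℤ_[p] V) → ℤ_[p]) ≃ₜ V :=
    hc.homeoOfEquivCompactToT2 (f := b.equivFun.symm.toEquiv)
  rw [← H.comp_continuous_iff']
  have : φ ∘ H = fun c => ∑ i, c i * φ (b i) := by
    ext c
    show φ (b.equivFun.symm c) = _
    rw [he]; simp
  rw [this]; fun_prop

/-- the quotient by `A` is procyclic (determinant) -/
theorem exists_gen (m : Model A ι ρ) (hG : ProP p G) (htf : ∀ g : G, IsOfFinOrder g → g = 1)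
    [Module.Finite ℤ_[p] V] [Nontrivial V] (hA : ∀ g, (∀ v, ρ g v = v) → g ∈ A)
    (hS : ∀ x : G, ∃ n : ℕ, x ^ p ^ n ∈ scal ρ) (hq : ∀ (g : G) (n : ℕ), n ≠ 0 → g ^ n ∈ A → g ∈ A) :
    ∃ y, ∀ g, ∃ v μ, g = ι v * pw hG y μ := by
  classical
  have hp : p.Prime := Fact.out
  have : Module.IsTorsionFree ℤ_[p] V :=
    Module.IsTorsionFree.of_smul_eq_zero fun a v h => m.tf htf h
  have : Module.Free ℤ_[p] V := Module.free_of_finite_type_torsion_free'
  let b := Module.finBasis ℤ_[p] V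
  let d : G →* ℤ_[p] := (LinearMap.det : (V →ₗ[ℤ_[p]] V) →* ℤ_[p]).comp ρ
  have hd : ∀ g, d g = LinearMap.det (ρ g) := fun _ => rfl
  have hdc : Continuous d := by
    have : (d : G → ℤ_[p]) = fun g => (LinearMap.toMatrix b b (ρ g)).det := by
      ext g; rw [hd, LinearMap.det_toMatrix]
    rw [this]
    refine Continuous.matrix_det (continuous_matrix fun i j => ?_)
    simp only [LinearMap.toMatrix_apply]
    exact (m.cont_linear htf (b.coord i)).comp (m.cont_rho' (b j))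
  have hd1 : ∀ g, (p : ℤ_[p]) ∣ d g - 1 := by
    intro g
    have hU : {g : G | ‖d g - 1‖ < 1} ∈ 𝓝 (1 : G) :=
      (isOpen_lt (by fun_prop) continuous_const).mem_nhds (by simp)
    obtain ⟨N, hN, hNo, hNU⟩ := exists_open_normal hU
    obtain ⟨k, hk⟩ := exists_pow_mem hG N hN hNo
    have h1 : ‖d (g ^ p ^ k) - 1‖ < 1 := hNU (hk g)
    rw [PadicInt.norm_lt_one_iff_dvd, ← Ideal.mem_span_singleton, ← PadicInt.maximalIdeal_eq_span_p,
      ← PadicInt.ker_toZMod, RingHom.mem_ker] at h1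
    rw [← Ideal.mem_span_singleton, ← PadicInt.maximalIdeal_eq_span_p,
      ← PadicInt.ker_toZMod, RingHom.mem_ker]
    rw [map_pow, map_sub, map_pow, ZMod.pow_card_pow, ← map_sub] at h1
    exact h1
  let χ : G →* ℤ_[p] := (powMonoidHom p : ℤ_[p] →* ℤ_[p]).comp d
  have hχ : ∀ g, χ g = d g ^ p := fun _ => rfl
  have hχc : Continuous χ := hdc.pow p
  have hχ1 : ∀ g, (p : ℤ_[p]) ^ 2 ∣ χ g - 1 := fun g => by
    have := dvd_sub_pow_of_dvd_sub (hd1 g) 1
    simpa [hχ] using this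
  have hker : ∀ g, χ g = 1 → g ∈ A := by
    intro g hg
    obtain ⟨n, c, hc⟩ := hS g
    have h1 : ρ (g ^ p ^ n) = (c : ℤ_[p]) • LinearMap.id := LinearMap.ext hc
    have h2 : (c : ℤ_[p]) ^ (Module.finrank ℤ_[p] V * p) = 1 := by
      have h3 : χ (g ^ p ^ n) = 1 := by rw [map_pow, hg, one_pow]
      rwa [hχ, hd, h1, LinearMap.det_smul, LinearMap.det_id, mul_one, ← pow_mul] at h3
    refine hq g (p ^ n * (Module.finrank ℤ_[p] V * p))
      (mul_ne_zero (pow_ne_zero _ hp.ne_zero) (mul_ne_zero Module.finrank_pos.ne' hp.ne_zero))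
      (hA _ fun v => ?_)
    rw [pow_mul, map_pow, h1, _root_.smul_pow, h2, one_smul]
    simp
  obtain ⟨y, -, hy⟩ := isCompact_univ.exists_isMaxOn ⟨(1 : G), trivial⟩
    (f := fun g : G => ‖χ g - 1‖) (by fun_prop)
  refine ⟨y, fun g => ?_⟩
  have hgy : ‖χ g - 1‖ ≤ ‖χ y - 1‖ := hy trivial
  have hmem : χ g ∈ Set.range fun μ : ℤ_[p] => χ (pw hG y μ) := by
    by_cases h2 : χ y = 1
    · rw [h2, sub_self, norm_zero, norm_le_zero_iff, sub_eq_zero] at hgy
      exact ⟨(0 : ℕ), by simp only [pw_natCast, pow_zero, map_one, hgy]⟩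
    obtain ⟨k, u, hu, hk⟩ := exists_unit_form (hχ1 y) h2
    have hdiv : (p : ℤ_[p]) ^ (k + 2) ∣ χ g - 1 := by
      rw [← Ideal.mem_span_singleton, ← PadicInt.norm_le_pow_iff_mem_span_pow]
      refine hgy.trans ?_
      rw [PadicInt.norm_le_pow_iff_mem_span_pow, Ideal.mem_span_singleton, hk, add_sub_cancel_left]
      exact dvd_mul_right _ _
    have hQ : IsClosed (Set.range fun μ : ℤ_[p] => χ (pw hG y μ)) :=
      (isCompact_range (hχc.comp (continuous_pw hG y))).isClosed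
    rw [← hQ.closure_eq, Metric.mem_closure_iff]
    intro ε hε
    obtain ⟨j, hj⟩ := PadicInt.exists_pow_neg_lt p hε
    obtain ⟨n, hn⟩ := exists_pow_approx hu hk hdiv j
    refine ⟨χ y ^ n, ⟨n, by simp only [pw_natCast, map_pow]⟩, lt_of_le_of_lt ?_ hj⟩
    rw [dist_eq_norm, PadicInt.norm_le_pow_iff_mem_span_pow, Ideal.mem_span_singleton]
    exact (pow_dvd_pow _ (Nat.le_add_left j (k + 2))).trans hn
  obtain ⟨μ, hμ⟩ := hmem
  have hμ' : χ (pw hG y μ) = χ g := hμ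
  have h3 : χ (g * (pw hG y μ)⁻¹) = 1 := by
    rw [map_mul, ← hμ', ← map_mul, mul_inv_cancel, map_one]
  obtain ⟨v, hv⟩ := (m.mem _).mp (hker _ h3)
  exact ⟨v, μ, by rw [hv, inv_mul_cancel_right]⟩

theorem condB (m : Model A ι ρ) (hG : ProP p G) (htf : ∀ g : G, IsOfFinOrder g → g = 1)
    (hve : HVE p G) [Module.Finite ℤ_[p] V] (y : G) (hT : ¬ IsOfFinOrder (ρ y))
    (hS : ∃ n : ℕ, y ^ p ^ n ∈ scal ρ) :
    ∀ i : ℕ, (∃ c : ℤ_[p], ρ y ^ p ^ i = c • (1 : Module.End ℤ_[p] V)) ∨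
      ∃ r : ℤ_[p][X], (p : Module.End ℤ_[p] V) = (ρ y ^ p ^ i - 1) * aeval (ρ y ^ p ^ i) r := by
  intro i
  have hp : p.Prime := Fact.out
  set S := ρ y ^ p ^ i with hSdef
  have hS' : ρ (y ^ p ^ i) = S := map_pow _ _ _
  obtain ⟨a, ha⟩ := exists_faithful (fun a v h => m.tf htf h) S
  rcases kl' m hG htf hve (y ^ p ^ i) a with ⟨e, he⟩ | ⟨c, hc⟩ | h3
  · exfalso
    rw [map_pow, hS'] at he
    have h1 := ha (X ^ p ^ e - 1) (by simp [he])
    rw [map_sub, map_pow, aeval_X, map_one, sub_eq_zero, hSdef, ← pow_mul] at h1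
    exact hT (isOfFinOrder_iff_pow_eq_one.mpr
      ⟨_, Nat.mul_pos (pow_pos hp.pos i) (pow_pos hp.pos e), h1⟩)
  · left
    rw [hS'] at hc
    have h1 := ha (X - C c) (by simp [hc])
    rw [map_sub, aeval_X, aeval_C, sub_eq_zero, Algebra.algebraMap_eq_smul_one] at h1
    exact ⟨c, h1⟩
  · right
    let W : Submodule ℤ_[p] V :=
      LinearMap.range ((LinearMap.applyₗ a).comp (aeval S : ℤ_[p][X] →ₐ[ℤ_[p]] _).toLinearMap)
    have hW : ∀ v, v ∈ W ↔ ∃ r : ℤ_[p][X], aeval S r a = v := fun v => Iff.rfl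
    obtain ⟨w, hw, h4⟩ := h3 W.toAddSubgroup (m.isClosed_sub W) ((hW a).mpr ⟨1, by simp⟩)
      (fun v hv => by
        obtain ⟨r, rfl⟩ := (hW v).mp hv
        exact (hW _).mpr ⟨X * r, by simp [hS']⟩)
    obtain ⟨r, rfl⟩ := (hW w).mp hw
    rw [hS'] at h4
    have h1 := ha (C (p : ℤ_[p]) - (X - 1) * r) (by
      rw [map_sub, map_mul, map_sub, aeval_X, map_one, aeval_C, Algebra.algebraMap_eq_smul_one]
      simp [h4])
    rw [map_sub, map_mul, map_sub, aeval_X, map_one, aeval_C, sub_eq_zero, map_natCast] at h1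
    exact ⟨r, h1⟩

end Pool.Agent.Lib.MP_2dbb30_al.TF
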