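import Pool.Agent.Lib.MP_2dbb30_al.TF.CAct
import Pool.Agent.Lib.MP_2dbb30_al.TF.KL
import Pool.Agent.Lib.MP_2dbb30_al.TF.COnlyB

set_option autoImplicit false
set_option linter.unusedSectionVars false

open Topology Filter Polynomial

namespace Pool.Agent.Lib.MP_2dbb30_al.TF

variable {p : ℕ} [Fact p.Prime] {G : Type*} [Group G] [TopologicalSpace G] [IsTopologicalGroup G]
  [CompactSpace G] [T2Space G] [TotallyDisconnectedSpace G]
  {V : Type*} [AddCommGroup V] [Module ℤ_[p] V] [TopologicalSpace V] [IsTopologicalAddGroup V]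
  {A : Subgroup G} {ι : V → G} {ρ : G →* Module.End ℤ_[p] V}

theorem pw_iota_mul (m : Model A ι ρ) (hG : ProP p G) (v : V) (x : G) (ν : ℤ_[p]) :
    ∃ w, pw hG (ι v * x) ν = ι w * pw hG x ν := by
  have h : pw hG (ι v * x) ν * (pw hG x ν)⁻¹ ∈ A := by
    refine padic_nat_ind (P := fun ν => pw hG (ι v * x) ν * (pw hG x ν)⁻¹ ∈ A)
      (m.isClosed_A.preimage ((continuous_pw hG _).mul (continuous_pw hG x).inv)) (fun n => ?_) ν
    rw [pw_natCast, pw_natCast]
    induction n with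
    | zero => simp
    | succ n ih =>
      obtain ⟨w, hw⟩ := (m.mem _).1 ih
      refine (m.mem _).2 ⟨v + ρ x w, ?_⟩
      rw [m.add, m.conj, hw, pow_succ', pow_succ']
      group
  obtain ⟨w, hw⟩ := (m.mem _).1 h
  exact ⟨w, by rw [hw, inv_mul_cancel_right]⟩

theorem rho_iota_mul (m : Model A ι ρ) (v : V) (g : G) : ρ (ι v * g) = ρ g :=
  LinearMap.ext fun w => by rw [map_mul, Module.End.mul_apply, m.rho_iota]

theorem exists_param (L : Submodule ℤ_[p] V) [Module.Finite ℤ_[p] V] :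
    ∃ (n : ℕ) (e : Fin n → L), ∀ l : L, ∃ c : Fin n → ℤ_[p], ∑ i, c i • e i = l := by
  obtain ⟨n, e, he⟩ := Module.Finite.exists_fin (R := ℤ_[p]) (M := L)
  exact ⟨n, e, fun l => (Submodule.mem_span_range_iff_exists_fun _).1 (he ▸ Submodule.mem_top)⟩

theorem isClosed_graph (m : Model A ι ρ) [Module.Finite ℤ_[p] V] (L : Submodule ℤ_[p] V)
    (π : Module.End ℤ_[p] L) : IsClosed {q : V × V | ∃ l : L, q = ((l : V), (π l : V))} := by
  have := m.t2Space
  obtain ⟨n, e, he⟩ := exists_param L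
  have : {q : V × V | ∃ l : L, q = ((l : V), (π l : V))} = Set.range fun c : Fin n → ℤ_[p] =>
      (∑ i, c i • (e i : V), ∑ i, c i • (π (e i) : V)) := by
    ext q
    constructor
    · rintro ⟨l, rfl⟩
      obtain ⟨c, rfl⟩ := he l
      exact ⟨c, by simp⟩
    · rintro ⟨c, rfl⟩
      exact ⟨∑ i, c i • e i, by simp⟩
  rw [this]
  refine (isCompact_range (Continuous.prodMk ?_ ?_)).isClosed <;>
    exact continuous_finsetSum _ fun i _ => (m.smul _).comp (continuous_apply i)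

theorem exists_nhds_p (m : Model A ι ρ) [Module.Finite ℤ_[p] V] (L : Submodule ℤ_[p] V) :
    ∃ U ∈ 𝓝 (0 : V), ∀ v : L, (v : V) ∈ U → ∃ w : L, v = (p : ℤ_[p]) • w := by
  have := m.t2Space
  obtain ⟨n, e, he⟩ := exists_param L
  let K : AddSubgroup (Fin n → ℤ_[p]) :=
    { carrier := {c | ∃ w : L, ∑ i, c i • e i = (p : ℤ_[p]) • w}
      zero_mem' := ⟨0, by simp⟩
      add_mem' := by
        rintro a b ⟨w, hw⟩ ⟨w', hw'⟩
        exact ⟨w + w', by simp [add_smul, Finset.sum_add_distrib, hw, hw']⟩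
      neg_mem' := by
        rintro a ⟨w, hw⟩
        exact ⟨-w, by simp [hw]⟩ }
  have hK : IsOpen (K : Set (Fin n → ℤ_[p])) := by
    refine AddSubgroup.isOpen_of_mem_nhds K (g := 0) ?_
    filter_upwards [Metric.ball_mem_nhds (0 : Fin n → ℤ_[p]) one_pos] with c hc
    rw [mem_ball_zero_iff, pi_norm_lt_iff one_pos] at hc
    choose c' hc' using fun i => (PadicInt.norm_lt_one_iff_dvd _).1 (hc i)
    exact ⟨∑ i, c' i • e i, by simp [hc', Finset.smul_sum, mul_smul]⟩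
  have hq : Continuous fun c : Fin n → ℤ_[p] => ∑ i, c i • (e i : V) :=
    continuous_finsetSum _ fun i _ => (m.smul _).comp (continuous_apply i)
  have hC := (hK.isClosed_compl.isCompact.image hq).isClosed
  refine ⟨_, hC.isOpen_compl.mem_nhds ?_, fun v hv => ?_⟩
  · rintro ⟨c, hc, h0⟩
    exact hc ⟨0, Subtype.ext (by simpa using h0)⟩
  · obtain ⟨c, rfl⟩ := he v
    by_contra h
    exact hv ⟨c, h, by simp⟩

theorem aeval_restrict_coe {L : Submodule ℤ_[p] V} {S : Module.End ℤ_[p] V}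
    (hS : ∀ v ∈ L, S v ∈ L) (f : ℤ_[p][X]) (l : L) :
    (aeval (S.restrict hS : Module.End ℤ_[p] L) f l : V) = aeval S f (l : V) := by
  induction f using Polynomial.induction_on' with
  | add f g hf hg => simp [hf, hg]
  | monomial n a =>
    simp only [aeval_monomial, Module.End.mul_apply, Module.algebraMap_end_apply,
      Submodule.coe_smul]
    rw [Module.End.pow_restrict n hS]
    rfl

theorem exists_shift (m : Model A ι ρ) (hG : ProP p G) (htf : ∀ g : G, IsOfFinOrder g → g = 1)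
    [Module.Finite ℤ_[p] V] (L : Submodule ℤ_[p] V) [Nontrivial L] (g : G)
    (hS : ∀ v ∈ L, ρ g v ∈ L)
    (hP : (∃ c : ℤ_[p], ρ g = c • (1 : Module.End ℤ_[p] V)) ∨
      ∃ r : ℤ_[p][X], (p : Module.End ℤ_[p] V) = (ρ g - 1) * aeval (ρ g) r) :
    ∃ π : Module.End ℤ_[p] L, Function.Injective π ∧
      (∀ l : L, (π ⟨ρ g l, hS _ l.2⟩ : V) = ρ g (π l)) ∧
      (LinearMap.range π).toAddSubgroup.index = p ∧
      ∀ v, (∀ n : ℕ, v ∈ LinearMap.range (π ^ n)) → v = 0 := by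
  have htL : ∀ (a : ℤ_[p]) (v : L), a • v = 0 → a = 0 ∨ v = 0 := fun a v h =>
    (m.tf htf (congrArg Subtype.val h)).imp_right Subtype.ext
  rcases hP with ⟨c, hc⟩ | ⟨r, hr⟩
  · obtain ⟨π, h1, h2, h3⟩ := exists_shift_p (p := p) htL
    refine ⟨π, h1, fun l => ?_, h2, h3⟩
    have : (⟨ρ g l, hS _ l.2⟩ : L) = c • l := Subtype.ext (by simp [hc])
    rw [this, hc]
    simp
  · let S : Module.End ℤ_[p] L := (ρ g).restrict hS
    have ht : ∀ (n : ℕ) (l : L), (((S - 1) ^ n) l : V) = ((ρ g - 1) ^ n) (l : V) := by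
      intro n l
      have := aeval_restrict_coe hS ((X - 1) ^ n) l
      simpa using this
    obtain ⟨π, h1, h2, h3, h4⟩ := exists_shift_t (p := p) htL (S - 1) (r.comp (X + 1))
      (fun v => Subtype.ext (by
        have h := congrArg (fun f : Module.End ℤ_[p] V => f (v : V)) hr
        have h' := ht 1 (aeval S r v)
        rw [pow_one, pow_one, aeval_restrict_coe] at h'
        rw [aeval_comp]
        simp only [map_add, aeval_X, map_one, sub_add_cancel]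
        rw [h', ← Module.End.mul_apply, ← h]
        simp [Nat.cast_smul_eq_nsmul]))
      (by
        obtain ⟨U, hU, hUp⟩ := exists_nhds_p m L
        obtain ⟨n, hn⟩ := m.small_t hG hU
        exact ⟨n, fun v => hUp _ (by rw [ht]; exact hn g v)⟩)
    refine ⟨π, h1, fun l => ?_, h3, h4⟩
    have h := congrArg (fun f : Module.End ℤ_[p] L => f l) h2
    simp only [Module.End.mul_apply, LinearMap.sub_apply, Module.End.one_apply, map_sub,
      sub_left_inj] at h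
    exact congrArg Subtype.val h

theorem ve_caseB (m : Model A ι ρ) (hG : ProP p G) (htf : ∀ g : G, IsOfFinOrder g → g = 1)
    [Module.Finite ℤ_[p] V] (y : G) (hgen : ∀ g, ∃ v μ, g = ι v * pw hG y μ)
    (hT : ¬ IsOfFinOrder (ρ y))
    (hP : ∀ i : ℕ, (∃ c : ℤ_[p], ρ y ^ p ^ i = c • (1 : Module.End ℤ_[p] V)) ∨
      ∃ r : ℤ_[p][X], (p : Module.End ℤ_[p] V) = (ρ y ^ p ^ i - 1) * aeval (ρ y ^ p ^ i) r)
    (H : Subgroup G) (hne : H ≠ ⊥)
    (hfg : ∃ F : Finset G, (Subgroup.closure (F : Set G)).topologicalClosure = H) : VE p H := by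
  classical
  have := m.t2Space
  have hp : p.Prime := Fact.out
  have hp0 : (p : ℤ_[p]) ≠ 0 := Nat.cast_ne_zero.2 hp.ne_zero
  have hH : IsClosed (H : Set G) := by
    obtain ⟨F, rfl⟩ := hfg
    exact Subgroup.isClosed_topologicalClosure _
  have hunit : ∀ μ : ℤ_[p], μ ≠ 0 → ∃ u : ℤ_[p], μ * u = (p ^ μ.valuation : ℕ) := fun μ hμ =>
    ⟨((PadicInt.unitCoeff hμ)⁻¹ : ℤ_[p]ˣ), by
      rw [Units.mul_inv_eq_iff_eq_mul, mul_comm]
      push_cast
      exact PadicInt.unitCoeff_spec hμ⟩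
  have hfix : ∀ (μ : ℤ_[p]) (w : V), w ≠ 0 → ρ (pw hG y μ) w = w → μ = 0 := by
    intro μ w hw h
    by_contra hμ
    obtain ⟨u, hu⟩ := hunit μ hμ
    have h1 : ρ (pw hG (pw hG y μ) u) w = w := by
      refine padic_nat_ind (P := fun u => ρ (pw hG (pw hG y μ) u) w = w)
        (isClosed_eq ((m.cont_rho' w).comp (continuous_pw hG _)) continuous_const) (fun n => ?_) u
      rw [pw_natCast]
      induction n with
      | zero => simp
      | succ n ih => rw [pow_succ, map_mul, Module.End.mul_apply, h, ih]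
    rw [← pw_mul, hu, pw_natCast, map_pow] at h1
    rcases hP μ.valuation with ⟨c, hc⟩ | ⟨r, hr⟩
    · have h2 : (c - 1) • w = 0 := by
        rw [hc] at h1
        rw [sub_smul, one_smul, sub_eq_zero]
        simpa using h1
      rw [sub_eq_zero.1 ((m.tf htf h2).resolve_right hw), one_smul] at hc
      exact hT (isOfFinOrder_iff_pow_eq_one.2 ⟨_, pow_pos hp.pos _, hc⟩)
    · have h2 : (ρ y ^ p ^ μ.valuation - 1) * aeval (ρ y ^ p ^ μ.valuation) r =
          aeval (ρ y ^ p ^ μ.valuation) r * (ρ y ^ p ^ μ.valuation - 1) := by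
        have := congrArg (aeval (ρ y ^ p ^ μ.valuation)) (mul_comm (X - 1) r)
        simpa using this
      have h3 := congrArg (fun f : Module.End ℤ_[p] V => f w) (hr.trans h2)
      simp only [Module.End.mul_apply, LinearMap.sub_apply, h1, Module.End.one_apply, sub_self,
        map_zero, Module.End.natCast_apply] at h3
      rw [← Nat.cast_smul_eq_nsmul ℤ_[p]] at h3
      exact hw ((m.tf htf h3).resolve_left hp0)
  by_cases hΛ : ∃ i : ℕ, ∃ v μ, μ ≠ 0 ∧ μ.valuation = i ∧ ι v * pw hG y μ ∈ H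
  swap
  · refine ve_abelian hG htf H hne hfg ?_
    have h1 : ∀ a ∈ H, ∃ v, a = ι v := fun a ha => by
      obtain ⟨v, μ, rfl⟩ := hgen a
      by_cases hμ : μ = 0
      · exact ⟨v, by simp [hμ]⟩
      · exact absurd ⟨_, v, μ, hμ, rfl, ha⟩ hΛ
    intro a ha b hb
    obtain ⟨v, rfl⟩ := h1 a ha
    obtain ⟨w, rfl⟩ := h1 b hb
    rw [← m.add, ← m.add, add_comm]
  obtain ⟨v1, μ1, hμ1, hval, h1H⟩ := Nat.find_spec hΛ
  set i := Nat.find hΛ with hi
  obtain ⟨u, hu⟩ := hunit μ1 hμ1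
  obtain ⟨v0, hv0⟩ := pw_iota_mul m hG v1 (pw hG y μ1) u
  rw [← pw_mul, hu, hval, pw_natCast] at hv0
  have h0H : ι v0 * y ^ p ^ i ∈ H := hv0 ▸ pw_mem hG hH h1H u
  set h0 := ι v0 * y ^ p ^ i with hh0
  have hρ0 : ρ h0 = ρ y ^ p ^ i := by rw [hh0, rho_iota_mul m, map_pow]
  have hκ : ∀ ν, ∃ w, pw hG h0 ν = ι w * pw hG y ((p : ℤ_[p]) ^ i * ν) := fun ν => by
    obtain ⟨w, hw⟩ := pw_iota_mul m hG v0 (y ^ p ^ i) ν
    exact ⟨w, by rw [hw, pow_pw, Nat.cast_pow]⟩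
  have hκH : ∀ ν, pw hG h0 ν ∈ H := pw_mem hG hH h0H
  let L : Submodule ℤ_[p] V :=
    { m.trace H with
      smul_mem' := fun a v hv =>
        m.smul_mem (X := m.trace H) (hH.preimage m.emb.continuous) a hv }
  have hL : ∀ v, v ∈ L ↔ ι v ∈ H := fun _ => Iff.rfl
  have hLH : ∀ h ∈ H, ∀ v ∈ L, ρ h v ∈ L := fun h hh v hv => by
    rw [hL, m.conj]
    exact H.mul_mem (H.mul_mem hh hv) (H.inv_mem hh)
  have hdec : ∀ h ∈ H, ∃ (l : L) (ν : ℤ_[p]), h = ι l * pw hG h0 ν := fun h hh => by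
    obtain ⟨v, μ, rfl⟩ := hgen h
    obtain ⟨ν, rfl⟩ : (p : ℤ_[p]) ^ i ∣ μ := by
      by_cases hμ : μ = 0
      · simp [hμ]
      · have h2 : i ≤ μ.valuation := Nat.find_min' hΛ ⟨v, μ, hμ, rfl, hh⟩
        rw [PadicInt.unitCoeff_spec hμ]
        exact (pow_dvd_pow _ h2).mul_left _
    obtain ⟨w, hw⟩ := hκ ν
    have h2 : ι (v - w) = ι v * pw hG y ((p : ℤ_[p]) ^ i * ν) * (pw hG h0 ν)⁻¹ := by
      rw [m.sub, hw]; group
    exact ⟨⟨v - w, by rw [hL, h2]; exact H.mul_mem hh (H.inv_mem (hκH ν))⟩, ν, by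
      rw [h2, inv_mul_cancel_right]⟩
  rcases subsingleton_or_nontrivial L with hLs | hLn
  · refine ve_abelian hG htf H hne hfg fun a ha b hb => ?_
    obtain ⟨l, μ, rfl⟩ := hdec a ha
    obtain ⟨l', ν, rfl⟩ := hdec b hb
    rw [Subsingleton.elim l 0, Subsingleton.elim l' 0, Submodule.coe_zero, m.zero, one_mul, one_mul,
      ← pw_add, ← pw_add, add_comm]
  obtain ⟨w0, hw0⟩ := exists_ne (0 : L)
  have hw0' : (w0 : V) ≠ 0 := fun h => hw0 (Subtype.ext h)
  have hfix' : ∀ ν, ρ (pw hG h0 ν) w0 = w0 → ν = 0 := fun ν h => by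
    obtain ⟨w, hw⟩ := hκ ν
    rw [hw, rho_iota_mul m] at h
    exact (mul_eq_zero.1 (hfix _ _ hw0' h)).resolve_left (pow_ne_zero _ hp0)
  have huniq : ∀ (v w : V) (μ ν : ℤ_[p]), ι v * pw hG h0 μ = ι w * pw hG h0 ν → v = w ∧ μ = ν := by
    intro v w μ ν h
    have h2 : pw hG h0 (μ - ν) = ι (-v + w) := by
      rw [pw_sub, m.add, m.neg, mul_inv_eq_iff_eq_mul, mul_assoc, ← h, inv_mul_cancel_left]
    obtain rfl : μ = ν := sub_eq_zero.1 (hfix' _ (by rw [h2, m.rho_iota]))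
    exact ⟨m.inj (mul_right_cancel h), rfl⟩
  obtain ⟨π, hπ, hπc, hidx, hint⟩ := exists_shift m hG htf L h0 (hLH h0 h0H) (hρ0 ▸ hP i)
  have hπκ : ∀ (ν : ℤ_[p]) (l : L),
      (π ⟨ρ (pw hG h0 ν) l, hLH _ (hκH ν) _ l.2⟩ : V) = ρ (pw hG h0 ν) (π l) := by
    intro ν l
    have : ∃ l' : L, (ρ (pw hG h0 ν) l, ρ (pw hG h0 ν) (π l)) = ((l' : V), (π l' : V)) := by
      refine padic_nat_ind
        (P := fun ν => ∃ l' : L, (ρ (pw hG h0 ν) l, ρ (pw hG h0 ν) (π l)) = ((l' : V), (π l' : V)))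
        ((isClosed_graph m L π).preimage (((m.cont_rho' l).comp (continuous_pw hG h0)).prodMk
          ((m.cont_rho' (π l)).comp (continuous_pw hG h0)))) (fun n => ?_) ν
      rw [pw_natCast]
      induction n with
      | zero => exact ⟨l, by simp⟩
      | succ n ih =>
        obtain ⟨l', h⟩ := ih
        obtain ⟨h1, h2⟩ := Prod.mk.inj h
        exact ⟨⟨ρ h0 l', hLH h0 h0H _ l'.2⟩, by
          rw [hπc, pow_succ', map_mul, Module.End.mul_apply, Module.End.mul_apply, h1, h2]⟩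
    obtain ⟨l', h⟩ := this
    obtain ⟨h1, h2⟩ := Prod.mk.inj h
    rw [h2, show (⟨ρ (pw hG h0 ν) l, hLH _ (hκH ν) _ l.2⟩ : L) = l' from Subtype.ext h1]
  have hmul : ∀ (v w : V) (μ ν : ℤ_[p]), ι v * pw hG h0 μ * (ι w * pw hG h0 ν) =
      ι (v + ρ (pw hG h0 μ) w) * pw hG h0 (μ + ν) := fun v w μ ν => by
    rw [m.add, m.conj, pw_add]; group
  let D : Subgroup G :=
    { carrier := {g | ∃ (l : L) (ν : ℤ_[p]), g = ι (π l) * pw hG h0 ν}
      one_mem' := ⟨0, 0, by simp [m.zero]⟩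
      mul_mem' := by
        rintro _ _ ⟨l, μ, rfl⟩ ⟨l', ν, rfl⟩
        exact ⟨l + ⟨ρ (pw hG h0 μ) l', hLH _ (hκH μ) _ l'.2⟩, μ + ν, by
          rw [hmul, map_add, Submodule.coe_add, hπκ]⟩
      inv_mem' := by
        rintro _ ⟨l, μ, rfl⟩
        refine ⟨-⟨ρ (pw hG h0 (-μ)) l, hLH _ (hκH _) _ l.2⟩, -μ, ?_⟩
        rw [map_neg, Submodule.coe_neg, hπκ, m.neg, m.conj, pw_neg]
        group }
  have hDH : D ≤ H := by
    rintro _ ⟨l, μ, rfl⟩
    exact H.mul_mem (π l).2 (hκH μ)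
  have hDi : D.relIndex H = p := by
    refine Eq.trans ?_ hidx
    refine relIndex_of_cover (fun l : L => ι l) (fun v w => m.add _ _) (fun l => l.2) _
      (fun l => ⟨?_, ?_⟩) fun g hg => ?_
    · rintro ⟨l', ν, h⟩
      exact ⟨l', Subtype.ext (huniq _ _ 0 ν (by simpa using h)).1.symm⟩
    · rintro ⟨l', rfl⟩
      exact ⟨l', 0, by simp⟩
    · obtain ⟨l, ν, rfl⟩ := hdec g hg
      exact ⟨l, 0, ν, by simp [m.zero]⟩
  let f : G → G := fun g =>
    if h : ∃ q : L × ℤ_[p], g = ι (π q.1) * pw hG h0 q.2 then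
      ι h.choose.1 * pw hG h0 h.choose.2 else 1
  have hf : ∀ (l : L) (ν : ℤ_[p]), f (ι (π l) * pw hG h0 ν) = ι l * pw hG h0 ν := fun l ν => by
    have h : ∃ q : L × ℤ_[p], ι (π l) * pw hG h0 ν = ι (π q.1) * pw hG h0 q.2 := ⟨(l, ν), rfl⟩
    simp only [f, dif_pos h]
    obtain ⟨h1, h2⟩ := huniq _ _ _ _ h.choose_spec
    rw [← h2, ← hπ (Subtype.ext h1)]
  refine ⟨D, f, hDH, fun h hh d hd => normal_rel hG hH hDi h hh d (hDH hd) hd, hDi, ?_, ?_, ?_⟩
  · rintro _ ⟨l, μ, rfl⟩ _ ⟨l', ν, rfl⟩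
    rw [hf, hf, hmul, hmul, ← hπκ, ← Submodule.coe_add, ← map_add, hf]
    rfl
  · rintro _ ⟨l, μ, rfl⟩
    rw [hf]
    exact H.mul_mem l.2 (hκH μ)
  · intro N hN hNn hinv
    have key : ∀ n : ℕ, ∀ l : L, ι l ∈ N → l ∈ LinearMap.range (π ^ n) := by
      intro n
      induction n with
      | zero => exact fun v _ => ⟨v, rfl⟩
      | succ n ih =>
        intro l hl
        obtain ⟨l', ν, h⟩ := hN hl
        obtain ⟨h1, rfl⟩ := huniq _ _ 0 ν (by simpa using h)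
        have h2 := hinv _ hl
        rw [h, hf, pw_zero, mul_one] at h2
        obtain ⟨u, rfl⟩ := ih l' h2
        exact ⟨u, by rw [pow_succ', Module.End.mul_apply]; exact Subtype.ext h1.symm⟩
    have key0 : ∀ l : L, ι l ∈ N → l = 0 := fun l hl => hint l fun n => key n l hl
    rw [eq_bot_iff]
    intro g hg
    have hgH : g ∈ H := hDH (hN hg)
    have h1 := key0 (⟨ρ g w0, hLH g hgH _ w0.2⟩ - w0) (by
      have h2 := N.mul_mem hg (hNn _ w0.2 _ (N.inv_mem hg))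
      rw [Submodule.coe_sub, m.sub, m.conj]
      convert h2 using 1
      group)
    have h2 : ρ g w0 = w0 := congrArg Subtype.val (sub_eq_zero.1 h1)
    obtain ⟨l, ν, rfl⟩ := hN hg
    rw [rho_iota_mul m] at h2
    obtain rfl := hfix' ν h2
    rw [pw_zero, mul_one] at hg ⊢
    rw [key0 _ hg]
    exact m.zero

end Pool.Agent.Lib.MP_2dbb30_al.TF
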