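import Pool.Agent.Lib.MP_2dbb30_al.TF.KL
import Pool.Agent.Lib.MP_2dbb30_al.TF.CDvr
import Pool.Agent.Lib.MP_2dbb30_al.TF.COnlyB

set_option autoImplicit false
set_option linter.unusedSectionVars false

open Topology Filter Polynomial

namespace Pool.Agent.Lib.MP_2dbb30_al.TF

variable {p : ℕ} [Fact p.Prime] {G : Type*} [Group G] [TopologicalSpace G] [IsTopologicalGroup G]
  [CompactSpace G] [T2Space G] [TotallyDisconnectedSpace G]
  {V : Type*} [AddCommGroup V] [Module ℤ_[p] V] [TopologicalSpace V] [IsTopologicalAddGroup V]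
  {A : Subgroup G} {ι : V → G} {ρ : G →* Module.End ℤ_[p] V}

theorem Model.pw_iota' (m : Model A ι ρ) (hG : ProP p G) (z : V) (ν : ℤ_[p]) :
    pw hG (ι z) ν = ι (ν • z) :=
  padic_ind (P := fun ν => pw hG (ι z) ν = ι (ν • z))
    (isClosed_eq (continuous_pw hG _) (m.emb.continuous.comp (m.smul z)))
    (fun n => by rw [pw_intCast, Int.cast_smul_eq_zsmul, m.zsmul]) ν

/-- an additive map to the `p`-adic integers is linear -/
theorem additive_smul {L : Type*} [AddCommGroup L] [Module ℤ_[p] L] (θ : L →+ ℤ_[p]) (a : ℤ_[p])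
    (l : L) : θ (a • l) = a * θ l := by
  have hp : p.Prime := Fact.out
  refine sub_eq_zero.mp (eq_zero_of_forall_pow (p := p) fun k => ?_)
  obtain ⟨n, b, hb⟩ := exists_int_approx a k
  have ha : a = n + (p : ℤ_[p]) ^ k * b := by linear_combination hb
  refine ⟨θ (b • l) - b * θ l, ?_⟩
  have h1 : θ (a • l) = n * θ l + (p : ℤ_[p]) ^ k * θ (b • l) := by
    rw [ha, add_smul, map_add, Int.cast_smul_eq_zsmul, map_zsmul, mul_smul, ← Nat.cast_pow,
      Nat.cast_smul_eq_nsmul, map_nsmul, zsmul_eq_mul, nsmul_eq_mul]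
  rw [h1, smul_eq_mul]
  linear_combination (-θ l) * ha

theorem rank_lt (m : Model A ι ρ) (hG : ProP p G) (htf : ∀ g : G, IsOfFinOrder g → g = 1)
    (hve : ∀ F : Finset G, (Subgroup.closure (F : Set G)).topologicalClosure ≠ ⊥ →
      VE p (Subgroup.closure (F : Set G)).topologicalClosure)
    [Module.Finite ℤ_[p] V] (x : G) (hx : x ^ p ∈ A) :
    Module.finrank ℤ_[p] (LinearMap.range (ρ x - 1 : Module.End ℤ_[p] V)) < p := by
  classical
  have := m.compactSpace
  have hp : p.Prime := Fact.out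
  have hp0 : (p : ℤ_[p]) ≠ 0 := Nat.cast_ne_zero.2 hp.ne_zero
  have htp : ∀ v : V, (p : ℤ_[p]) • v = 0 → v = 0 := fun v h => (m.tf htf h).resolve_left hp0
  set T := ρ x with hT
  set L := LinearMap.range (T - 1 : Module.End ℤ_[p] V) with hL
  by_cases hT1 : T = 1
  · have : L = ⊥ := by rw [hL, hT1, sub_self, LinearMap.range_eq_bot]
    rw [this, finrank_bot]; exact hp.pos
  obtain ⟨z, hz⟩ := (m.mem _).mp hx
  have hρι : ∀ v, ρ (ι v) = 1 := fun v => LinearMap.ext (m.rho_iota v)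
  have hTp : T ^ p = 1 := by rw [hT, ← map_pow, ← hz, hρι]
  have hx1 : x ≠ 1 := fun h => hT1 (by rw [hT, h, map_one])
  have hz0 : z ≠ 0 := by
    rintro rfl
    rw [m.zero] at hz
    exact hx1 (htf x (isOfFinOrder_iff_pow_eq_one.mpr ⟨p, hp.pos, hz.symm⟩))
  have hTz : T z = z := by
    apply m.inj
    rw [hT, m.conj, hz]; group
  have hLmem : ∀ v, T v - v ∈ L := fun v => ⟨v, rfl⟩
  have hLT : ∀ l ∈ L, T l ∈ L := fun l hl => by
    have := L.add_mem (hLmem l) hl
    rwa [sub_add_cancel] at this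
  have hLN : ∀ l ∈ L, nrm p T l = 0 := by
    rintro _ ⟨v, rfl⟩
    show nrm p T (T v - v) = 0
    rw [nrm_sub, hTp]; simp
  have hLfix : ∀ l ∈ L, T l = l → l = 0 := fun l hl h => htp l (by rw [← nrm_fix h, hLN l hl])
  set Z := Submodule.span ℤ_[p] {z} with hZ
  set W := L ⊔ Z with hW
  have hZT : ∀ w ∈ Z, T w = w := by
    intro w hw
    obtain ⟨c, rfl⟩ := Submodule.mem_span_singleton.mp hw
    rw [map_smul, hTz]
  have hWT : ∀ w ∈ W, T w ∈ W := by
    intro w hw
    obtain ⟨l, hl, u, hu, rfl⟩ := Submodule.mem_sup.mp hw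
    rw [map_add, hZT u hu]
    exact Submodule.add_mem_sup (hLT l hl) hu
  have hpowT : ∀ U : Submodule ℤ_[p] V, (∀ w ∈ U, T w ∈ U) → ∀ (i : ℕ), ∀ w ∈ U, (T ^ i) w ∈ U := by
    intro U hU i
    induction i with
    | zero => intro w hw; exact hw
    | succ i ih => intro w hw; rw [pow_succ', Module.End.mul_apply]; exact hU _ (ih w hw)
  have hfix : ∀ w ∈ W, T w = w → w ∈ Z := by
    intro w hw h
    obtain ⟨l, hl, u, hu, rfl⟩ := Submodule.mem_sup.mp hw
    rw [map_add, hZT u hu, add_left_inj] at h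
    rw [hLfix l hl h, zero_add]; exact hu
  have hconj : ∀ (g : G) (v : V), g * ι v = ι (ρ g v) * g := fun g v => by rw [m.conj]; group
  -- the subgroup `H`
  obtain ⟨F, hF⟩ := IsNoetherian.noetherian L
  set H := (Subgroup.closure ((insert x (F.image ι) : Finset G) : Set G)).topologicalClosure with hH
  have hHc : IsClosed (H : Set G) := Subgroup.isClosed_topologicalClosure _
  have hxH : x ∈ H := Subgroup.le_topologicalClosure _ (Subgroup.subset_closure (by simp))
  have hWH : ∀ w ∈ W, ι w ∈ H := by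
    let U : Submodule ℤ_[p] V :=
      { m.trace H with
        smul_mem' := fun a v hv => m.smul_mem (X := m.trace H) (hHc.preimage m.emb.continuous) a hv }
    have h1 : L ≤ U := by
      rw [← hF, Submodule.span_le]
      intro v hv
      exact Subgroup.le_topologicalClosure _ (Subgroup.subset_closure (by
        simp only [Finset.coe_insert, Finset.coe_image]
        exact Or.inr ⟨v, hv, rfl⟩))
    have h2 : Z ≤ U := by
      rw [hZ, Submodule.span_le, Set.singleton_subset_iff]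
      show ι z ∈ H
      rw [hz]; exact H.pow_mem hxH p
    exact fun w hw => (sup_le h1 h2 : W ≤ U) hw
  have hzW : ∀ c : ℤ_[p], c • z ∈ W := fun c =>
    Submodule.mem_sup_right (Submodule.smul_mem _ _ (Submodule.mem_span_singleton_self z))
  have hred : ∀ w ∈ W, ∀ j : ℕ, ∃ w' ∈ W, ∃ j' < p, ι w * x ^ j = ι w' * x ^ j' := by
    intro w hw j
    refine ⟨w + ((j / p : ℕ) : ℤ_[p]) • z, W.add_mem hw (hzW _), j % p, Nat.mod_lt _ hp.pos, ?_⟩
    rw [m.add, Nat.cast_smul_eq_nsmul, m.nsmul, hz, ← pow_mul, mul_assoc, ← pow_add,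
      Nat.div_add_mod]
  have hHdec : ∀ h ∈ H, ∃ w ∈ W, ∃ j < p, h = ι w * x ^ j := by
    let S : Subgroup G :=
      { carrier := {h | ∃ w ∈ W, ∃ j < p, h = ι w * x ^ j}
        one_mem' := ⟨0, W.zero_mem, 0, hp.pos, by simp [m.zero]⟩
        mul_mem' := by
          rintro _ _ ⟨w, hw, j, -, rfl⟩ ⟨w', hw', j', -, rfl⟩
          have e : ι w * x ^ j * (ι w' * x ^ j') = ι (w + (T ^ j) w') * x ^ (j + j') := by
            rw [m.add, hT, ← map_pow, m.conj]; group
          rw [e]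
          exact hred _ (W.add_mem hw (hpowT W hWT j _ hw')) _
        inv_mem' := by
          rintro _ ⟨w, hw, j, hj, rfl⟩
          have e : (ι w * x ^ j)⁻¹ = ι (-z - (T ^ (p - j)) w) * x ^ (p - j) := by
            have e1 : x ^ p = x ^ (p - j) * x ^ j := by rw [← pow_add, Nat.sub_add_cancel hj.le]
            have e2 : x ^ p = x ^ j * x ^ (p - j) := by rw [← pow_add, Nat.add_sub_cancel' hj.le]
            rw [m.sub, m.neg, hz, hT, ← map_pow, m.conj, e2]; group
          rw [e]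
          refine hred _ (W.sub_mem (W.neg_mem ?_) (hpowT W hWT _ _ hw)) _
          simpa using hzW 1 }
    have hS : IsClosed (S : Set G) := by
      have e : (S : Set G) = ⋃ j ∈ Finset.range p, (fun w : V => ι w * x ^ j) '' (W : Set V) := by
        ext h
        simp only [Set.mem_iUnion, Finset.mem_range]
        constructor
        · rintro ⟨w, hw, j, hj, rfl⟩; exact ⟨j, hj, w, hw, rfl⟩
        · rintro ⟨j, hj, w, hw, rfl⟩; exact ⟨w, hw, j, hj, rfl⟩
      rw [e]
      exact isClosed_biUnion_finset fun j _ => ((m.isClosed_sub W).isCompact.image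
        (m.emb.continuous.mul continuous_const)).isClosed
    refine fun h hh => Subgroup.topologicalClosure_minimal _ ((Subgroup.closure_le S).mpr ?_) hS hh
    intro g hg
    simp only [Finset.coe_insert, Finset.coe_image] at hg
    rcases hg with rfl | ⟨v, hv, rfl⟩
    · exact ⟨0, W.zero_mem, 1, hp.one_lt, by simp [m.zero]⟩
    · exact ⟨v, Submodule.mem_sup_left (hF ▸ Submodule.subset_span hv), 0, hp.pos, by simp⟩
  have hcop : ∀ j : ℕ, ¬ p ∣ j → ∃ k : ℕ, (T ^ j) ^ k = T := by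
    intro j hj
    obtain ⟨k, -, hk⟩ := Nat.exists_mul_mod_eq_one_of_coprime
      ((Nat.Prime.coprime_iff_not_dvd hp).mpr hj).symm hp.one_lt
    exact ⟨k, by rw [← pow_mul, pow_eq_pow_mod _ hTp, hk, pow_one]⟩
  have hdvd : ∀ j : ℕ, T ^ j = 1 → p ∣ j := by
    intro j h
    by_contra hj
    obtain ⟨k, hk⟩ := hcop j hj
    exact hT1 (by rw [← hk, h, one_pow])
  have hρH : ∀ h ∈ H, ∃ j : ℕ, ρ h = T ^ j := by
    intro h hh
    obtain ⟨w, -, j, -, rfl⟩ := hHdec h hh
    exact ⟨j, by rw [map_mul, hρι, one_mul, map_pow]⟩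
  have hker : ∀ h ∈ H, ρ h = 1 → ∃ w ∈ W, h = ι w := by
    intro h hh h1
    obtain ⟨w, hw, j, hj, rfl⟩ := hHdec h hh
    rw [map_mul, hρι, one_mul, map_pow] at h1
    rw [Nat.eq_zero_of_dvd_of_lt (hdvd j h1) hj, pow_zero, mul_one]
    exact ⟨w, hw, rfl⟩
  have hgen : ∀ c ∈ H, ρ c ≠ 1 → ∃ k : ℕ, ρ (c ^ k) = T := by
    intro c hc h1
    obtain ⟨j, hj⟩ := hρH c hc
    obtain ⟨k, hk⟩ := hcop j (by
      rintro ⟨i, rfl⟩
      exact h1 (by rw [hj, pow_mul, hTp, one_pow]))
    exact ⟨k, by rw [map_pow, hj, hk]⟩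
  have hfixc : ∀ c ∈ H, ρ c ≠ 1 → ∀ v : V, Commute c (ι v) → T v = v := by
    intro c hc h1 v hv
    obtain ⟨k, hk⟩ := hgen c hc h1
    apply m.inj
    rw [← hk, m.conj, (hv.pow_left k).eq, mul_inv_cancel_right]
  have hZc : ∀ w ∈ Z, ∀ h ∈ H, Commute h (ι w) := by
    intro w hw h hh
    obtain ⟨j, hj⟩ := hρH h hh
    have : ρ h w = w := by
      rw [hj]
      clear hj
      induction j with
      | zero => rfl
      | succ j ih => rw [pow_succ', Module.End.mul_apply, ih, hZT w hw]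
    show h * ι w = ι w * h
    rw [hconj, this]
  have hdec : ∀ c ∈ H, ρ c ≠ 1 → ∀ h ∈ H, ∃ w ∈ W, ∃ i : ℕ, h = ι w * c ^ i := by
    intro c hc h1 h hh
    obtain ⟨k, hk⟩ := hgen c hc h1
    obtain ⟨j, hj⟩ := hρH h hh
    obtain ⟨w, hw, e⟩ := hker (h * (c ^ (k * j))⁻¹) (H.mul_mem hh (H.inv_mem (H.pow_mem hc _))) (by
      rw [map_mul, hj, ← hk, ← map_pow, ← pow_mul, ← map_mul, mul_inv_cancel, map_one])
    exact ⟨w, hw, k * j, by rw [← e, inv_mul_cancel_right]⟩
  have hcent : ∀ c ∈ H, ρ c ≠ 1 → ∀ h ∈ H, Commute c h → ∃ w ∈ Z, ∃ i : ℕ, h = ι w * c ^ i := by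
    intro c hc h1 h hh hch
    obtain ⟨w, hw, i, rfl⟩ := hdec c hc h1 h hh
    refine ⟨w, hfix w hw (hfixc c hc h1 w ?_), i, rfl⟩
    have := hch.mul_right ((Commute.refl c).pow_right i).inv_right
    rwa [mul_inv_cancel_right] at this
  have hιc : ∀ v w : V, Commute (ι v) (ι w) := fun v w => by
    show ι v * ι w = ι w * ι v
    rw [← m.add, ← m.add, add_comm]
  obtain ⟨D, f, hDH, hDn, hDi, hf, hfH, hs⟩ := hve (insert x (F.image ι))
    (fun h => hx1 (by rw [← hH] at h; rw [h] at hxH; exact hxH))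
  rw [← hH] at hDH hDn hDi hfH hs
  obtain ⟨hDp, -, hDu, -⟩ := index_facts hDn hDi
  have hf1 : f 1 = 1 := by
    have := hf 1 D.one_mem 1 D.one_mem
    rw [mul_one] at this
    exact mul_eq_left.mp this.symm
  have hfinv : ∀ d ∈ D, f d⁻¹ = (f d)⁻¹ := fun d hd =>
    eq_inv_of_mul_eq_one_left (by rw [← hf _ (D.inv_mem hd) _ hd, inv_mul_cancel, hf1])
  have hfcomm : ∀ d ∈ D, ∀ e ∈ D, Commute d e → Commute (f d) (f e) := fun d hd e he h => by
    show f d * f e = f e * f d
    rw [← hf d hd e he, ← hf e he d hd, h.eq]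
  by_cases hD : ∀ d ∈ D, ρ d = 1
  · have hWD : ∀ w ∈ W, ι w ∈ D := by
      intro w hw
      obtain ⟨i, hi⟩ := hDu x hxH (fun h => hT1 (hD x h)) _ (hWH w hw)
      have h1 := hD _ hi
      have h2 : T ^ i = 1 := by
        have h3 : ρ (x ^ i) * ρ ((x ^ i)⁻¹ * ι w) = 1 := by
          rw [← map_mul, mul_inv_cancel_left, hρι]
        rwa [h1, mul_one, map_pow] at h3
      obtain ⟨k, rfl⟩ := hdvd i h2
      have h3 : x ^ (p * k) ∈ D := by rw [pow_mul]; exact D.pow_mem (hDp x hxH) k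
      have := D.mul_mem h3 hi
      rwa [mul_inv_cancel_left] at this
    obtain ⟨d, hd, hc⟩ : ∃ d ∈ D, ρ (f d) ≠ 1 := by
      by_contra h
      push Not at h
      have hbot := hs D le_rfl hDn fun n hn => by
        obtain ⟨w, hw, e⟩ := hker _ (hfH n hn) (h n hn)
        rw [e]; exact hWD w hw
      have := hDp x hxH
      rw [hbot, Subgroup.mem_bot, ← hz, ← m.zero] at this
      exact hz0 (m.inj this)
    obtain ⟨w₀, -, hw₀⟩ := hker d (hDH hd) (hD d hd)
    have hcp : ∃ u ∈ Z, f d ^ p = ι u := by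
      obtain ⟨j, hj⟩ := hρH _ (hfH d hd)
      obtain ⟨u, hu, e⟩ := hker (f d ^ p) (H.pow_mem (hfH d hd) p) (by
        rw [map_pow, hj, ← pow_mul, mul_comm, pow_mul, hTp, one_pow])
      exact ⟨u, hfix u hu (hfixc _ (hfH d hd) hc u (e ▸ (Commute.refl _).pow_right p)), e⟩
    obtain ⟨u₀, hu₀, hcp⟩ := hcp
    have hθ : ∀ l : L, ∃ c : ℤ_[p], f (ι l) ^ p = ι (c • z) := by
      intro l
      have hlD := hWD l (Submodule.mem_sup_left l.2)
      obtain ⟨w, hw, i, e⟩ := hcent _ (hfH d hd) hc _ (hfH _ hlD)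
        (hfcomm d hd _ hlD (hw₀ ▸ hιc _ _))
      obtain ⟨c, hc⟩ := Submodule.mem_span_singleton.mp
        (Z.add_mem (nsmul_mem hw p) (nsmul_mem hu₀ i))
      refine ⟨c, ?_⟩
      rw [hc, m.add, m.nsmul, m.nsmul, ← hcp, e,
        (hZc w hw _ (H.pow_mem (hfH d hd) i)).symm.mul_pow, ← pow_mul, ← pow_mul, mul_comm i p]
    choose θ hθ using hθ
    have hcan : ∀ a b : ℤ_[p], ι (a • z) = ι (b • z) → a = b := by
      intro a b h
      have : (a - b) • z = 0 := by rw [sub_smul, m.inj h, sub_self]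
      exact sub_eq_zero.mp ((m.tf htf this).resolve_right hz0)
    have hLD : ∀ l : L, ι l ∈ D := fun l => hWD l (Submodule.mem_sup_left l.2)
    let Θ : L →+ ℤ_[p] := AddMonoidHom.mk' θ fun l l' => hcan _ _ (by
      rw [add_smul, m.add, ← hθ, ← hθ, ← hθ, Submodule.coe_add, m.add, hf _ (hLD l) _ (hLD l'),
        (hfcomm _ (hLD l) _ (hLD l') (hιc _ _)).mul_pow])
    have hΘ : ∀ l : L, f (ι l) ^ p = ι (Θ l • z) := hθ
    let R : Module.End ℤ_[p] L := T.restrict hLT
    have hR : ∀ (i : ℕ) (l : L), (((R ^ i) l : L) : V) = (T ^ i) l := by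
      intro i
      induction i with
      | zero => intro l; rfl
      | succ i ih => intro l; rw [pow_succ, pow_succ, Module.End.mul_apply, ih]; rfl
    have hK : ∀ l : L, (∀ i : ℕ, Θ ((R ^ i) l) = 0) → l = 0 := by
      let K : Subgroup G :=
        { carrier := {g | ∃ l : L, (∀ i : ℕ, Θ ((R ^ i) l) = 0) ∧ g = ι l}
          one_mem' := ⟨0, by simp, m.zero.symm⟩
          mul_mem' := by
            rintro _ _ ⟨l, hl, rfl⟩ ⟨l', hl', rfl⟩
            exact ⟨l + l', fun i => by rw [map_add, map_add, hl, hl', add_zero], (m.add _ _).symm⟩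
          inv_mem' := by
            rintro _ ⟨l, hl, rfl⟩
            exact ⟨-l, fun i => by rw [map_neg, map_neg, hl, neg_zero], (m.neg _).symm⟩ }
      have hKb : K = ⊥ := by
        refine hs K ?_ ?_ ?_
        · rintro _ ⟨l, -, rfl⟩; exact hLD l
        · rintro h hh _ ⟨l, hl, rfl⟩
          obtain ⟨j, hj⟩ := hρH h hh
          refine ⟨(R ^ j) l, fun i => ?_, by rw [← m.conj, hj, hR]⟩
          rw [← Module.End.mul_apply, ← pow_add]; exact hl _
        · rintro _ ⟨l, hl, rfl⟩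
          have h0 : Θ l = 0 := hl 0
          have h1 := hΘ l
          rw [h0, zero_smul, m.zero] at h1
          rw [htf _ (isOfFinOrder_iff_pow_eq_one.mpr ⟨p, hp.pos, h1⟩)]
          exact K.one_mem
      intro l hl
      have : ι l ∈ K := ⟨l, hl, rfl⟩
      rw [hKb, Subgroup.mem_bot, ← m.zero] at this
      exact Subtype.ext (m.inj this)
    let Φ : L →ₗ[ℤ_[p]] (Fin (p - 1) → ℤ_[p]) :=
      { toFun := fun l i => Θ ((R ^ (i : ℕ)) l)
        map_add' := fun l l' => by ext1 i; simp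
        map_smul' := fun a l => by
          ext1 i
          show Θ ((R ^ (i : ℕ)) (a • l)) = a * Θ ((R ^ (i : ℕ)) l)
          rw [map_smul, additive_smul] }
    have hΦ : Function.Injective Φ := by
      rw [injective_iff_map_eq_zero]
      intro l hl
      have h1 : ∀ i < p - 1, Θ ((R ^ i) l) = 0 := fun i hi => congrFun hl ⟨i, hi⟩
      have h2 : Θ ((R ^ (p - 1)) l) = 0 := by
        have h3 : ∑ i ∈ Finset.range p, (R ^ i) l = 0 := by
          apply Subtype.ext
          have := hLN l l.2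
          simpa [nrm, hR] using this
        have h4 := congrArg Θ h3
        have h6 : Finset.range p = Finset.range (p - 1 + 1) := by
          rw [Nat.sub_add_cancel hp.one_le]
        rw [map_sum, map_zero, h6, Finset.sum_range_succ,
          Finset.sum_eq_zero fun i hi => h1 i (Finset.mem_range.mp hi), zero_add] at h4
        exact h4
      refine hK l fun i => ?_
      have h5 : (R ^ i) l = (R ^ (i % p)) l := by
        apply Subtype.ext
        rw [hR, hR, pow_eq_pow_mod _ hTp]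
      rw [h5]
      rcases Nat.lt_or_ge (i % p) (p - 1) with h | h
      · exact h1 _ h
      · have := Nat.mod_lt i hp.pos
        rw [show i % p = p - 1 by omega]; exact h2
    have := LinearMap.finrank_le_finrank_of_injective hΦ
    rw [Module.finrank_fin_fun] at this
    have := hp.pos
    omega
  · exfalso
    push Not at hD
    obtain ⟨d, hd, hρd⟩ := hD
    have hinj : ∀ w ∈ W, ι w ∈ D → f (ι w) = 1 → w = 0 := by
      let K : Subgroup G :=
        { carrier := {g | g ∈ D ∧ f g = 1 ∧ ρ g = 1}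
          one_mem' := ⟨D.one_mem, hf1, map_one _⟩
          mul_mem' := by
            rintro a b ⟨ha, ha1, ha2⟩ ⟨hb, hb1, hb2⟩
            exact ⟨D.mul_mem ha hb, by rw [hf a ha b hb, ha1, hb1, one_mul],
              by rw [map_mul, ha2, hb2, one_mul]⟩
          inv_mem' := by
            rintro a ⟨ha, ha1, ha2⟩
            exact ⟨D.inv_mem ha, by rw [hfinv a ha, ha1, inv_one],
              by rw [← one_mul (ρ a⁻¹), ← ha2, ← map_mul, mul_inv_cancel, map_one, ha2]⟩ }
      have hKb : K = ⊥ := by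
        refine hs K (fun g hg => hg.1) ?_ ?_
        · rintro h hh n ⟨hn, hn1, hn2⟩
          obtain ⟨w, hw, i, rfl⟩ := hdec d (hDH hd) hρd h hh
          have hdi := D.pow_mem hd i
          have h1 : d ^ i * n * (d ^ i)⁻¹ ∈ K :=
            ⟨D.mul_mem (D.mul_mem hdi hn) (D.inv_mem hdi), by
              rw [hf _ (D.mul_mem hdi hn) _ (D.inv_mem hdi), hf _ hdi _ hn, hn1, hfinv _ hdi,
                mul_one, mul_inv_cancel], by
              rw [map_mul, map_mul, hn2, mul_one, ← map_mul, mul_inv_cancel, map_one]⟩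
          obtain ⟨u, -, hu⟩ := hker _ (hDH h1.1) h1.2.2
          have e : ι w * d ^ i * n * (ι w * d ^ i)⁻¹ = ι w * (d ^ i * n * (d ^ i)⁻¹) * (ι w)⁻¹ := by
            group
          rw [e, hu, (hιc w u).eq, mul_inv_cancel_right, ← hu]
          exact h1
        · rintro n ⟨-, hn1, -⟩
          rw [hn1]; exact K.one_mem
      intro w _ hwD h1
      have : ι w ∈ K := ⟨hwD, h1, hρι w⟩
      rw [hKb, Subgroup.mem_bot, ← m.zero] at this
      exact m.inj this
    obtain ⟨v, hv⟩ : ∃ v, T v ≠ v := by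
      by_contra h
      push Not at h
      exact hT1 (LinearMap.ext h)
    set l := p • (T v - v) with hl
    have hlL : l ∈ L := nsmul_mem (hLmem v) p
    have hlW : l ∈ W := Submodule.mem_sup_left hlL
    have hlD : ι l ∈ D := by
      rw [hl, m.nsmul]; exact hDp _ (hWH _ (Submodule.mem_sup_left (hLmem v)))
    have hl0 : l ≠ 0 := fun h => hv (sub_eq_zero.mp (htp _ (by
      rw [Nat.cast_smul_eq_nsmul]; exact h)))
    have hnc : ¬ Commute (f d) (f (ι l)) := by
      intro h
      obtain ⟨j, hj⟩ := hρH d (hDH hd)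
      have e : ι (ρ d l - l) = d * ι l * d⁻¹ * (ι l)⁻¹ := by rw [m.sub, m.conj]
      have h1 : d * ι l * d⁻¹ ∈ D := D.mul_mem (D.mul_mem hd hlD) (D.inv_mem hd)
      have h2 := hinj (ρ d l - l) (W.sub_mem (hj ▸ hpowT W hWT j l hlW) hlW)
        (e ▸ D.mul_mem h1 (D.inv_mem hlD)) (by
          rw [e, hf _ h1 _ (D.inv_mem hlD), hf _ (D.mul_mem hd hlD) _ (D.inv_mem hd), hf _ hd _ hlD,
            hfinv _ hd, hfinv _ hlD, h.eq]; group)
      refine hl0 (hLfix l hlL (hfixc d (hDH hd) hρd l ?_))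
      show d * ι l = ι l * d
      rw [hconj, sub_eq_zero.mp h2]
    have hZD : ∀ w ∈ Z, ι w ∈ D := by
      intro w hw
      obtain ⟨c, rfl⟩ := Submodule.mem_span_singleton.mp hw
      rw [← m.pw_iota' hG, hz, pow_pw, mul_comm, ← pw_pow]
      exact hDp _ (pw_mem hG hHc hxH c)
    have hbot : m.img Z = ⊥ := by
      refine hs _ ?_ ?_ ?_
      · rintro _ ⟨w, hw, rfl⟩; exact hZD w hw
      · rintro h hh _ ⟨w, hw, rfl⟩
        rw [(hZc w hw h hh).eq, mul_inv_cancel_right]
        exact ⟨w, hw, rfl⟩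
      · rintro _ ⟨w, hw, rfl⟩
        have c1 : Commute (f (ι w)) (f d) := hfcomm _ (hZD w hw) _ hd (hZc w hw d (hDH hd)).symm
        have c2 : Commute (f (ι w)) (f (ι l)) := hfcomm _ (hZD w hw) _ hlD (hιc _ _)
        have hcH := hfH _ (hZD w hw)
        by_cases hρ : ρ (f (ι w)) = 1
        · obtain ⟨u, hu, e⟩ := hker _ hcH hρ
          rw [e] at c1 c2 ⊢
          refine ⟨u, hfix u hu ?_, rfl⟩
          by_cases h1 : ρ (f d) = 1
          · by_cases h2 : ρ (f (ι l)) = 1
            · obtain ⟨a, -, ea⟩ := hker _ (hfH d hd) h1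
              obtain ⟨b, -, eb⟩ := hker _ (hfH _ hlD) h2
              exact absurd (ea ▸ eb ▸ hιc a b) hnc
            · exact hfixc _ (hfH _ hlD) h2 u c2.symm
          · exact hfixc _ (hfH d hd) h1 u c1.symm
        · exfalso
          obtain ⟨a, ha, i, ea⟩ := hcent _ hcH hρ _ (hfH d hd) c1
          have c3 : Commute (ι a * f (ι w) ^ i) (f (ι l)) :=
            (hZc a ha _ (hfH _ hlD)).symm.mul_left (c2.pow_left i)
          exact hnc (ea ▸ c3)
    have : ι z ∈ m.img Z := ⟨z, Submodule.mem_span_singleton_self z, rfl⟩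
    rw [hbot, Subgroup.mem_bot, ← m.zero] at this
    exact hz0 (m.inj this)

end Pool.Agent.Lib.MP_2dbb30_al.TF
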