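import Pool.Agent.Lib.MP_2dbb30_al.TF.Main
import Pool.Agent.Lib.MP_2dbb30_al.TF.CIfA
import Pool.Agent.Lib.MP_2dbb30_al.TF.CIfB
import Pool.Agent.Lib.MP_2dbb30_al.TF.COnlyA
import Pool.Agent.Lib.MP_2dbb30_al.TF.COnlyB
import Pool.Agent.Lib.MP_2dbb30_al.TF.CCyc

set_option autoImplicit false
set_option linter.unusedSectionVars false

open Topology Filter Polynomial

namespace Pool.Agent.Lib.MP_2dbb30_al.TF

variable {p : ℕ} [Fact p.Prime] {G : Type*} [Group G] [TopologicalSpace G] [IsTopologicalGroup G]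
  [CompactSpace G] [T2Space G] [TotallyDisconnectedSpace G]
  {V : Type*} [AddCommGroup V] [Module ℤ_[p] V] [TopologicalSpace V] [IsTopologicalAddGroup V]
  {A : Subgroup G} {ι : V → G} {ρ : G →* Module.End ℤ_[p] V}

/-- coordinates for a finitely generated model -/
theorem exists_model_fin (m : Model A ι ρ) (htf : ∀ g : G, IsOfFinOrder g → g = 1)
    [Module.Finite ℤ_[p] V] :
    ∃ (d : ℕ) (κ : (Fin d → ℤ_[p]) → G) (σ : G →* Module.End ℤ_[p] (Fin d → ℤ_[p])),
      Model A κ σ := by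
  classical
  have := m.t2Space
  have : Module.IsTorsionFree ℤ_[p] V :=
    Module.IsTorsionFree.of_smul_eq_zero fun a v h => m.tf htf h
  have : Module.Free ℤ_[p] V := Module.free_of_finite_type_torsion_free'
  let b := Module.finBasis ℤ_[p] V
  let e := b.equivFun
  have he : (e.symm : (Fin (Module.finrank ℤ_[p] V) → ℤ_[p]) → V) = fun c => ∑ i, c i • b i := by
    ext c; exact b.equivFun_symm_apply c
  have hc : Continuous (e.symm : (Fin (Module.finrank ℤ_[p] V) → ℤ_[p]) → V) := by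
    rw [he]
    exact continuous_finsetSum _ fun i _ => (m.smul (b i)).comp (continuous_apply i)
  let σ : G →* Module.End ℤ_[p] (Fin (Module.finrank ℤ_[p] V) → ℤ_[p]) :=
    { toFun := fun g => e.toLinearMap ∘ₗ ρ g ∘ₗ e.symm.toLinearMap
      map_one' := LinearMap.ext fun v => by simp
      map_mul' := fun g h => LinearMap.ext fun v => by simp }
  refine ⟨_, ι ∘ e.symm, σ, (m.emb.continuous.comp hc).isClosedEmbedding
    (m.inj.comp e.symm.injective), fun v w => ?_, fun g => ?_, fun g v => ?_,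
    fun v => continuous_id.smul continuous_const⟩
  · simp only [Function.comp, map_add, m.add]
  · rw [m.mem]
    exact ⟨fun ⟨v, hv⟩ => ⟨e v, by simpa using hv⟩, fun ⟨v, hv⟩ => ⟨_, hv⟩⟩
  · rw [Function.comp, Function.comp, ← m.conj]
    exact congrArg ι (e.symm_apply_apply _)

theorem fix_mem (m : Model A ι ρ) (hA : ∀ g, g ∈ A ↔ ∀ a ∈ A, g * a = a * g) (g : G)
    (hg : ∀ v, ρ g v = v) : g ∈ A := by
  rw [hA]
  intro a ha
  obtain ⟨v, rfl⟩ := (m.mem a).1 ha
  have := m.conj g v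
  rw [hg] at this
  rw [← mul_inv_eq_iff_eq_mul, ← this]

theorem only_if_model [Group.IsSolvable G] (hG : ProP p G)
    (hfg : ∃ T : Finset G, (Subgroup.closure (T : Set G)).topologicalClosure = ⊤)
    (htf : ∀ g : G, IsOfFinOrder g → g = 1)
    (hve : ∀ F : Finset G, (Subgroup.closure (F : Set G)).topologicalClosure ≠ ⊥ →
      VE p (Subgroup.closure (F : Set G)).topologicalClosure) :
    ∃ (d : ℕ) (A : Subgroup G) (κ : (Fin d → ℤ_[p]) → G)
      (σ : G →* Module.End ℤ_[p] (Fin d → ℤ_[p])) (y : G), Model A κ σ ∧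
      (∀ g, ∃ v μ, g = κ v * pw hG y μ) ∧
      ((y ^ p ∈ A ∧ Module.finrank ℤ_[p]
          (LinearMap.range (σ y - 1 : Module.End ℤ_[p] (Fin d → ℤ_[p]))) < p) ∨
        (¬ IsOfFinOrder (σ y) ∧ ∀ i : ℕ,
          (∃ c : ℤ_[p], σ y ^ p ^ i = c • (1 : Module.End ℤ_[p] (Fin d → ℤ_[p]))) ∨
          ∃ r : ℤ_[p][X], (p : Module.End ℤ_[p] (Fin d → ℤ_[p])) =
            (σ y ^ p ^ i - 1) * aeval (σ y ^ p ^ i) r)) := by
  classical
  have hve2 : HVE p G := fun a b ha => by
    have := hve {a, b} fun h => ha (by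
      have : a ∈ (Subgroup.closure (({a, b} : Finset G) : Set G)).topologicalClosure :=
        Subgroup.le_topologicalClosure _ (Subgroup.subset_closure (by simp))
      rwa [h, Subgroup.mem_bot] at this)
    simpa using this
  obtain ⟨A, hn, hc, hA⟩ := exists_A htf hve2
  obtain ⟨V, _, _, _, _, ι, ρ, m0⟩ := exists_model hG A hn hc fun a ha b hb => (hA a).1 ha b hb
  have hS0 : IsOpen (scal ρ : Set G) := scal_open m0 hG hfg fun x => by
    obtain ⟨n, c, hc⟩ := scalar_pow m0 hG htf x (line_pow m0 hG htf hve2 x)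
    exact ⟨n, c, hc⟩
  have := finite_V m0 hG htf hfg (fix_mem m0 hA) hS0
  obtain ⟨d, κ, σ, m⟩ := exists_model_fin m0 htf
  have hA' := fix_mem m hA
  have hS1 : ∀ x : G, ∃ n : ℕ, x ^ p ^ n ∈ scal σ := fun x => by
    obtain ⟨n, c, hc⟩ := scalar_pow m hG htf x (line_pow m hG htf hve2 x)
    exact ⟨n, c, hc⟩
  rcases open_or_scalar m htf hA' (scal_open m hG hfg hS1) with h | ⟨_, s, β, h1, h2, hs⟩
  · obtain ⟨y, hy, hgen⟩ := caseA m hG htf hA' hn h fun x hx => rank_lt m hG htf hve x hx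
    refine ⟨d, A, κ, σ, y, m, fun g => ?_, Or.inl ⟨hy, rank_lt m hG htf hve y hy⟩⟩
    obtain ⟨v, i, rfl⟩ := hgen g
    exact ⟨v, i, by rw [pw_natCast]⟩
  · have hq := quot_tf m hG htf hve2 hA' s β h1 h2 hs
    obtain ⟨y, hgen⟩ := exists_gen m hG htf hA' hS1 hq
    have hT : ¬ IsOfFinOrder (σ y) := fun h => by
      obtain ⟨n, hn0, hn1⟩ := isOfFinOrder_iff_pow_eq_one.1 h
      have hy : y ∈ A := hq y n hn0.ne' (hA' _ fun v => by rw [map_pow, hn1]; rfl)
      obtain ⟨v, μ, hv⟩ := hgen s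
      obtain ⟨w, hw⟩ := (m.mem _).1 (pw_mem hG hc hy μ)
      obtain ⟨u, hu⟩ := exists_ne (0 : Fin d → ℤ_[p])
      have h3 := hs u
      rw [hv, ← hw, ← m.add, m.rho_iota] at h3
      have h4 : (β - 1) • u = 0 := by rw [sub_smul, one_smul, ← h3, sub_self]
      exact h2 (sub_eq_zero.1 ((m.tf htf h4).resolve_right hu))
    exact ⟨d, A, κ, σ, y, m, hgen, Or.inr ⟨hT, condB m hG htf hve2 y hT (hS1 y)⟩⟩

/-- the model attached to concrete data -/
theorem model_of_data (hG : ProP p G) {d : ℕ} (j : Multiplicative (Fin d → ℤ_[p]) →* G)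
    (T : Module.End ℤ_[p] (Fin d → ℤ_[p])) (y : G) (hc : Continuous j)
    (hi : Function.Injective j)
    (hT : ∀ v, y * j (Multiplicative.ofAdd v) * y⁻¹ = j (Multiplicative.ofAdd (T v)))
    (hgen : (j.range ⊔ Subgroup.zpowers y).topologicalClosure = ⊤) :
    ∃ σ : G →* Module.End ℤ_[p] (Fin d → ℤ_[p]),
      Model j.range (fun v => j (Multiplicative.ofAdd v)) σ ∧ σ y = T ∧
      ∀ g, ∃ v μ, g = j (Multiplicative.ofAdd v) * pw hG y μ := by
  let κ : (Fin d → ℤ_[p]) → G := fun v => j (Multiplicative.ofAdd v)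
  have hκc : Continuous κ := hc.comp continuous_ofAdd
  have hκi : Function.Injective κ := hi.comp Multiplicative.ofAdd.injective
  have hadd : ∀ v w, κ (v + w) = κ v * κ w := fun v w => map_mul j _ _
  have hneg : ∀ v, κ (-v) = (κ v)⁻¹ := fun v => map_inv j _
  have h0 : κ 0 = 1 := map_one j
  have hcl : IsClosed (Set.range κ) := (isCompact_range hκc).isClosed
  have hconj : ∀ μ v, ∃ w, κ w = pw hG y μ * κ v * (pw hG y μ)⁻¹ := fun μ v => by
    refine padic_nat_ind (P := fun μ => pw hG y μ * κ v * (pw hG y μ)⁻¹ ∈ Set.range κ)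
      (hcl.preimage (((continuous_pw hG y).mul continuous_const).mul (continuous_pw hG y).inv))
      (fun n => ?_) μ
    rw [pw_natCast]
    induction n with
    | zero => exact ⟨v, by simp⟩
    | succ n ih =>
      obtain ⟨w, hw⟩ := ih
      refine ⟨T w, (hT w).symm.trans ?_⟩
      change y * κ w * y⁻¹ = _
      rw [hw, pow_succ']
      group
  let K : Subgroup G :=
    { carrier := Set.range fun q : (Fin d → ℤ_[p]) × ℤ_[p] => κ q.1 * pw hG y q.2
      one_mem' := ⟨(0, 0), by simp [h0]⟩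
      mul_mem' := by
        rintro _ _ ⟨⟨v, μ⟩, rfl⟩ ⟨⟨w, ν⟩, rfl⟩
        obtain ⟨u, hu⟩ := hconj μ w
        refine ⟨(v + u, μ + ν), ?_⟩
        simp only [hadd, hu, pw_add]; group
      inv_mem' := by
        rintro _ ⟨⟨v, μ⟩, rfl⟩
        obtain ⟨u, hu⟩ := hconj (-μ) v
        refine ⟨(-u, -μ), ?_⟩
        simp only [hneg, hu, pw_neg]; group }
  have hK : IsClosed (K : Set G) :=
    (isCompact_range ((hκc.comp continuous_fst).mul
      ((continuous_pw hG y).comp continuous_snd))).isClosed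
  have hdec : ∀ g, ∃ v μ, g = κ v * pw hG y μ := fun g => by
    have hle : (j.range ⊔ Subgroup.zpowers y).topologicalClosure ≤ K := by
      refine Subgroup.topologicalClosure_minimal _ (sup_le ?_ ?_) hK
      · rintro _ ⟨v, rfl⟩
        exact ⟨(v.toAdd, 0), by simp [κ]⟩
      · rw [Subgroup.zpowers_le]
        exact ⟨(0, 1), by simp [h0]⟩
    obtain ⟨⟨v, μ⟩, h⟩ := hle (hgen ▸ Subgroup.mem_top g)
    exact ⟨v, μ, h.symm⟩
  have hnorm : ∀ g v, ∃ w, κ w = g * κ v * g⁻¹ := fun g v => by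
    obtain ⟨u, μ, rfl⟩ := hdec g
    obtain ⟨w, hw⟩ := hconj μ v
    refine ⟨u + w + -u, ?_⟩
    rw [hadd, hadd, hneg, hw]; group
  choose r hr using hnorm
  have hsm : ∀ (a : ℤ_[p]) v, κ (a • v) = pw hG (κ v) a := fun a v => by
    refine padic_nat_ind (P := fun a => κ (a • v) = pw hG (κ v) a)
      (isClosed_eq (hκc.comp (continuous_id.smul continuous_const)) (continuous_pw hG _))
      (fun n => ?_) a
    rw [pw_natCast, Nat.cast_smul_eq_nsmul]
    exact map_pow j (Multiplicative.ofAdd v) n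
  let r' : G → Module.End ℤ_[p] (Fin d → ℤ_[p]) := fun g =>
    { toFun := r g
      map_add' := fun v w => hκi (by rw [hr, hadd, hadd, hr, hr]; group)
      map_smul' := fun a v => hκi (by rw [hr, hsm, RingHom.id_apply, hsm, hr, pw_conj]) }
  let σ : G →* Module.End ℤ_[p] (Fin d → ℤ_[p]) :=
    { toFun := r'
      map_one' := LinearMap.ext fun v => hκi (by
        change κ (r 1 v) = κ v
        rw [hr]; group)
      map_mul' := fun g h => LinearMap.ext fun v => hκi (by
        change κ (r (g * h) v) = κ (r g (r h v))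
        rw [hr, hr, hr]; group) }
  refine ⟨σ, ⟨hκc.isClosedEmbedding hκi, hadd, fun g => ⟨?_, ?_⟩, hr,
    fun v => continuous_id.smul continuous_const⟩,
    LinearMap.ext fun v => hκi ((hr y v).trans (hT v)), hdec⟩
  · rintro ⟨v, rfl⟩
    exact ⟨v.toAdd, rfl⟩
  · rintro ⟨v, rfl⟩
    exact ⟨_, rfl⟩

theorem classification [Group.IsSolvable G] (hG : ProP p G)
    (hfg : ∃ T : Finset G, (Subgroup.closure (T : Set G)).topologicalClosure = ⊤)
    (htf : ∀ g : G, IsOfFinOrder g → g = 1) :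
    (∀ L : Subgroup G, L ≠ ⊥ →
      (∃ F : Finset G, (Subgroup.closure (F : Set G)).topologicalClosure = L) → SelfSimilar p L) ↔
    ∃ (d : ℕ) (j : Multiplicative (Fin d → ℤ_[p]) →* G)
      (T : Module.End ℤ_[p] (Fin d → ℤ_[p])) (y : G), Continuous j ∧ Function.Injective j ∧
      (∀ v, y * j (Multiplicative.ofAdd v) * y⁻¹ = j (Multiplicative.ofAdd (T v))) ∧
      (j.range ⊔ Subgroup.zpowers y).topologicalClosure = ⊤ ∧
      ((y ^ p ∈ j.range ∧ Module.finrank ℤ_[p] (LinearMap.range (T - 1)) < p) ∨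
        (¬ IsOfFinOrder T ∧ ∀ i : ℕ,
          (∃ c : ℤ_[p], T ^ p ^ i = c • (1 : Module.End ℤ_[p] (Fin d → ℤ_[p]))) ∨
          ∃ r : ℤ_[p][X], (p : Module.End ℤ_[p] (Fin d → ℤ_[p])) =
            (T ^ p ^ i - 1) * aeval (T ^ p ^ i) r)) := by
  constructor
  · intro hss
    obtain ⟨d, A, κ, σ, y, m, hgen, hcase⟩ := only_if_model hG hfg htf fun F hF =>
      ve_of_selfSimilar hG _ (Subgroup.isClosed_topologicalClosure _) (hss _ hF ⟨F, rfl⟩)
    let j : Multiplicative (Fin d → ℤ_[p]) →* G :=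
      MonoidHom.mk' (fun v => κ v.toAdd) fun v w => m.add _ _
    have hj : j.range = A := by
      ext g
      rw [m.mem]
      exact ⟨fun ⟨v, hv⟩ => ⟨_, hv⟩, fun ⟨v, hv⟩ => ⟨Multiplicative.ofAdd v, hv⟩⟩
    refine ⟨d, j, σ y, y, m.emb.continuous.comp continuous_toAdd,
      m.inj.comp Multiplicative.toAdd.injective, fun v => (m.conj y v).symm, ?_, hj ▸ hcase⟩
    rw [eq_top_iff]
    intro g _
    obtain ⟨v, μ, rfl⟩ := hgen g
    refine Subgroup.mul_mem _ (Subgroup.le_topologicalClosure _ (Subgroup.mem_sup_left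
      ⟨Multiplicative.ofAdd v, rfl⟩)) (pw_mem hG (Subgroup.isClosed_topologicalClosure _) ?_ μ)
    exact Subgroup.le_topologicalClosure _ (Subgroup.mem_sup_right (Subgroup.mem_zpowers y))
  · rintro ⟨d, j, T, y, hc, hi, hT, hgen, hcase⟩ L hL hF
    obtain ⟨σ, m, rfl, hdec⟩ := model_of_data hG j T y hc hi hT hgen
    refine selfSimilar_of_ve (Fact.out : p.Prime).ne_zero ?_
    rcases hcase with ⟨h1, h2⟩ | ⟨h1, h2⟩
    · exact ve_caseA m hG htf y hdec h1 h2 L hL hF
    · exact ve_caseB m hG htf y hdec h1 h2 L hL hF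

end Pool.Agent.Lib.MP_2dbb30_al.TF
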