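import Pool.Agent.Lib.MP_2dbb30_al.TF.VE
import Pool.Agent.Lib.MP_2dbb30_al.TF.Model
import Pool.Agent.Lib.MP_2dbb30_al.TF.CDvr

set_option autoImplicit false
set_option linter.unusedSectionVars false

open Topology Filter Polynomial

namespace Pool.Agent.Lib.MP_2dbb30_al.TF

section Action

variable {L : Type*} [Group L] {d : ℕ} (H : Subgroup L) (f : H →* L) (e : Fin d ≃ L ⧸ H)

/-- the action on letters -/
noncomputable def letter (g : L) (x : Fin d) : Fin d := e.symm (g • e x)

lemma coc_mem (g : L) (x : Fin d) :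
    ((e (letter H e g x)).out)⁻¹ * (g * (e x).out) ∈ H := by
  rw [← QuotientGroup.eq, QuotientGroup.out_eq', letter, Equiv.apply_symm_apply]
  conv_lhs => rw [← QuotientGroup.out_eq' (e x)]
  rfl

/-- the cocycle -/
noncomputable def coc (g : L) (x : Fin d) : H :=
  ⟨((e (letter H e g x)).out)⁻¹ * (g * (e x).out), coc_mem H e g x⟩

lemma letter_one (x : Fin d) : letter H e 1 x = x := by simp [letter]

lemma letter_mul (g h : L) (x : Fin d) :
    letter H e (g * h) x = letter H e g (letter H e h x) := by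
  simp [letter, mul_smul]

lemma coc_one (x : Fin d) : coc H e 1 x = 1 := by
  apply Subtype.ext
  simp [coc, letter_one]

lemma coc_mul (g h : L) (x : Fin d) :
    coc H e (g * h) x = coc H e g (letter H e h x) * coc H e h x := by
  apply Subtype.ext
  simp only [coc, Subgroup.coe_mul, letter_mul]
  group

/-- the action on words -/
noncomputable def act : List (Fin d) → L → List (Fin d)
  | [], _ => []
  | x :: w, g => letter H e g x :: act w (f (coc H e g x))

lemma act_one (w : List (Fin d)) : act H f e w 1 = w := by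
  induction w with
  | nil => rfl
  | cons x w ih => simp [act, letter_one, coc_one, ih]

lemma act_mul (w : List (Fin d)) (g h : L) :
    act H f e w (g * h) = act H f e (act H f e w h) g := by
  induction w generalizing g h with
  | nil => rfl
  | cons x w ih => simp [act, letter_mul, coc_mul, ih]

lemma act_append (w : List (Fin d)) (g : L) (x : Fin d) :
    ∃ y, act H f e (w ++ [x]) g = act H f e w g ++ [y] := by
  induction w generalizing g with
  | nil => exact ⟨letter H e g x, rfl⟩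
  | cons z w ih =>
    obtain ⟨y, hy⟩ := ih (f (coc H e g z))
    exact ⟨y, by simp [act, hy]⟩

/-- the action on words as a homomorphism -/
noncomputable def rho : L →* Equiv.Perm (List (Fin d)) where
  toFun g :=
    { toFun := fun w => act H f e w g
      invFun := fun w => act H f e w g⁻¹
      left_inv := fun w => by simp only []; rw [← act_mul, inv_mul_cancel, act_one]
      right_inv := fun w => by simp only []; rw [← act_mul, mul_inv_cancel, act_one] }
  map_one' := by ext1 w; exact act_one H f e w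
  map_mul' g h := by ext1 w; exact act_mul H f e w g h

lemma rho_apply (g : L) (w : List (Fin d)) : rho H f e g w = act H f e w g := rfl

lemma rho_injective
    (hcore : ∀ K : Subgroup L, K.Normal → ∀ hK : K ≤ H, (∀ k, ∀ hk : k ∈ K, f ⟨k, hK hk⟩ ∈ K) →
      K = ⊥) : Function.Injective (rho H f e) := by
  rw [← MonoidHom.ker_eq_bot_iff]
  set x0 : Fin d := e.symm ((1 : L) : L ⧸ H) with hx0
  have hfix : ∀ k ∈ (rho H f e).ker, ∀ x w,
      letter H e k x = x ∧ act H f e w (f (coc H e k x)) = w := by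
    intro k hk x w
    have : rho H f e k (x :: w) = x :: w := by rw [MonoidHom.mem_ker.1 hk]; rfl
    simpa [rho_apply, act] using this
  have hle : (rho H f e).ker ≤ H := by
    intro k hk
    have h1 := (hfix k hk x0 []).1
    rw [letter, hx0, Equiv.apply_symm_apply, Equiv.apply_eq_iff_eq] at h1
    have h2 : ((k * 1 : L) : L ⧸ H) = ((1 : L) : L ⧸ H) := h1
    rw [eq_comm, QuotientGroup.eq] at h2
    simpa using h2
  refine hcore _ inferInstance hle fun k hk => ?_
  set t : L := (e x0).out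
  have hk' : t * k * t⁻¹ ∈ (rho H f e).ker := (MonoidHom.normal_ker _).conj_mem k hk t
  have hc : coc H e (t * k * t⁻¹) x0 = ⟨k, hle hk⟩ := by
    apply Subtype.ext
    simp only [coc, (hfix _ hk' x0 []).1]
    change t⁻¹ * (t * k * t⁻¹ * t) = k
    group
  rw [MonoidHom.mem_ker]
  ext1 w
  have := (hfix _ hk' x0 w).2
  rw [hc] at this
  exact this

lemma rho_trans (x y : Fin d) : ∃ g, rho H f e g [x] = [y] := by
  obtain ⟨g, hg⟩ := MulAction.exists_smul_eq L (e x) (e y)
  exact ⟨g, by simp [rho_apply, act, letter, hg]⟩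

theorem exists_action (hd : H.index = d) (hd0 : d ≠ 0)
    (hcore : ∀ K : Subgroup L, K.Normal → ∀ hK : K ≤ H, (∀ k, ∀ hk : k ∈ K, f ⟨k, hK hk⟩ ∈ K) →
      K = ⊥) :
    ∃ ρ : L →* Equiv.Perm (List (Fin d)),
      Function.Injective ρ ∧ (∀ g, ρ g [] = []) ∧
      (∀ g w x, ∃ y, ρ g (w ++ [x]) = ρ g w ++ [y]) ∧
      (∀ g x, ∃ y h, ∀ w, ρ g (x :: w) = y :: ρ h w) ∧
      (∀ x y : Fin d, ∃ g, ρ g [x] = [y]) := by
  have : Finite (L ⧸ H) := Nat.finite_of_card_ne_zero (by rw [← Subgroup.index, hd]; exact hd0)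
  let e : Fin d ≃ L ⧸ H := (Finite.equivFinOfCardEq (by rw [← Subgroup.index, hd])).symm
  exact ⟨rho H f e, rho_injective H f e hcore, fun _ => rfl,
    fun g w x => act_append H f e w g x, fun g x => ⟨_, _, fun _ => rfl⟩, rho_trans H f e⟩

end Action

theorem selfSimilar_of_ve {p : ℕ} (hp : p ≠ 0) {G : Type*} [Group G] {H : Subgroup G}
    (h : VE p H) : SelfSimilar p H := by
  obtain ⟨D, f, hDH, -, hidx, hf, hfH, hcore⟩ := h
  let f' : D.subgroupOf H →* H :=
    MonoidHom.mk' (fun x => ⟨f x.1.1, hfH _ x.2⟩) fun x y => Subtype.ext (hf _ x.2 _ y.2)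
  refine exists_action (D.subgroupOf H) f' hidx hp fun K hKn hK hinv => ?_
  have := hcore (K.map H.subtype) (by rintro _ ⟨k, hk, rfl⟩; exact hK hk)
    (by
      rintro l hl _ ⟨k, hk, rfl⟩
      exact ⟨_, hKn.conj_mem k hk ⟨l, hl⟩, rfl⟩)
    (by
      rintro _ ⟨k, hk, rfl⟩
      exact ⟨_, hinv k hk, rfl⟩)
  rwa [Subgroup.map_eq_bot_iff_of_injective _ H.subtype_injective] at this

theorem index_comap_of_cover {X K : Type*} [Group X] [Group K] (φ : X →* K) (D : Subgroup K)
    (h : ∀ g, ∃ x, (φ x)⁻¹ * g ∈ D) : (D.comap φ).index = D.index := by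
  have key : ∀ x y : X,
      QuotientGroup.leftRel (D.comap φ) x y ↔ QuotientGroup.leftRel D (φ x) (φ y) := by
    simp only [QuotientGroup.leftRel_apply]
    exact fun x y => iff_of_eq (congr_arg (· ∈ D) (by rw [φ.map_mul, φ.map_inv]))
  refine Nat.card_congr (Equiv.ofBijective (Quotient.map' φ fun x y => (key x y).mp) ⟨?_, ?_⟩)
  · simp_rw [← Quotient.eq''] at key
    refine Quotient.ind' fun x => ?_
    refine Quotient.ind' fun y => ?_
    exact (key x y).mpr
  · refine Quotient.ind' fun g => ?_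
    obtain ⟨x, hx⟩ := h g
    exact ⟨x, (Quotient.map'_mk'' φ _ x).trans (QuotientGroup.eq.2 hx)⟩

/-- the index of a subgroup, read off on an additive family of coset representatives -/
theorem relIndex_of_cover {G L : Type*} [Group G] [AddCommGroup L] {H D : Subgroup G} (j : L → G)
    (hj : ∀ v w, j (v + w) = j v * j w) (hH : ∀ v, j v ∈ H) (P : AddSubgroup L)
    (hP : ∀ v, j v ∈ D ↔ v ∈ P) (hc : ∀ g ∈ H, ∃ v, (j v)⁻¹ * g ∈ D) :
    D.relIndex H = P.index := by
  let φ : Multiplicative L →* H :=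
    MonoidHom.mk' (fun v => ⟨j v.toAdd, hH _⟩) fun v w => Subtype.ext (hj _ _)
  have h1 := index_comap_of_cover φ (D.subgroupOf H) fun g => by
    obtain ⟨v, hv⟩ := hc g g.2
    exact ⟨Multiplicative.ofAdd v, hv⟩
  have h2 : (D.subgroupOf H).comap φ = P.toSubgroup := by
    ext v
    exact hP v.toAdd
  rw [Subgroup.relIndex, ← h1, h2, AddSubgroup.index_toSubgroup]

variable {p : ℕ} [Fact p.Prime] {G : Type*} [Group G] [TopologicalSpace G] [IsTopologicalGroup G]
  [CompactSpace G] [T2Space G] [TotallyDisconnectedSpace G]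
  {V : Type*} [AddCommGroup V] [Module ℤ_[p] V] [TopologicalSpace V] [IsTopologicalAddGroup V]
  {A : Subgroup G} {ι : V → G} {ρ : G →* Module.End ℤ_[p] V}

theorem proP_subgroup (hG : ProP p G) (H : Subgroup G) (hH : IsClosed (H : Set G)) :
    ProP p H := by
  intro N hN hNo
  have : CompactSpace H := isCompact_iff_compactSpace.1 hH.isCompact
  have : Finite (H ⧸ N) := Subgroup.quotient_finite_of_isOpen N hNo
  have hP : IsPGroup p (H ⧸ N) := by
    obtain ⟨U, hU, hUN⟩ := isOpen_induced_iff.1 hNo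
    have h1 : (1 : G) ∈ U := by
      have : (1 : H) ∈ (Subtype.val ⁻¹' U : Set H) := by rw [hUN]; exact N.one_mem
      exact this
    obtain ⟨K, hK, hKo, hKU⟩ := exists_open_normal (hU.mem_nhds h1)
    obtain ⟨k, hk⟩ := exists_pow_mem hG K hK hKo
    intro g
    obtain ⟨g, rfl⟩ := QuotientGroup.mk_surjective g
    refine ⟨k, ?_⟩
    rw [← QuotientGroup.mk_pow, QuotientGroup.eq_one_iff]
    have : g ^ p ^ k ∈ (Subtype.val ⁻¹' U : Set H) := hKU (hk g)
    rwa [hUN] at this
  exact IsPGroup.iff_card.1 hP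

/-- a subgroup of index `p` in a closed subgroup is normal in it -/
theorem normal_rel (hG : ProP p G) {H D : Subgroup G} (hH : IsClosed (H : Set G))
    (hi : D.relIndex H = p) : ∀ h ∈ H, ∀ d ∈ H, d ∈ D → h * d * h⁻¹ ∈ D := by
  have hp : p.Prime := Fact.out
  have hn : (D.subgroupOf H).Normal := normal_of_index_prime hp _ hi fun q hq g => by
    have hu : IsUnit (q : ℤ_[p]) := by
      rw [PadicInt.isUnit_iff]
      exact PadicInt.norm_natCast_eq_one_iff.2 ((Nat.Prime.coprime_iff_not_dvd hp).2 hq)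
    obtain ⟨u, hu⟩ := hu.exists_left_inv
    refine ⟨⟨pw hG g u, pw_mem hG hH g.2 u⟩, Subtype.ext ?_⟩
    simp only [Subgroup.coe_pow]
    rw [← pw_natCast hG, ← pw_mul, hu, pw_one]
  exact fun h hh d hd hdD => hn.conj_mem ⟨d, hd⟩ hdD ⟨h, hh⟩

theorem ve_abelian (hG : ProP p G) (htf : ∀ g : G, IsOfFinOrder g → g = 1) (H : Subgroup G)
    (hne : H ≠ ⊥) (hfg : ∃ F : Finset G, (Subgroup.closure (F : Set G)).topologicalClosure = H)
    (hab : ∀ a ∈ H, ∀ b ∈ H, a * b = b * a) : VE p H := by
  classical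
  obtain ⟨F, hF⟩ := hfg
  have hH : IsClosed (H : Set G) := hF ▸ Subgroup.isClosed_topologicalClosure _
  have : CompactSpace H := isCompact_iff_compactSpace.1 hH.isCompact
  have htf' : ∀ g : H, IsOfFinOrder g → g = 1 := fun g hg =>
    Subtype.ext (htf _ (H.subtype.isOfFinOrder hg))
  obtain ⟨W, _, _, _, _, κ, σ, m⟩ := exists_model (proP_subgroup hG H hH) ⊤ inferInstance
    isClosed_univ fun a _ b _ => Subtype.ext (hab _ a.2 _ b.2)
  let j : W → G := fun v => κ v
  have hj : ∀ v w, j (v + w) = j v * j w := fun v w => congrArg Subtype.val (m.add v w)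
  have hj0 : j 0 = 1 := congrArg Subtype.val m.zero
  have hjn : ∀ v, j (-v) = (j v)⁻¹ := fun v => congrArg Subtype.val (m.neg v)
  have hji : Function.Injective j := fun v w h => m.inj (Subtype.ext h)
  have hjH : ∀ v, j v ∈ H := fun v => (κ v).2
  have hjs : ∀ g ∈ H, ∃ v, j v = g := fun g hg => by
    obtain ⟨v, hv⟩ := (m.mem ⟨g, hg⟩).1 trivial
    exact ⟨v, congrArg Subtype.val hv⟩
  let img : AddSubgroup W → Subgroup G := fun X =>
    { carrier := j '' X
      one_mem' := ⟨0, X.zero_mem, hj0⟩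
      mul_mem' := by
        rintro _ _ ⟨u, hu, rfl⟩ ⟨w, hw, rfl⟩
        exact ⟨u + w, X.add_mem hu hw, hj u w⟩
      inv_mem' := by
        rintro _ ⟨u, hu, rfl⟩
        exact ⟨-u, X.neg_mem hu, hjn u⟩ }
  have hfin : Module.Finite ℤ_[p] W := by
    have hFH : ∀ g ∈ F, g ∈ H := fun g hg =>
      hF ▸ Subgroup.le_topologicalClosure _ (Subgroup.subset_closure hg)
    choose! s hs using fun g : F => hjs g (hFH g g.2)
    refine ⟨⟨Finset.univ.image s, ?_⟩⟩
    have := m.compactSpace
    have hc : IsClosed (img (Submodule.span ℤ_[p] (Finset.univ.image s : Set W)).toAddSubgroup :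
        Set G) :=
      ((m.isClosed_span _).isCompact.image (continuous_subtype_val.comp m.emb.continuous)).isClosed
    have hle : H ≤ img (Submodule.span ℤ_[p] (Finset.univ.image s : Set W)).toAddSubgroup := by
      rw [← hF]
      refine Subgroup.topologicalClosure_minimal _ ((Subgroup.closure_le _).2 fun g hg => ?_) hc
      exact ⟨s ⟨g, hg⟩, Submodule.subset_span (by simp), hs _⟩
    rw [eq_top_iff]
    intro v _
    obtain ⟨w, hw, h⟩ := hle (hjH v)
    rwa [← hji h]
  have hnt : Nontrivial W := by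
    obtain ⟨⟨g, hg⟩, hg1⟩ := Subgroup.ne_bot_iff_exists_ne_one.1 hne
    obtain ⟨v, rfl⟩ := hjs g hg
    exact ⟨v, 0, fun h => hg1 (Subtype.ext ((congrArg j h).trans hj0))⟩
  obtain ⟨π, hπ, hidx, hint⟩ := exists_shift_p (p := p) (L := W) fun a v h => m.tf htf' h
  let f : G → G := fun g => if h : ∃ v, j (π v) = g then j h.choose else 1
  have hf : ∀ v, f (j (π v)) = j v := fun v => by
    have h : ∃ w, j (π w) = j (π v) := ⟨v, rfl⟩
    simp only [f, dif_pos h]
    rw [hπ (hji h.choose_spec)]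
  refine ⟨img (LinearMap.range π).toAddSubgroup, f, ?_, ?_, ?_, ?_, ?_, ?_⟩
  · rintro _ ⟨v, -, rfl⟩
    exact hjH v
  · rintro h hh _ ⟨v, hv, rfl⟩
    exact ⟨v, hv, by rw [hab h hh _ (hjH v), mul_inv_cancel_right]⟩
  · refine Eq.trans ?_ hidx
    refine relIndex_of_cover j hj hjH _ (fun v => ⟨?_, fun hv => ⟨v, hv, rfl⟩⟩) fun g hg => ?_
    · rintro ⟨w, hw, h⟩
      rwa [← hji h]
    · obtain ⟨v, rfl⟩ := hjs g hg
      exact ⟨v, by rw [inv_mul_cancel]; exact Subgroup.one_mem _⟩
  · rintro _ ⟨_, ⟨v, rfl⟩, rfl⟩ _ ⟨_, ⟨w, rfl⟩, rfl⟩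
    rw [← hj, ← map_add, hf, hf, hf, hj]
  · rintro _ ⟨_, ⟨v, rfl⟩, rfl⟩
    rw [hf]
    exact hjH v
  · intro N hN _ hinv
    have key : ∀ n : ℕ, ∀ v, j v ∈ N → v ∈ LinearMap.range (π ^ n) := by
      intro n
      induction n with
      | zero => exact fun v _ => ⟨v, rfl⟩
      | succ n ih =>
        intro v hv
        obtain ⟨_, ⟨w, rfl⟩, h⟩ := hN hv
        obtain rfl := hji h
        have := hinv _ hv
        rw [hf] at this
        obtain ⟨u, rfl⟩ := ih w this
        exact ⟨u, by rw [pow_succ', Module.End.mul_apply]⟩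
    rw [eq_bot_iff]
    intro g hg
    obtain ⟨v, -, rfl⟩ := hN hg
    rw [hint v fun n => key n v hg]
    exact hj0

end Pool.Agent.Lib.MP_2dbb30_al.TF
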