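import Pool.Agent.Lib.MP_2dbb30_al.TF.Coord

set_option autoImplicit false
set_option linter.unusedSectionVars false

open Topology Filter
open scoped Manifold ContDiff commutatorElement

namespace Pool.Agent.Lib.MP_2dbb30_al.TF

variable {p : ℕ} [Fact p.Prime] {G : Type*} [Group G] [TopologicalSpace G] [IsTopologicalGroup G]
  [CompactSpace G] [T2Space G] [TotallyDisconnectedSpace G]
  {V : Type*} [AddCommGroup V] [Module ℤ_[p] V] [TopologicalSpace V] [IsTopologicalAddGroup V]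
  {A : Subgroup G} {ι : V → G} {ρ : G →* Module.End ℤ_[p] V}

theorem rho_mul (ρ : G →* Module.End ℤ_[p] V) (g h : G) (v : V) : ρ (g * h) v = ρ g (ρ h v) := by
  rw [map_mul, Module.End.mul_apply]

theorem rho_inv_left (ρ : G →* Module.End ℤ_[p] V) (g : G) (v : V) : ρ g⁻¹ (ρ g v) = v := by
  rw [← rho_mul, inv_mul_cancel, map_one, Module.End.one_apply]

theorem rho_inv_right (ρ : G →* Module.End ℤ_[p] V) (g : G) (v : V) : ρ g (ρ g⁻¹ v) = v := by
  rw [← rho_mul, mul_inv_cancel, map_one, Module.End.one_apply]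

theorem lie_scalar' (m : Model A ι ρ) (htf : ∀ g : G, IsOfFinOrder g → g = 1)
    [Module.Finite ℤ_[p] V] (hA : ∀ g, (∀ v, ρ g v = v) → g ∈ A) (hS : IsOpen (scal ρ : Set G))
    [Nontrivial V] (s : G) (β : ℤ_[p]) (h1 : (p : ℤ_[p]) ^ 2 ∣ β - 1) (h2 : β ≠ 1)
    (hs : ∀ v, ρ s v = β • v) :
    ∃ (n : ℕ) (_ : ChartedSpace (Fin n → ℚ_[p]) G),
      LieGroup 𝓘(ℚ_[p], Fin n → ℚ_[p]) ω G := by
  have := m.t2Space
  have hSn := scal_normal ρ
  have hSc := scal_closed m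
  obtain ⟨n, j, M, hj, hjs, hM⟩ := exists_coord' m htf
  obtain ⟨v₀, hv₀⟩ := exists_ne (0 : V)
  have hcancel : ∀ (g : G) (a b : ℤ_[p]), a • ρ g v₀ = b • ρ g v₀ → a = b := by
    intro g a b h
    have h3 : (a - b) • ρ g v₀ = 0 := by rw [sub_smul, h, sub_self]
    refine sub_eq_zero.mp ((m.tf htf h3).resolve_right fun h4 => hv₀ ?_)
    rw [← rho_inv_left ρ g v₀, h4, map_zero]
  -- the cocycle
  have hcA : ∀ g : G, ∃ v, ι v = ⁅g, s⁆ := by
    intro g
    refine (m.mem _).mp (hA _ fun v => ?_)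
    rw [commutatorElement_def, rho_mul, rho_mul, rho_mul, hs, map_smul, rho_inv_right, ← hs,
      rho_inv_right]
  choose c hc using hcA
  have hcmul : ∀ g h, c (g * h) = c g + ρ g (c h) := by
    intro g h
    apply m.inj
    rw [add_comm, m.add, m.conj, hc, hc, hc]
    simp only [commutatorElement_def]; group
  have hc1 : c 1 = 0 := by
    apply m.inj; rw [hc, m.zero]; simp
  have hcι : ∀ a, c (ι a) = (1 - β) • a := by
    intro a
    apply m.inj
    rw [hc, sub_smul, one_smul, m.sub, ← hs, m.conj, commutatorElement_def]; group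
  have hcc : Continuous c := by
    rw [m.emb.isInducing.continuous_iff]
    have : ι ∘ c = fun g => g * s * g⁻¹ * s⁻¹ := by ext g; exact hc g
    rw [this]; fun_prop
  have hβ0 : 1 - β ≠ 0 := sub_ne_zero.mpr h2.symm
  -- coset representatives and scalars
  let r : G → G := fun g => (g : G ⧸ scal ρ).out
  have hr : ∀ g, (r g)⁻¹ * g ∈ scal ρ := fun g => QuotientGroup.eq.mp (QuotientGroup.out_eq' _)
  have hrq : ∀ g, ((r g : G) : G ⧸ scal ρ) = g := fun g => QuotientGroup.out_eq' _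
  have hrr : ∀ g h : G, (g : G ⧸ scal ρ) = h → r g = r h := fun g h e => by
    show (g : G ⧸ scal ρ).out = (h : G ⧸ scal ρ).out
    rw [e]
  have hτex : ∀ g : G, ∃ t : ℤ_[p]ˣ, ∀ v, ρ g v = (t : ℤ_[p]) • ρ (r g) v := by
    intro g
    obtain ⟨t, ht⟩ := hr g
    refine ⟨t, fun v => ?_⟩
    rw [← map_smul, ← ht, ← rho_mul, mul_inv_cancel_left]
  choose τ hτ using hτex
  have hτu : ∀ (g : G) (a : ℤ_[p]), ρ g v₀ = a • ρ (r g) v₀ → (τ g : ℤ_[p]) = a :=
    fun g a h => hcancel (r g) _ _ ((hτ g v₀).symm.trans h)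
  have hτ0 : ∀ g, (((τ g : ℤ_[p])) : ℚ_[p]) ≠ 0 := fun g =>
    PadicInt.coe_ne_zero.mpr (τ g).ne_zero
  have hιs : ∀ v : V, ι v ∈ scal ρ := fun v => ⟨1, fun w => by rw [m.rho_iota]; simp⟩
  have hq1 : ∀ k ∈ scal ρ, (k : G ⧸ scal ρ) = 1 := fun k hk => (QuotientGroup.eq_one_iff k).mpr hk
  have hloc : ∀ g : G, ∀ᶠ x in 𝓝 g, r x = r g := by
    intro g
    have : (fun x : G => g⁻¹ * x) ⁻¹' (scal ρ : Set G) ∈ 𝓝 g :=
      (hS.preimage (by fun_prop)).mem_nhds (by simp)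
    filter_upwards [this] with x hx
    exact (hrr g x (QuotientGroup.eq.mpr hx)).symm
  have hτc : Continuous fun g => (τ g : ℤ_[p]) := by
    rw [continuous_iff_continuousAt]
    intro g
    have hemb : IsClosedEmbedding fun a : ℤ_[p] => a • ρ (r g) v₀ :=
      (m.smul _).isClosedEmbedding fun a b h => hcancel _ a b h
    rw [ContinuousAt, hemb.isInducing.tendsto_nhds_iff, ← hτ g v₀]
    refine ((m.cont_rho' v₀).tendsto g).congr' ?_
    filter_upwards [hloc g] with x hx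
    show ρ x v₀ = (τ x : ℤ_[p]) • ρ (r g) v₀
    rw [hτ x, hx]
  let e : G → (Fin n → ℚ_[p]) × ℚ_[p] := fun g => (j (c g), ((τ g : ℤ_[p]) : ℚ_[p]))
  have hec : Continuous e :=
    (hj.continuous.comp hcc).prodMk (PadicInt.isOpenEmbedding_coe.continuous.comp hτc)
  -- the closure of the powers of `s`
  have hsS : s ∈ scal ρ := by
    have hu : IsUnit β := by
      rw [PadicInt.isUnit_iff]
      obtain ⟨b, hb⟩ := h1
      have hlt : ‖β - 1‖ < 1 := by
        rw [PadicInt.norm_lt_one_iff_dvd, hb]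
        exact (dvd_pow_self _ two_ne_zero).mul_right b
      have := PadicInt.norm_add_eq_max_of_ne (q := β - 1) (r := 1) (by rw [norm_one]; exact hlt.ne)
      rw [sub_add_cancel, norm_one, max_eq_right hlt.le] at this
      exact this
    obtain ⟨u, rfl⟩ := hu
    exact ⟨u, hs⟩
  let X : Set G := {k | k ∈ scal ρ ∧ c k = 0}
  have hXc : IsClosed X := hSc.inter (isClosed_eq hcc continuous_const)
  let Q : Set ℤ_[p] := Prod.fst '' {t : ℤ_[p] × G | t.2 ∈ X ∧ ρ t.2 v₀ = t.1 • v₀}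
  have hQc : IsClosed Q :=
    (((hXc.preimage continuous_snd).inter (isClosed_eq ((m.cont_rho' v₀).comp continuous_snd)
      ((m.smul v₀).comp continuous_fst))).isCompact.image continuous_fst).isClosed
  have hQ : Q ∈ 𝓝 (1 : ℤ_[p]) := by
    refine nhds_one_of_pow h1 h2 hQc fun k => ⟨(β ^ k, s ^ k), ⟨⟨pow_mem hsS k, ?_⟩, ?_⟩, rfl⟩
    · apply m.inj
      rw [hc, m.zero, commutatorElement_eq_one_iff_commute]
      exact (Commute.refl s).pow_left k
    · show ρ (s ^ k) v₀ = β ^ k • v₀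
      induction k with
      | zero => simp
      | succ k ih => rw [pow_succ', rho_mul, ih, hs, pow_succ', mul_smul]
  have : CompactSpace (scal ρ) := isCompact_iff_compactSpace.mp hSc.isCompact
  refine lie_of_local' e ?_ ?_ ?_
  · refine isLocalHomeomorph_of_param (Z := scal ρ) _ fun g => ⟨fun k => r g * k,
      (Homeomorph.mulLeft (r g)).isOpenEmbedding.comp hS.isOpenEmbedding_subtypeVal,
      ⟨⟨_, hr g⟩, mul_inv_cancel_left _ _⟩, ?_⟩
    have hrk : ∀ k ∈ scal ρ, r (r g * k) = r g := fun k hk =>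
      hrr _ _ (by rw [QuotientGroup.mk_mul, hq1 k hk, mul_one, hrq])
    have hinj : Function.Injective (e ∘ fun k : scal ρ => r g * (k : G)) := by
      intro k l hkl
      have e1 : c (r g * k) = c (r g * l) := hj.injective (congrArg Prod.fst hkl)
      have e2 : (τ (r g * k) : ℤ_[p]) = τ (r g * l) := Subtype.ext (congrArg Prod.snd hkl)
      have e3 : ∀ v, ρ (r g * k) v = ρ (r g * l) v := fun v => by
        rw [hτ (r g * k), hτ (r g * l), hrk k k.2, hrk l l.2, e2]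
      have e4 : (r g * k)⁻¹ * (r g * l) ∈ A := hA _ fun v => by
        rw [rho_mul, ← e3, rho_inv_left]
      obtain ⟨a, ha⟩ := (m.mem _).mp e4
      have e5 : r g * l = r g * k * ι a := by rw [ha, mul_inv_cancel_left]
      rw [e5, hcmul (r g * k), left_eq_add, hcι] at e1
      have e6 : (1 - β) • a = 0 := by rw [← rho_inv_left ρ (r g * k) ((1 - β) • a), e1, map_zero]
      rw [(m.tf htf e6).resolve_left hβ0, m.zero, mul_one] at e5
      exact Subtype.ext (mul_left_cancel e5).symm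
    refine ⟨((hec.comp (by fun_prop)).isClosedEmbedding hinj).isEmbedding, ?_⟩
    rw [isOpen_iff_mem_nhds]
    rintro _ ⟨k, rfl⟩
    set x := r g * (k : G) with hx
    have hβq : ((1 - β : ℤ_[p]) : ℚ_[p]) ≠ 0 := PadicInt.coe_ne_zero.mpr hβ0
    have hN1 : (fun u : Fin n → ℚ_[p] => ((1 - β : ℤ_[p]) : ℚ_[p])⁻¹ • (u - j (c x))) ⁻¹'
        Set.range j ∈ 𝓝 (j (c x)) :=
      (hj.isOpen_range.preimage (by fun_prop)).mem_nhds ⟨0, by simp⟩
    have hN2 : (fun t : ℚ_[p] => (((τ x : ℤ_[p])) : ℚ_[p])⁻¹ * t) ⁻¹'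
        ((fun a : ℤ_[p] => (a : ℚ_[p])) '' Q) ∈ 𝓝 (((τ x : ℤ_[p])) : ℚ_[p]) := by
      refine ContinuousAt.preimage_mem_nhds (by fun_prop) ?_
      rw [inv_mul_cancel₀ (hτ0 x)]
      exact PadicInt.isOpenEmbedding_coe.isOpenMap.image_mem_nhds hQ
    refine mem_of_superset (prod_mem_nhds hN1 hN2) ?_
    rintro ⟨u, t⟩ ⟨⟨a, ha⟩, ⟨_, ⟨⟨b, l⟩, ⟨⟨hl, hl0⟩, hb⟩, rfl⟩, ht⟩⟩
    have hy : (r g)⁻¹ * ι a * r g * k * l ∈ scal ρ := by
      refine mul_mem (mul_mem ?_ k.2) hl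
      simpa using hSn.conj_mem _ (hιs a) (r g)⁻¹
    have hy2 : r g * ((r g)⁻¹ * ι a * r g * k * l) = ι a * (x * l) := by rw [hx]; group
    refine ⟨⟨_, hy⟩, ?_⟩
    show e (r g * ((r g)⁻¹ * ι a * r g * k * l)) = (u, t)
    have hr2 := hrk _ hy
    rw [hy2] at hr2 ⊢
    have hl0' : c l = 0 := hl0
    have hb' : ρ l v₀ = b • v₀ := hb
    have ha' : j a = ((1 - β : ℤ_[p]) : ℚ_[p])⁻¹ • (u - j (c x)) := ha
    have ht' : (b : ℚ_[p]) = (((τ x : ℤ_[p])) : ℚ_[p])⁻¹ * t := ht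
    refine Prod.ext ?_ ?_
    · show j (c (ι a * (x * l))) = u
      rw [hcmul, m.rho_iota, hcmul, hl0', map_zero, add_zero, hcι, map_add, hjs, ha',
        smul_inv_smul₀ hβq, sub_add_cancel]
    · show (((τ (ι a * (x * l)) : ℤ_[p])) : ℚ_[p]) = t
      rw [hτu (ι a * (x * l)) (τ x * b) (by
        rw [rho_mul, m.rho_iota, rho_mul, hb', map_smul, hτ x, hr2, hrk k k.2, mul_comm, mul_smul]),
        PadicInt.coe_mul, ht', mul_inv_cancel_left₀ (hτ0 x)]
  · intro g h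
    refine ⟨fun t => (t.1.1 + t.1.2 • M (r g) t.2.1,
      ((τ (r g * r h) : ℤ_[p]) : ℚ_[p]) * (t.1.2 * t.2.2)), by fun_prop, ?_⟩
    filter_upwards [(continuous_fst.tendsto (g, h)).eventually (hloc g),
      (continuous_snd.tendsto (g, h)).eventually (hloc h)] with x e1 e2
    refine Prod.ext ?_ ?_
    · show j (c (x.1 * x.2)) = j (c x.1) + ((τ x.1 : ℤ_[p]) : ℚ_[p]) • M (r g) (j (c x.2))
      rw [hcmul, map_add, hτ x.1, hjs, hM, e1]
    · show ((τ (x.1 * x.2) : ℤ_[p]) : ℚ_[p]) = ((τ (r g * r h) : ℤ_[p]) : ℚ_[p]) *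
        (((τ x.1 : ℤ_[p]) : ℚ_[p]) * ((τ x.2 : ℤ_[p]) : ℚ_[p]))
      have e3 : r (x.1 * x.2) = r (r g * r h) :=
        hrr _ _ (by rw [← e1, ← e2, QuotientGroup.mk_mul, QuotientGroup.mk_mul, hrq, hrq])
      rw [hτu (x.1 * x.2) (τ (r g * r h) * (τ x.1 * τ x.2)) (by
        rw [rho_mul, hτ x.1, hτ x.2, e1, e2, map_smul, ← rho_mul, hτ (r g * r h), e3, smul_smul,
          smul_smul, mul_comm]), PadicInt.coe_mul, PadicInt.coe_mul]
  · intro g
    have hd : ContDiffAt ℚ_[p] ω (fun t : (Fin n → ℚ_[p]) × ℚ_[p] => t.2⁻¹) (e g) :=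
      contDiffAt_snd.inv (hτ0 g)
    refine ⟨fun t => (-(t.2⁻¹ • M (r g)⁻¹ t.1), ((τ (r g)⁻¹ : ℤ_[p]) : ℚ_[p]) * t.2⁻¹),
      ((hd.smul (by fun_prop)).neg).prodMk (contDiffAt_const.mul hd), ?_⟩
    filter_upwards [hloc g] with x e1
    have e2 : ∀ w, (τ x : ℤ_[p]) • ρ x⁻¹ w = ρ (r g)⁻¹ w := by
      intro w
      conv_lhs => rw [← rho_inv_right ρ (r g) w, ← map_smul, ← e1, ← hτ x, rho_inv_left, e1]
    refine Prod.ext ?_ ?_
    · show j (c x⁻¹) = -(((τ x : ℤ_[p]) : ℚ_[p])⁻¹ • M (r g)⁻¹ (j (c x)))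
      have e3 : c x⁻¹ = -ρ x⁻¹ (c x) := by
        rw [eq_neg_iff_add_eq_zero, ← hcmul, inv_mul_cancel, hc1]
      rw [e3, map_neg, ← hM, ← e2, hjs, inv_smul_smul₀ (hτ0 x)]
    · show ((τ x⁻¹ : ℤ_[p]) : ℚ_[p]) = ((τ (r g)⁻¹ : ℤ_[p]) : ℚ_[p]) * ((τ x : ℤ_[p]) : ℚ_[p])⁻¹
      have e3 : r x⁻¹ = r (r g)⁻¹ :=
        hrr _ _ (by rw [← e1, QuotientGroup.mk_inv, QuotientGroup.mk_inv, hrq])
      have e4 : (τ x : ℤ_[p]) * τ x⁻¹ = τ (r g)⁻¹ := by
        apply hcancel (r x⁻¹)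
        rw [mul_smul, ← hτ x⁻¹, e2, hτ (r g)⁻¹, e3]
      rw [eq_mul_inv_iff_mul_eq₀ (hτ0 x), ← e4, PadicInt.coe_mul, mul_comm]

end Pool.Agent.Lib.MP_2dbb30_al.TF
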