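import Pool.Agent.Lib.MP_2dbb30_al.TF.Scal
import Pool.Agent.Lib.MP_2dbb30_al.TF.Lie
import Pool.Agent.Lib.MP_2dbb30_al.TF.Coord2

set_option autoImplicit false
set_option linter.unusedSectionVars false

open Topology Filter
open scoped Manifold ContDiff

namespace Pool.Agent.Lib.MP_2dbb30_al.TF

variable {p : ℕ} [Fact p.Prime] {G : Type*} [Group G] [TopologicalSpace G] [IsTopologicalGroup G]
  [CompactSpace G] [T2Space G] [TotallyDisconnectedSpace G]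
  {V : Type*} [AddCommGroup V] [Module ℤ_[p] V] [TopologicalSpace V] [IsTopologicalAddGroup V]
  {A : Subgroup G} {ι : V → G} {ρ : G →* Module.End ℤ_[p] V}

/-- coordinates: `V` is an open lattice in `ℚ_[p] ^ r` and the action extends -/
theorem exists_coord (m : Model A ι ρ) (htf : ∀ g : G, IsOfFinOrder g → g = 1)
    [Module.Finite ℤ_[p] V] :
    ∃ (r : ℕ) (j : V →+ (Fin r → ℚ_[p])) (M : G → (Fin r → ℚ_[p]) →L[ℚ_[p]] (Fin r → ℚ_[p])),
      IsOpenEmbedding j ∧ (∀ (a : ℤ_[p]) (v : V), j (a • v) = (a : ℚ_[p]) • j v) ∧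
      ∀ g v, j (ρ g v) = M g (j v) :=
  exists_coord' m htf

/-- `A` open -/
theorem lie_open (m : Model A ι ρ) (htf : ∀ g : G, IsOfFinOrder g → g = 1)
    [Module.Finite ℤ_[p] V] (hA : IsOpen (A : Set G)) :
    ∃ (n : ℕ) (_ : ChartedSpace (Fin n → ℚ_[p]) G),
      LieGroup 𝓘(ℚ_[p], Fin n → ℚ_[p]) ω G :=
  lie_open' m htf hA

/-- a scalar of infinite order -/
theorem lie_scalar (m : Model A ι ρ) (htf : ∀ g : G, IsOfFinOrder g → g = 1)
    [Module.Finite ℤ_[p] V] (hA : ∀ g, (∀ v, ρ g v = v) → g ∈ A) (hS : IsOpen (scal ρ : Set G))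
    [Nontrivial V] (s : G) (β : ℤ_[p]) (h1 : (p : ℤ_[p]) ^ 2 ∣ β - 1) (h2 : β ≠ 1)
    (hs : ∀ v, ρ s v = β • v) :
    ∃ (n : ℕ) (_ : ChartedSpace (Fin n → ℚ_[p]) G),
      LieGroup 𝓘(ℚ_[p], Fin n → ℚ_[p]) ω G :=
  lie_scalar' m htf hA hS s β h1 h2 hs

theorem lie_of_scal (m : Model A ι ρ) (htf : ∀ g : G, IsOfFinOrder g → g = 1)
    [Module.Finite ℤ_[p] V] (hA : ∀ g, (∀ v, ρ g v = v) → g ∈ A) (hS : IsOpen (scal ρ : Set G)) :
    ∃ (n : ℕ) (_ : ChartedSpace (Fin n → ℚ_[p]) G),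
      LieGroup 𝓘(ℚ_[p], Fin n → ℚ_[p]) ω G := by
  rcases open_or_scalar m htf hA hS with h | ⟨_, s, β, h1, h2, hs⟩
  exacts [lie_open m htf h, lie_scalar m htf hA hS s β h1 h2 hs]

end Pool.Agent.Lib.MP_2dbb30_al.TF
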