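import Pool.Agent.Lib.MP_2dbb30_al.TF.Scal
import Pool.Agent.Lib.MP_2dbb30_al.TF.Lie

set_option autoImplicit false
set_option linter.unusedSectionVars false

open Topology Filter
open scoped Manifold ContDiff

namespace Pool.Agent.Lib.MP_2dbb30_al.TF

/-- a map that is an open embedding along open parametrisations is a local homeomorphism -/
theorem isLocalHomeomorph_of_param {X Y Z : Type*} [TopologicalSpace X] [TopologicalSpace Y]
    [TopologicalSpace Z] [Nonempty Z] (e : X → Y)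
    (h : ∀ x : X, ∃ φ : Z → X, IsOpenEmbedding φ ∧ x ∈ Set.range φ ∧ IsOpenEmbedding (e ∘ φ)) :
    IsLocalHomeomorph e := by
  refine IsLocalHomeomorph.mk e fun x => ?_
  obtain ⟨φ, hφ, hx, he⟩ := h x
  refine ⟨(hφ.toOpenPartialHomeomorph φ).symm.trans (he.toOpenPartialHomeomorph (e ∘ φ)),
    by simpa using hx, ?_⟩
  intro y hy
  have hy' : y ∈ Set.range φ := by simpa using hy
  obtain ⟨z, rfl⟩ := hy'
  simp [hφ.toOpenPartialHomeomorph_left_inv]

variable {p : ℕ} [Fact p.Prime] {G : Type*} [Group G] [TopologicalSpace G] [IsTopologicalGroup G]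
  [CompactSpace G] [T2Space G] [TotallyDisconnectedSpace G]
  {V : Type*} [AddCommGroup V] [Module ℤ_[p] V] [TopologicalSpace V] [IsTopologicalAddGroup V]
  {A : Subgroup G} {ι : V → G} {ρ : G →* Module.End ℤ_[p] V}

theorem exists_coord' (m : Model A ι ρ) (htf : ∀ g : G, IsOfFinOrder g → g = 1)
    [Module.Finite ℤ_[p] V] :
    ∃ (r : ℕ) (j : V →+ (Fin r → ℚ_[p])) (M : G → (Fin r → ℚ_[p]) →L[ℚ_[p]] (Fin r → ℚ_[p])),
      IsOpenEmbedding j ∧ (∀ (a : ℤ_[p]) (v : V), j (a • v) = (a : ℚ_[p]) • j v) ∧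
      ∀ g v, j (ρ g v) = M g (j v) := by
  classical
  have := m.t2Space
  have : Module.IsTorsionFree ℤ_[p] V :=
    Module.IsTorsionFree.of_smul_eq_zero fun a v h => m.tf htf h
  have : Module.Free ℤ_[p] V := Module.free_of_finite_type_torsion_free'
  let b := Module.finBasis ℤ_[p] V
  set r := Module.finrank ℤ_[p] V
  have hc : Continuous (b.equivFun.symm : (Fin r → ℤ_[p]) → V) := by
    have : (b.equivFun.symm : (Fin r → ℤ_[p]) → V) = fun c => ∑ i, c i • b i := by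
      ext c; exact b.equivFun_symm_apply c
    rw [this]
    exact continuous_finsetSum _ fun i _ => (m.smul (b i)).comp (continuous_apply i)
  let H : (Fin r → ℤ_[p]) ≃ₜ V := hc.homeoOfEquivCompactToT2 (f := b.equivFun.symm.toEquiv)
  let j : V →+ (Fin r → ℚ_[p]) :=
    { toFun := fun v i => (b.equivFun v i : ℚ_[p])
      map_zero' := by ext i; simp
      map_add' := fun v w => by ext i; simp }
  have hj : IsOpenEmbedding j := by
    have h1 : IsOpenEmbedding (Pi.map fun (_ : Fin r) (a : ℤ_[p]) => (a : ℚ_[p])) :=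
      IsOpenEmbedding.piMap fun _ => PadicInt.isOpenEmbedding_coe
    exact h1.comp H.symm.isOpenEmbedding
  refine ⟨r, j, fun g => LinearMap.toContinuousLinearMap
    (Matrix.toLin' ((LinearMap.toMatrix b b (ρ g)).map fun a : ℤ_[p] => (a : ℚ_[p]))), hj, ?_, ?_⟩
  · intro a v
    ext i
    simp [j]
  · intro g v
    ext i
    have h1 := congrFun (LinearMap.toMatrix_mulVec_repr b b (ρ g) v) i
    simp only [j, AddMonoidHom.coe_mk, ZeroHom.coe_mk, Module.Basis.equivFun_apply,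
      LinearMap.coe_toContinuousLinearMap', Matrix.toLin'_apply]
    rw [← h1]
    simp [Matrix.mulVec, dotProduct]

theorem lie_open' (m : Model A ι ρ) (htf : ∀ g : G, IsOfFinOrder g → g = 1)
    [Module.Finite ℤ_[p] V] (hA : IsOpen (A : Set G)) :
    ∃ (n : ℕ) (_ : ChartedSpace (Fin n → ℚ_[p]) G),
      LieGroup 𝓘(ℚ_[p], Fin n → ℚ_[p]) ω G := by
  obtain ⟨n, j, M, hj, -, hM⟩ := exists_coord' m htf
  let r : G → G := fun g => (g : G ⧸ A).out
  have hr : ∀ g, (r g)⁻¹ * g ∈ A := fun g => QuotientGroup.eq.mp (QuotientGroup.out_eq' _)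
  have hrr : ∀ g h, g⁻¹ * h ∈ A → r g = r h := fun g h e => by
    show (g : G ⧸ A).out = (h : G ⧸ A).out
    rw [QuotientGroup.eq.mpr e]
  choose c hc using fun g => (m.mem _).mp (hr g)
  have hιA : ∀ v, ι v ∈ A := fun v => (m.mem _).mpr ⟨v, rfl⟩
  have hcadd : ∀ g v, c (g * ι v) = c g + v := by
    intro g v
    apply m.inj
    rw [m.add, hc, hc, ← hrr g (g * ι v) (by simpa using hιA v), mul_assoc]
  have hcr : ∀ g, c (r g) = 0 := by
    intro g
    apply m.inj
    rw [hc, hrr (r g) g (hr g), inv_mul_cancel, m.zero]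
  have hdec : ∀ g, g = r g * ι (c g) := fun g => by rw [hc]; group
  have hrange : Set.range ι = (A : Set G) := by
    ext g; exact (m.mem g).symm
  have hι : IsOpenEmbedding ι := ⟨m.emb.isEmbedding, hrange ▸ hA⟩
  have hloc : ∀ g : G, ∀ᶠ x in 𝓝 g, r x = r g := by
    intro g
    have : (fun x : G => g⁻¹ * x) ⁻¹' (A : Set G) ∈ 𝓝 g :=
      (hA.preimage (by fun_prop)).mem_nhds (by simp)
    filter_upwards [this] with x hx
    exact (hrr g x hx).symm
  refine ⟨n, lie_of_local (fun g => j (c g)) ?_ ?_ ?_⟩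
  · refine isLocalHomeomorph_of_param (Z := V) _ fun g => ⟨fun v => r g * ι v,
      (Homeomorph.mulLeft (r g)).isOpenEmbedding.comp hι, ⟨c g, (hdec g).symm⟩, ?_⟩
    have : (fun g => j (c g)) ∘ (fun v => r g * ι v) = j := by
      ext1 v
      show j (c (r g * ι v)) = j v
      rw [hcadd, hcr, zero_add]
    rw [this]; exact hj
  · intro g h
    refine ⟨fun t => j (c (r g * r h)) + (M (r h)⁻¹ t.1 + t.2), by fun_prop, ?_⟩
    filter_upwards [(continuous_fst.tendsto (g, h)).eventually (hloc g),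
      (continuous_snd.tendsto (g, h)).eventually (hloc h)] with x h1 h2
    rw [← hM, ← map_add, ← map_add, ← hcadd]
    congr 2
    rw [m.add, m.conj]
    conv_lhs => rw [hdec x.1, hdec x.2, h1, h2]
    group
  · intro g
    refine ⟨fun t => j (c (r g)⁻¹) - M (r g) t, by fun_prop, ?_⟩
    filter_upwards [hloc g] with x h1
    rw [← hM, ← map_sub, sub_eq_add_neg, ← hcadd]
    congr 2
    rw [m.neg, m.conj]
    conv_lhs => rw [hdec x, h1]
    group

/-- either `A` is open or some element acts as a scalar `β ≠ 1` with `β ≡ 1 mod p ^ 2` -/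
theorem open_or_scalar (m : Model A ι ρ) (htf : ∀ g : G, IsOfFinOrder g → g = 1)
    (hA : ∀ g, (∀ v, ρ g v = v) → g ∈ A) (hS : IsOpen (scal ρ : Set G)) :
    IsOpen (A : Set G) ∨ (Nontrivial V ∧ ∃ (s : G) (β : ℤ_[p]), (p : ℤ_[p]) ^ 2 ∣ β - 1 ∧ β ≠ 1 ∧
      ∀ v, ρ s v = β • v) := by
  have := m.t2Space
  rcases subsingleton_or_nontrivial V with hV | hV
  · left
    have : (A : Set G) = Set.univ :=
      Set.eq_univ_of_forall fun g => hA g fun v => Subsingleton.elim _ _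
    rw [this]; exact isOpen_univ
  by_cases hex : ∃ (s : G) (β : ℤ_[p]), (p : ℤ_[p]) ^ 2 ∣ β - 1 ∧ β ≠ 1 ∧ ∀ v, ρ s v = β • v
  · exact Or.inr ⟨hV, hex⟩
  left
  obtain ⟨v₀, hv₀⟩ := exists_ne (0 : V)
  have hp : (0 : ℝ) < (p : ℝ) ^ (-(2 : ℕ) : ℤ) :=
    zpow_pos (by exact_mod_cast (Fact.out : p.Prime).pos) _
  let B : Set ℤ_[p] := {a | (p : ℝ) ^ (-(2 : ℕ) : ℤ) ≤ ‖a - 1‖}
  have hB : IsClosed B := isClosed_le continuous_const (by fun_prop)
  have hBv : IsClosed ((fun a : ℤ_[p] => a • v₀) '' B) := (hB.isCompact.image (m.smul v₀)).isClosed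
  have hU : (fun g : G => ρ g v₀) ⁻¹' ((fun a : ℤ_[p] => a • v₀) '' B)ᶜ ∈ 𝓝 (1 : G) := by
    refine (hBv.isOpen_compl.preimage (m.cont_rho' v₀)).mem_nhds ?_
    rintro ⟨a, ha, e⟩
    have e' : (a - 1) • v₀ = 0 := by
      rw [sub_smul, one_smul, sub_eq_zero]; simpa using e
    have h0 : a - 1 = 0 := (m.tf htf e').resolve_right hv₀
    have ha' : (p : ℝ) ^ (-(2 : ℕ) : ℤ) ≤ ‖a - 1‖ := ha
    rw [h0, norm_zero] at ha'
    exact absurd hp (not_lt.mpr ha')
  refine Subgroup.isOpen_of_mem_nhds A (g := 1) ?_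
  filter_upwards [hU, hS.mem_nhds (one_mem (scal ρ))] with g hg hgs
  obtain ⟨c, hc⟩ := hgs
  have h1 : ‖(c : ℤ_[p]) - 1‖ ≤ (p : ℝ) ^ (-(2 : ℕ) : ℤ) := by
    by_contra h
    exact hg ⟨c, (not_le.mp h).le, (hc v₀).symm⟩
  rw [PadicInt.norm_le_pow_iff_mem_span_pow, Ideal.mem_span_singleton] at h1
  have h2 : (c : ℤ_[p]) = 1 := by
    by_contra h
    exact hex ⟨g, c, h1, h, hc⟩
  exact hA g fun v => by rw [hc, h2, one_smul]

end Pool.Agent.Lib.MP_2dbb30_al.TF
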