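import Pool.Agent.Lib.MP_2dbb30_al.TF.KL
import Pool.Agent.Lib.MP_2dbb30_al.TF.Chart

set_option autoImplicit false
set_option linter.unusedSectionVars false

open Topology Filter
open scoped Manifold ContDiff

namespace Pool.Agent.Lib.MP_2dbb30_al.TF

variable {p : ℕ} [Fact p.Prime] {G : Type*} [Group G] [TopologicalSpace G] [IsTopologicalGroup G]
  [CompactSpace G] [T2Space G] [TotallyDisconnectedSpace G]

theorem main [Group.IsSolvable G] (hG : ProP p G)
    (hfg : ∃ T : Finset G, (Subgroup.closure (T : Set G)).topologicalClosure = ⊤)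
    (htf : ∀ g : G, IsOfFinOrder g → g = 1) (hve : HVE p G) :
    ∃ (n : ℕ) (_ : ChartedSpace (Fin n → ℚ_[p]) G),
      LieGroup 𝓘(ℚ_[p], Fin n → ℚ_[p]) ω G := by
  obtain ⟨A, hn, hc, hA⟩ := exists_A htf hve
  obtain ⟨V, _, _, _, _, ι, ρ, m⟩ := exists_model hG A hn hc fun a ha b hb => (hA a).1 ha b hb
  have hA' : ∀ g, (∀ v, ρ g v = v) → g ∈ A := by
    intro g hg
    rw [hA]
    intro a ha
    obtain ⟨v, rfl⟩ := (m.mem a).1 ha
    have := m.conj g v
    rw [hg] at this
    rw [← mul_inv_eq_iff_eq_mul, ← this]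
  have hS : IsOpen (scal ρ : Set G) := scal_open m hG hfg fun x => by
    obtain ⟨n, c, hc⟩ := scalar_pow m hG htf x (line_pow m hG htf hve x)
    exact ⟨n, c, hc⟩
  have := finite_V m hG htf hfg hA' hS
  exact lie_of_scal m htf hA' hS

end Pool.Agent.Lib.MP_2dbb30_al.TF
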