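import Pool.Agent.Lib.MP_2dbb30_al.TF.Defs
import Pool.Agent.Lib.MP_2dbb30_al.TF.Base

set_option autoImplicit false
set_option linter.unusedSectionVars false

open Topology Filter

namespace Pool.Agent.Lib.MP_2dbb30_al.TF

/-- a simple virtual endomorphism of `H` on a normal subgroup of index `p`, written inside `G` -/
def VE (p : ℕ) {G : Type*} [Group G] (H : Subgroup G) : Prop :=
  ∃ (D : Subgroup G) (f : G → G), D ≤ H ∧ (∀ h ∈ H, ∀ d ∈ D, h * d * h⁻¹ ∈ D) ∧
    D.relIndex H = p ∧ (∀ a ∈ D, ∀ b ∈ D, f (a * b) = f a * f b) ∧ (∀ a ∈ D, f a ∈ H) ∧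
    ∀ N : Subgroup G, N ≤ D → (∀ h ∈ H, ∀ n ∈ N, h * n * h⁻¹ ∈ N) → (∀ n ∈ N, f n ∈ N) → N = ⊥

/-- all nontrivial two-generated closed subgroups have a simple virtual endomorphism -/
def HVE (p : ℕ) (G : Type*) [Group G] [TopologicalSpace G] [IsTopologicalGroup G] : Prop :=
  ∀ a b : G, a ≠ 1 → VE p (Subgroup.closure ({a, b} : Set G)).topologicalClosure

section Abstract

variable {H : Type*} [Group H]

theorem exists_ve {d : ℕ} (hd : 0 < d) (h : SelfSimilar d H) :
    ∃ (D : Subgroup H) (f : H → H), D.index = d ∧ (∀ a ∈ D, ∀ b ∈ D, f (a * b) = f a * f b) ∧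
      ∀ N : Subgroup H, N ≤ D → N.Normal → (∀ n ∈ N, f n ∈ N) → N = ⊥ := by
  obtain ⟨ρ, hinj, h0, -, hss, htr⟩ := h
  choose σ r hr using hss
  let x0 : Fin d := ⟨0, hd⟩
  have hone : ∀ g x, ρ g [x] = [σ g x] := fun g x => by rw [hr, h0]
  have hlen : ∀ (w : List (Fin d)) (g : H), (ρ g w).length = w.length := by
    intro w
    induction w with
    | nil => intro g; rw [h0]
    | cons x w ih => intro g; rw [hr, List.length_cons, List.length_cons, ih]
  let : MulAction H (List (Fin d)) := MulAction.compHom _ ρ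
  have hsm : ∀ (g : H) (w : List (Fin d)), g • w = ρ g w := fun _ _ => rfl
  have hD : ∀ g, g ∈ MulAction.stabilizer H [x0] → ∀ w, ρ g (x0 :: w) = x0 :: ρ (r g x0) w := by
    intro g hg w
    have h1 : ρ g [x0] = [x0] := hg
    rw [hone] at h1
    rw [hr, List.singleton_inj.1 h1]
  refine ⟨MulAction.stabilizer H [x0], fun g => r g x0, ?_, ?_, ?_⟩
  · rw [MulAction.index_stabilizer]
    have : MulAction.orbit H [x0] = Set.range fun y : Fin d => [y] := by
      ext w
      constructor
      · rintro ⟨g, rfl⟩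
        exact ⟨σ g x0, (hone g x0).symm⟩
      · rintro ⟨y, rfl⟩
        exact htr x0 y
    rw [this, Set.ncard_range_of_injective fun a b h => List.singleton_inj.1 h]
    simp
  · intro a ha b hb
    apply hinj
    ext1 w
    have h1 := hD _ (mul_mem ha hb) w
    rw [map_mul, Equiv.Perm.mul_apply, hD b hb, hD a ha] at h1
    rw [map_mul, Equiv.Perm.mul_apply]
    exact (List.cons_injective h1).symm
  · intro N hN hn hf
    have key : ∀ k : ℕ, ∀ w : List (Fin d), w.length = k → ∀ n ∈ N, ρ n w = w := by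
      intro k
      induction k with
      | zero =>
        intro w hw n _
        rw [List.length_eq_zero_iff.1 hw, h0]
      | succ k ih =>
        intro w hw n hn'
        obtain ⟨x, w', rfl⟩ := List.exists_cons_of_length_eq_add_one hw
        obtain ⟨g, hg⟩ := htr x0 x
        rw [hone] at hg
        have hx : σ g x0 = x := List.singleton_inj.1 hg
        set u := ρ (r g x0)⁻¹ w' with hu
        have h1 : ρ g (x0 :: u) = x :: w' := by
          rw [hr, hx, hu, ← Equiv.Perm.mul_apply, ← map_mul, mul_inv_cancel, map_one,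
            Equiv.Perm.one_apply]
        have hn2 : g⁻¹ * n * g ∈ N := by simpa using hn.conj_mem n hn' g⁻¹
        have h2 : ρ (g⁻¹ * n * g) (x0 :: u) = x0 :: u := by
          rw [hD _ (hN hn2), ih u (by rw [hu, hlen]; simpa using hw) _ (hf _ hn2)]
        rw [← h1]
        conv_rhs => rw [← h2]
        simp only [← Equiv.Perm.mul_apply, ← map_mul]
        congr 2
        group
    rw [eq_bot_iff]
    intro n hn'
    rw [Subgroup.mem_bot]
    apply hinj
    ext1 w
    rw [key _ w rfl n hn', map_one, Equiv.Perm.one_apply]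

theorem normal_of_index_prime {p : ℕ} (hp : p.Prime) (D : Subgroup H) (hD : D.index = p)
    (h : ∀ q : ℕ, ¬ p ∣ q → ∀ g : H, ∃ x : H, x ^ q = g) : D.Normal := by
  have : Fact p.Prime := ⟨hp⟩
  have : D.FiniteIndex := ⟨by rw [hD]; exact hp.ne_zero⟩
  set K := D.normalCore
  have hK : IsPGroup p (H ⧸ K) := by
    intro g
    obtain ⟨g, rfl⟩ := QuotientGroup.mk_surjective g
    obtain ⟨r, q, hq, hrq⟩ :=
      Nat.exists_eq_pow_mul_and_not_dvd (Subgroup.FiniteIndex.index_ne_zero (H := K)) p hp.ne_one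
    obtain ⟨x, rfl⟩ := h q hq g
    refine ⟨r, ?_⟩
    rw [← QuotientGroup.mk_pow, QuotientGroup.eq_one_iff, ← pow_mul, mul_comm, ← hrq]
    exact K.pow_index_mem x
  have hle : (QuotientGroup.mk' K).ker ≤ D := by
    rw [QuotientGroup.ker_mk']; exact D.normalCore_le
  have hi : (D.map (QuotientGroup.mk' K)).index = p := by
    rw [Subgroup.index_map_eq _ (QuotientGroup.mk'_surjective K) hle, hD]
  obtain ⟨k, hk⟩ := IsPGroup.iff_card.1 hK
  have hk0 : k ≠ 0 := by
    rintro rfl
    have := (D.map (QuotientGroup.mk' K)).index_dvd_card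
    rw [hi, hk, pow_zero] at this
    exact hp.one_lt.ne' (Nat.dvd_one.1 this)
  have hn : (D.map (QuotientGroup.mk' K)).Normal := by
    apply Subgroup.normal_of_index_eq_minFac_card
    rw [hi, hk, hp.pow_minFac hk0]
  rw [← Subgroup.comap_map_eq_self hle]
  exact hn.comap _

end Abstract

variable {p : ℕ} [Fact p.Prime] {G : Type*} [Group G] [TopologicalSpace G] [IsTopologicalGroup G]
  [CompactSpace G] [T2Space G] [TotallyDisconnectedSpace G]

theorem ve_of_selfSimilar (hG : ProP p G) (H : Subgroup G) (hH : IsClosed (H : Set G))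
    (h : SelfSimilar p H) : VE p H := by
  classical
  have hp : p.Prime := Fact.out
  obtain ⟨D, f, hD, hf, hs⟩ := exists_ve hp.pos h
  have hn : D.Normal := normal_of_index_prime hp D hD fun q hq g => by
    have hu : IsUnit (q : ℤ_[p]) := by
      rw [PadicInt.isUnit_iff]
      exact PadicInt.norm_natCast_eq_one_iff.2 ((Nat.Prime.coprime_iff_not_dvd hp).2 hq)
    obtain ⟨u, hu⟩ := hu.exists_left_inv
    refine ⟨⟨pw hG g u, pw_mem hG hH g.2 u⟩, Subtype.ext ?_⟩
    have h1 := pw_natCast hG (g : G) 1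
    simp only [Subgroup.coe_pow]
    rw [← pw_natCast hG, ← pw_mul, hu]
    simpa using h1
  let F : G → G := fun g => if hg : g ∈ H then (f ⟨g, hg⟩ : G) else 1
  have hF : ∀ x : H, F x = f x := fun x => by simp [F]
  refine ⟨D.map H.subtype, F, Subgroup.map_subtype_le D, ?_, ?_, ?_, ?_, ?_⟩
  · rintro x hx _ ⟨d, hd, rfl⟩
    exact ⟨_, hn.conj_mem d hd ⟨x, hx⟩, rfl⟩
  · rw [Subgroup.relIndex, Subgroup.subgroupOf,
      Subgroup.comap_map_eq_self_of_injective H.subtype_injective, hD]
  · rintro _ ⟨a, ha, rfl⟩ _ ⟨b, hb, rfl⟩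
    simp only [Subgroup.coe_subtype]
    rw [← Subgroup.coe_mul, hF, hF, hF, hf a ha b hb, Subgroup.coe_mul]
  · rintro _ ⟨a, -, rfl⟩
    simp only [Subgroup.coe_subtype]
    rw [hF]
    exact (f a).2
  · intro N hN h1 h2
    have hNH : N ≤ H := hN.trans (Subgroup.map_subtype_le D)
    have := hs (N.subgroupOf H) (fun x hx => by
        obtain ⟨d, hd, hdx⟩ := hN hx
        rwa [← Subtype.ext hdx])
      ⟨fun n hn' g => h1 g g.2 n hn'⟩ (fun n hn' => by
        have := h2 n hn'
        rwa [hF] at this)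
    rw [eq_bot_iff]
    intro n hn'
    have h3 : (⟨n, hNH hn'⟩ : H) ∈ N.subgroupOf H := hn'
    rw [this, Subgroup.mem_bot] at h3
    exact Subgroup.mem_bot.2 (congrArg Subtype.val h3)

end Pool.Agent.Lib.MP_2dbb30_al.TF
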